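import Pool.Agent.Q290.AB.Exact

/-!
# A place of bad reduction of a configuration divides an abc triple
-/

set_option autoImplicit false

namespace Pool.Agent.Q84.NX

open NumberField IsDedekindDomain
open Pool.Agent.Q290.AB (Moeb GoodAt cr cr_moeb val_cr unitAt_of_val exists_place one_sub_cr val_int)
open Pool.Agent.Q231.SH (IsTriple rad3 six UnitAt)

/-- good reduction if all the cross ratios are units -/
theorem goodAt_of_cross {K : Type} [Field K] [NumberField K] (v : HeightOneSpectrum (𝓞 K)) {m : ℕ} (h3 : 3 ≤ m)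
    {z : Fin m → K} (hz : Function.Injective z)
    (h : ∀ i j k l : Fin m, i ≠ j → i ≠ k → i ≠ l → j ≠ k → j ≠ l → k ≠ l →
      v.valuation K (cr (z i) (z j) (z k) (z l)) = 1) : GoodAt v z := by
  set j0 : Fin m := ⟨0, by omega⟩ with hj0
  set j1 : Fin m := ⟨1, by omega⟩ with hj1
  set j2 : Fin m := ⟨2, by omega⟩ with hj2
  have n01 : j0 ≠ j1 := by rw [hj0, hj1, Ne, Fin.ext_iff]; simp
  have n02 : j0 ≠ j2 := by rw [hj0, hj2, Ne, Fin.ext_iff]; simp
  have n12 : j1 ≠ j2 := by rw [hj1, hj2, Ne, Fin.ext_iff]; simp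
  have hne : ∀ {i j : Fin m}, i ≠ j → z i - z j ≠ 0 := fun h h0 => h (hz (sub_eq_zero.1 h0))
  set lam : Fin m → K := fun i => cr (z i) (z j0) (z j1) (z j2) with hlam
  have hl0 : lam j0 = 0 := by simp [hlam, cr]
  have hl1 : lam j1 = 1 := by
    simp only [hlam, cr]
    rw [div_eq_one_iff_eq (mul_ne_zero (hne n12) (hne n01.symm))]
    ring
  have hlv : ∀ i, i ≠ j0 → i ≠ j2 → v.valuation K (lam i) = 1 := by
    intro i h0 h2
    by_cases h1 : i = j1
    · rw [h1, hl1, map_one]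
    · exact h i j0 j1 j2 h0 h1 h2 n01 n02 n12
  have hsub : ∀ i j, i ≠ j2 → j ≠ j2 → lam i - lam j =
      (z i - z j) * (z j0 - z j2) * (z j1 - z j2) / ((z i - z j2) * (z j - z j2) * (z j1 - z j0)) := by
    intro i j hi hj
    have e1 := hne hi
    have e2 := hne hj
    have e3 := hne n01.symm
    simp only [hlam, cr]
    field_simp
    ring
  have hlv1 : ∀ i, i ≠ j1 → i ≠ j2 → v.valuation K (1 - lam i) = 1 := by
    intro i h1 h2
    by_cases h0 : i = j0
    · rw [h0, hl0, sub_zero, map_one]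
    · have e : 1 - lam i = cr (z i) (z j1) (z j0) (z j2) := by
        simp only [hlam]
        exact one_sub_cr (fun h => h2 (hz h)) (fun h => n01 (hz h).symm)
      rw [e]
      exact h i j1 j0 j2 h1 h0 h2 n01.symm n12 n02
  have hd : ∀ i j, i ≠ j → i ≠ j2 → j ≠ j2 → v.valuation K (lam i - lam j) = 1 := by
    intro i j hij hi hj
    by_cases hi0 : i = j0
    · rw [hi0, hl0, zero_sub, Valuation.map_neg]
      exact hlv j (fun h => hij (hi0.trans h.symm)) hj
    by_cases hj0' : j = j0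
    · rw [hj0', hl0, sub_zero]
      exact hlv i hi0 hi
    by_cases hi1 : i = j1
    · rw [hi1, hl1]
      exact hlv1 j (fun h => hij (hi1.trans h.symm)) hj
    by_cases hj1' : j = j1
    · rw [hj1', hl1, ← Valuation.map_neg, neg_sub]
      exact hlv1 i hi1 hi
    have e : lam i - lam j = -(lam j * cr (z i) (z j) (z j0) (z j2)) := by
      rw [hsub i j hi hj]
      have e1 := hne hi
      have e2 := hne hj
      have e3 := hne n01.symm
      have e4 := hne (Ne.symm hj0')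
      simp only [hlam, cr]
      field_simp
      ring
    rw [e, Valuation.map_neg, map_mul, hlv j hj0' hj, one_mul]
    exact h i j j0 j2 hij hi0 hi hj0' hj n02
  refine ⟨z j1 - z j2, -(z j0 * (z j1 - z j2)), z j1 - z j0, -(z j2 * (z j1 - z j0)),
    fun i => if i = j2 then ((z j2 - z j0) * (z j1 - z j2))⁻¹ else ((z i - z j2) * (z j1 - z j0))⁻¹, ?_, ?_, ?_⟩
  · have e : (z j1 - z j2) * -(z j2 * (z j1 - z j0)) - -(z j0 * (z j1 - z j2)) * (z j1 - z j0) =
        (z j1 - z j2) * (z j1 - z j0) * (z j0 - z j2) := by ring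
    rw [e]
    exact mul_ne_zero (mul_ne_zero (hne n12) (hne n01.symm)) (hne n02)
  all_goals
    have x2 : (if j2 = j2 then ((z j2 - z j0) * (z j1 - z j2))⁻¹ else ((z j2 - z j2) * (z j1 - z j0))⁻¹) *
        ((z j1 - z j2) * z j2 + -(z j0 * (z j1 - z j2))) = 1 := by
      rw [if_pos rfl]
      have e1 := hne n02.symm
      have e2 := hne n12
      field_simp
      ring
    have y2 : (if j2 = j2 then ((z j2 - z j0) * (z j1 - z j2))⁻¹ else ((z j2 - z j2) * (z j1 - z j0))⁻¹) *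
        ((z j1 - z j0) * z j2 + -(z j2 * (z j1 - z j0))) = 0 := by
      rw [if_pos rfl]
      ring
    have xi : ∀ i, i ≠ j2 → (if i = j2 then ((z j2 - z j0) * (z j1 - z j2))⁻¹ else ((z i - z j2) * (z j1 - z j0))⁻¹) *
        ((z j1 - z j2) * z i + -(z j0 * (z j1 - z j2))) = lam i := by
      intro i hi
      rw [if_neg hi]
      have e1 := hne hi
      have e2 := hne n01.symm
      simp only [hlam, cr]
      field_simp
      ring
    have yi : ∀ i, i ≠ j2 → (if i = j2 then ((z j2 - z j0) * (z j1 - z j2))⁻¹ else ((z i - z j2) * (z j1 - z j0))⁻¹) *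
        ((z j1 - z j0) * z i + -(z j2 * (z j1 - z j0))) = 1 := by
      intro i hi
      rw [if_neg hi]
      have e1 := hne hi
      have e2 := hne n01.symm
      field_simp
      ring
  · intro i
    by_cases hi : i = j2
    · rw [hi]
      constructor
      · refine le_of_eq ?_
        rw [← map_one (v.valuation K)]
        exact congrArg _ x2
      · have := congrArg (v.valuation K) y2
        rw [map_zero] at this
        exact this.le.trans zero_le_one
    · constructor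
      · have := congrArg (v.valuation K) (xi i hi)
        refine this.le.trans ?_
        by_cases h0 : i = j0
        · rw [h0, hl0, map_zero]; exact zero_le_one
        · exact (hlv i h0 hi).le
      · have := congrArg (v.valuation K) (yi i hi)
        rw [map_one] at this
        exact this.le
  · intro i j hij
    by_cases hi : i = j2
    · have hj : j ≠ j2 := fun h => hij (hi.trans h.symm)
      rw [hi]
      have e := congrArg₂ (· - ·) (congrArg₂ (· * ·) x2 (yi j hj)) (congrArg₂ (· * ·) (xi j hj) y2)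
      simp only [mul_zero, sub_zero, mul_one] at e
      have := congrArg (v.valuation K) e
      rw [map_one] at this
      convert this using 2
      simp
    · by_cases hj : j = j2
      · rw [hj]
        have e := congrArg₂ (· - ·) (congrArg₂ (· * ·) (xi i hi) y2) (congrArg₂ (· * ·) x2 (yi i hi))
        simp only [mul_zero, zero_sub, mul_one] at e
        have := congrArg (v.valuation K) e
        rw [Valuation.map_neg, map_one] at this
        convert this using 2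
        simp
      · have e := congrArg₂ (· - ·) (congrArg₂ (· * ·) (xi i hi) (yi j hj)) (congrArg₂ (· * ·) (xi j hj) (yi i hi))
        simp only [mul_one] at e
        have := congrArg (v.valuation K) e
        rw [hd i j hij hi hj] at this
        exact this

/-- the product of the prime factors -/
def rd (n : ℕ) : ℕ := ∏ q ∈ n.primeFactors, q

theorem rd_pos (n : ℕ) : 0 < rd n := Finset.prod_pos fun _ hq => (Nat.prime_of_mem_primeFactors hq).pos

theorem dvd_rd {n q : ℕ} (hn : n ≠ 0) (hq : q.Prime) (h : q ∣ n) : q ∣ rd n :=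
  Finset.dvd_prod_of_mem (fun q => q) (Nat.mem_primeFactors.2 ⟨hq, h, hn⟩)

theorem dvd_rad3 {s : ℕ × ℕ} (hs : IsTriple s) {q : ℕ} (hq : q.Prime) (h : q ∣ s.1 * s.2 * (s.1 + s.2)) : q ∣ rad3 s := by
  have h2 : q ∈ (s.1 * s.2 * (s.1 + s.2)).primeFactors := by
    rw [Nat.mem_primeFactors]
    refine ⟨hq, h, ?_⟩
    have h3 := hs.1
    have h4 := hs.2.1
    have h5 : 0 < s.2 := by omega
    positivity
  exact Finset.dvd_prod_of_mem (fun q => q) h2

/-- only the primes matter -/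
theorem rad3_rd {s : ℕ × ℕ} (hs : IsTriple s) {M r : ℕ} (hM : M ≠ 0) (h : rad3 s ∣ 2 * (M * r)) :
    rad3 s ∣ 2 * (rd M * r) := by
  apply Pool.Agent.Q231.SH.rad3_dvd
  intro q hq hqs
  have h1 := (dvd_rad3 hs hq hqs).trans h
  rw [Nat.Prime.dvd_mul hq, Nat.Prime.dvd_mul hq] at h1 ⊢
  rcases h1 with h2 | h2 | h2
  · exact Or.inl h2
  · exact Or.inr (Or.inl (dvd_rd hM hq h2))
  · exact Or.inr (Or.inr h2)

theorem cr_ne {m : ℕ} {b : Fin m → ℚ} (hb : Function.Injective b) {i j k w : Fin m} (hij : i ≠ j) (hik : i ≠ k)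
    (hiw : i ≠ w) (hjk : j ≠ k) (hjw : j ≠ w) (hkw : k ≠ w) :
    cr (b i) (b j) (b k) (b w) ≠ 0 ∧ cr (b i) (b j) (b k) (b w) ≠ 1 := by
  have hneq : ∀ {i j : Fin m}, i ≠ j → b i - b j ≠ 0 := fun h h0 => h (hb (sub_eq_zero.1 h0))
  constructor
  · unfold cr
    exact div_ne_zero (mul_ne_zero (hneq hij) (hneq hkw)) (mul_ne_zero (hneq hiw) (hneq hjk.symm))
  · intro h
    have ht1' : 1 - cr (b i) (b j) (b k) (b w) = cr (b i) (b k) (b j) (b w) :=
      one_sub_cr (fun h => hiw (hb h)) (fun h => hjk (hb h).symm)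
    rw [h, sub_self] at ht1'
    refine absurd ht1'.symm ?_
    unfold cr
    exact div_ne_zero (mul_ne_zero (hneq hik) (hneq hjw)) (mul_ne_zero (hneq hiw) (hneq hjk))

/-- the triple of a cross ratio -/
theorem triple_of_cross {K : Type} [Field K] [NumberField K] {m : ℕ} {z : Fin m → K} {b : Fin m → ℚ}
    (hb : Function.Injective b) (hz : Moeb z b) {n N : ℕ}
    (hgood : ∀ v : HeightOneSpectrum (𝓞 K), ((n * N : ℕ) : 𝓞 K) ∉ v.asIdeal → GoodAt v z)
    {i j k w : Fin m} (hij : i ≠ j) (hik : i ≠ k) (hiw : i ≠ w) (hjk : j ≠ k) (hjw : j ≠ w) (hkw : k ≠ w) :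
    ∃ s, IsTriple s ∧ cr (b i) (b j) (b k) (b w) ∈ six s ∧
      ∀ p : ℕ, p.Prime → p ∣ s.1 * s.2 * (s.1 + s.2) → p ∣ 2 * (n * N) := by
  have hzi := Pool.Agent.Q290.AB.Moeb.inj hb hz
  have ht1' : 1 - cr (b i) (b j) (b k) (b w) = cr (b i) (b k) (b j) (b w) :=
    one_sub_cr (fun h => hiw (hb h)) (fun h => hjk (hb h).symm)
  obtain ⟨ht0, ht1⟩ := cr_ne hb hij hik hiw hjk hjw hkw
  refine Pool.Agent.Q231.SH.exists_triple_of_unit (cr (b i) (b j) (b k) (b w)) ht0 ht1 (n * N) ?_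
  intro p hp hp2 hpn
  obtain ⟨v, hv⟩ := exists_place K hp
  have hg := hgood v (fun h => hpn ((hv _).1 h))
  have hint : ∀ k : ℤ, v.valuation K (k : K) ≤ 1 := by
    intro k
    have := v.valuation_le_one (K := K) (k : 𝓞 K)
    simpa using this
  have hp1 : v.valuation K (p : K) < 1 := by
    have := (v.valuation_lt_one_iff_mem (K := K) (p : 𝓞 K)).2 ((hv p).2 dvd_rfl)
    simpa using this
  refine ⟨unitAt_of_val _ hint hp1 ?_, unitAt_of_val _ hint hp1 ?_⟩
  · rw [cr_moeb hzi hz _ _ _ _ hiw hjk.symm]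
    exact val_cr hg hij hkw hiw hjk.symm
  · rw [ht1', cr_moeb hzi hz _ _ _ _ hiw hjk]
    exact val_cr hg hik hjw hiw hjk

/-- A prime of bad reduction divides an abc triple whose primes are primes of bad reduction, or small. -/
theorem triple_of_bad {K : Type} [Field K] [NumberField K] {m : ℕ} (h3 : 3 ≤ m) {z : Fin m → K} {b : Fin m → ℚ}
    (hb : Function.Injective b) (hz : Moeb z b) {n N : ℕ}
    (hgood : ∀ v : HeightOneSpectrum (𝓞 K), ((n * N : ℕ) : 𝓞 K) ∉ v.asIdeal → GoodAt v z)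
    {l : ℕ} {v : HeightOneSpectrum (𝓞 K)} (hv : ∀ n : ℕ, ((n : ℕ) : 𝓞 K) ∈ v.asIdeal ↔ l ∣ n) (hl : l.Prime)
    (hbad : ¬ GoodAt v z) :
    ∃ s, IsTriple s ∧ l ∣ s.1 * s.2 * (s.1 + s.2) ∧ rad3 s ∣ 2 * (n * N) := by
  have hzi := Pool.Agent.Q290.AB.Moeb.inj hb hz
  by_contra hcon
  refine hbad (goodAt_of_cross v h3 hzi fun i j k w hij hik hiw hjk hjw hkw => ?_)
  by_contra hval
  rw [← cr_moeb hzi hz _ _ _ _ hiw hjk.symm] at hval
  obtain ⟨s, hs, h6, hp⟩ := triple_of_cross hb hz hgood hij hik hiw hjk hjw hkw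
  refine hcon ⟨s, hs, ?_, Pool.Agent.Q231.SH.rad3_dvd hp⟩
  by_contra hls
  apply hval
  have hv1 : ∀ x : ℕ, ¬ l ∣ x → v.valuation K (x : K) = 1 := by
    intro x hx
    have := val_int hv (x : ℤ) (fun h => hx (by exact_mod_cast h))
    simpa using this
  rw [Nat.Prime.dvd_mul hl, Nat.Prime.dvd_mul hl, not_or, not_or] at hls
  have a1 := hv1 _ hls.1.1
  have a2 := hv1 _ hls.1.2
  have a3 := hv1 _ hls.2
  unfold six at h6
  simp only [Finset.mem_insert, Finset.mem_singleton] at h6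
  rcases h6 with h | h | h | h | h | h
  · rw [h]; push_cast at a3 ⊢; rw [map_div₀, a1, a3, div_one]
  · rw [h]; push_cast at a3 ⊢; rw [map_div₀, a2, a3, div_one]
  · rw [h]; push_cast at a3 ⊢; rw [map_div₀, a1, a3, div_one]
  · rw [h]; push_cast at a3 ⊢; rw [map_div₀, a2, a3, div_one]
  · rw [h]; push_cast; rw [map_div₀, Valuation.map_neg, a1, a2, div_one]
  · rw [h]; push_cast; rw [map_div₀, Valuation.map_neg, a1, a2, div_one]

/-- a prime factor in a place -/
theorem exists_prime_mem {K : Type} [Field K] [NumberField K] {v : HeightOneSpectrum (𝓞 K)} {r : ℕ} (hr : 1 ≤ r)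
    (hv : ((r : ℕ) : 𝓞 K) ∈ v.asIdeal) : ∃ l : ℕ, l.Prime ∧ l ∣ r ∧ ((l : ℕ) : 𝓞 K) ∈ v.asIdeal := by
  by_contra hcon
  push Not at hcon
  have key : ∀ x : ℕ, x ∣ r → ((x : ℕ) : 𝓞 K) ∉ v.asIdeal := by
    intro x
    induction x using Nat.recOnMul with
    | zero =>
      intro h _
      rw [Nat.zero_dvd] at h
      omega
    | one =>
      intro _ h
      apply v.isPrime.ne_top
      rw [Ideal.eq_top_iff_one]
      simpa using h
    | prime q hq => exact fun h => hcon q hq h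
    | mul a b iha ihb =>
      intro h h'
      rw [Nat.cast_mul] at h'
      rcases v.isPrime.mem_or_mem h' with h1 | h1
      · exact iha ((Dvd.intro _ rfl).trans h) h1
      · exact ihb ((Dvd.intro_left _ rfl).trans h) h1
  exact key r dvd_rfl hv

/-- the places dividing a number divide its radical -/
theorem rd_mem {K : Type} [Field K] [NumberField K] {v : HeightOneSpectrum (𝓞 K)} {r : ℕ} (hr : 1 ≤ r)
    (hv : ((r : ℕ) : 𝓞 K) ∈ v.asIdeal) : ((rd r : ℕ) : 𝓞 K) ∈ v.asIdeal := by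
  obtain ⟨l, hl, hlr, hlv⟩ := exists_prime_mem hr hv
  obtain ⟨c, hc⟩ := dvd_rd (by omega) hl hlr
  rw [hc, Nat.cast_mul]
  exact Ideal.mul_mem_right _ _ hlv

/-- the radical of a product with one prime -/
theorem rd_mul_le {l M : ℕ} (hl : l.Prime) (hM : M ≠ 0) : rd (l * M) ≤ l * rd M := by
  refine Nat.le_of_dvd (Nat.mul_pos hl.pos (rd_pos M)) ?_
  unfold rd
  apply Finset.prod_primes_dvd
  · intro q hq
    exact (Nat.prime_of_mem_primeFactors hq).prime
  · intro q hq
    have hq' := Nat.prime_of_mem_primeFactors hq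
    rcases (Nat.Prime.dvd_mul hq').1 (Nat.dvd_of_mem_primeFactors hq) with h | h
    · exact Dvd.dvd.mul_right h _
    · exact Dvd.dvd.mul_left (dvd_rd hM hq' h) _

/-! ### Only the prime two -/

theorem only_two {s : ℕ × ℕ} (hs : IsTriple s) (h : ∀ q : ℕ, q.Prime → q ∣ s.1 * s.2 * (s.1 + s.2) → q = 2) : s = (1, 1) := by
  obtain ⟨h1, h2, h3⟩ := hs
  have e1 : ∃ a, s.1 = 2 ^ a := ⟨_, Nat.eq_prime_pow_of_unique_prime_dvd (by omega) fun {d} hd hdvd =>
    h d hd (hdvd.trans (Dvd.intro _ (mul_assoc _ _ _).symm))⟩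
  have e2 : ∃ a, s.2 = 2 ^ a := ⟨_, Nat.eq_prime_pow_of_unique_prime_dvd (by omega) fun {d} hd hdvd =>
    h d hd (Dvd.dvd.mul_right (Dvd.dvd.mul_left hdvd _) _)⟩
  have e3 : ∃ a, s.1 + s.2 = 2 ^ a := ⟨_, Nat.eq_prime_pow_of_unique_prime_dvd (by omega) fun {d} hd hdvd =>
    h d hd (Dvd.dvd.mul_left hdvd _)⟩
  obtain ⟨a, ha⟩ := e1
  obtain ⟨b, hb⟩ := e2
  obtain ⟨c, hc⟩ := e3
  have ha0 : a = 0 := by
    by_contra hne
    have hb0 : b ≠ 0 := by
      rintro rfl
      rw [pow_zero] at hb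
      have : 1 < 2 ^ a := Nat.one_lt_two_pow hne
      omega
    have h4 : 2 ∣ Nat.gcd s.1 s.2 := Nat.dvd_gcd (ha ▸ dvd_pow_self 2 hne) (hb ▸ dvd_pow_self 2 hb0)
    rw [h3] at h4
    omega
  rw [ha0, pow_zero] at ha
  have hb0 : b = 0 := by
    by_contra hne
    have hc0 : c ≠ 0 := by
      rintro rfl
      rw [pow_zero] at hc
      omega
    have h4 : 2 ∣ s.2 := hb ▸ dvd_pow_self 2 hne
    have h5 : 2 ∣ s.1 + s.2 := hc ▸ dvd_pow_self 2 hc0
    omega
  rw [hb0, pow_zero] at hb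
  exact Prod.ext ha hb

theorem six_one {t : ℚ} (h : t ∈ six (1, 1)) : t = 1 / 2 ∨ t = 2 ∨ t = -1 := by
  unfold six at h
  simp only [Finset.mem_insert, Finset.mem_singleton] at h
  rcases h with h | h | h | h | h | h <;> norm_num at h <;> simp [h]

/-- there are no five points for which all cross ratios come from the prime two -/
theorem no_five {m : ℕ} (hm : 5 ≤ m) {b : Fin m → ℚ} (hb : Function.Injective b)
    (h : ∀ i j k w : Fin m, i ≠ j → i ≠ k → i ≠ w → j ≠ k → j ≠ w → k ≠ w →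
      cr (b i) (b j) (b k) (b w) = 1 / 2 ∨ cr (b i) (b j) (b k) (b w) = 2 ∨ cr (b i) (b j) (b k) (b w) = -1) : False := by
  have hne : ∀ {x y : ℕ} (hx : x < m) (hy : y < m), x ≠ y → (⟨x, hx⟩ : Fin m) ≠ ⟨y, hy⟩ := by
    intro x y hx hy hxy h
    exact hxy (Fin.mk.inj h)
  have h0 : 0 < m := by omega
  have h1 : 1 < m := by omega
  have h2 : 2 < m := by omega
  have h3 : 3 < m := by omega
  have h4 : 4 < m := by omega
  have hneq : ∀ {i j : Fin m}, i ≠ j → b i - b j ≠ 0 := fun h h0 => h (hb (sub_eq_zero.1 h0))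
  have c1 := h ⟨3, h3⟩ ⟨0, h0⟩ ⟨1, h1⟩ ⟨2, h2⟩ (hne _ _ (by norm_num)) (hne _ _ (by norm_num)) (hne _ _ (by norm_num))
    (hne _ _ (by norm_num)) (hne _ _ (by norm_num)) (hne _ _ (by norm_num))
  have c2 := h ⟨4, h4⟩ ⟨0, h0⟩ ⟨1, h1⟩ ⟨2, h2⟩ (hne _ _ (by norm_num)) (hne _ _ (by norm_num)) (hne _ _ (by norm_num))
    (hne _ _ (by norm_num)) (hne _ _ (by norm_num)) (hne _ _ (by norm_num))
  have c3 := h ⟨3, h3⟩ ⟨0, h0⟩ ⟨4, h4⟩ ⟨2, h2⟩ (hne _ _ (by norm_num)) (hne _ _ (by norm_num)) (hne _ _ (by norm_num))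
    (hne _ _ (by norm_num)) (hne _ _ (by norm_num)) (hne _ _ (by norm_num))
  have e : cr (b ⟨3, h3⟩) (b ⟨0, h0⟩) (b ⟨1, h1⟩) (b ⟨2, h2⟩) =
      cr (b ⟨3, h3⟩) (b ⟨0, h0⟩) (b ⟨4, h4⟩) (b ⟨2, h2⟩) * cr (b ⟨4, h4⟩) (b ⟨0, h0⟩) (b ⟨1, h1⟩) (b ⟨2, h2⟩) := by
    have d1 := hneq (hne h3 h2 (by norm_num))
    have d2 := hneq (hne h4 h2 (by norm_num))
    have d3 := hneq (hne h1 h0 (by norm_num))
    have d4 := hneq (hne h4 h0 (by norm_num))
    unfold cr
    field_simp
  rcases c2 with c2 | c2 | c2 <;> rcases c3 with c3 | c3 | c3 <;> rw [c2, c3] at e <;> rw [e] at c1 <;> norm_num at c1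

end Pool.Agent.Q84.NX
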