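import Pool.Agent.Q84.NX.Near

/-!
# Primes with an exceptional number near one of their multiples, finite form
-/

set_option autoImplicit false

namespace Pool.Agent.Q84.NX

open Finset Filter

open Classical in
/-- the primes `p > X` with a multiple `n ≤ N` at distance at most `W` from an exceptional number `b ≤ N` -/
theorem near_core (R : ℕ → Prop) (K N W : ℕ) (X : ℝ) (hX : 1 ≤ X) (hN : (N : ℝ) < X ^ (K + 2)) (L : ℕ) :
    ((Icc 1 L).filter fun p : ℕ => p.Prime ∧ X < p ∧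
      ∃ n b : ℕ, 1 ≤ n ∧ n ≤ N ∧ p ∣ n ∧ b ≤ N ∧ R b ∧ n ≤ b + W ∧ b ≤ n + W).card ≤
      (K + 1) * (((range (N + 1)).filter R).card * (2 * W + 1)) := by
  obtain ⟨B, hB⟩ : ∃ B, B = (range (N + 1)).filter R := ⟨_, rfl⟩
  obtain ⟨M, hM⟩ : ∃ M, M = (B.biUnion fun b => (Icc (b - W) (b + W))).filter fun n => 1 ≤ n ∧ n ≤ N := ⟨_, rfl⟩
  have hMc : M.card ≤ B.card * (2 * W + 1) := by
    rw [hM]
    refine (card_filter_le _ _).trans ?_
    refine card_biUnion_le_card_mul _ _ _ fun b _ => ?_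
    rw [Nat.card_Icc]
    omega
  obtain ⟨P, hP⟩ : ∃ P, P = (Icc 1 L).filter fun p : ℕ => p.Prime ∧ X < p ∧
      ∃ n b : ℕ, 1 ≤ n ∧ n ≤ N ∧ p ∣ n ∧ b ≤ N ∧ R b ∧ n ≤ b + W ∧ b ≤ n + W := ⟨_, rfl⟩
  rw [← hP, ← hB]
  have hsub : P ⊆ M.biUnion fun n => P.filter fun p => p ∣ n := by
    intro p hp
    have hp0 := hp
    rw [hP, mem_filter] at hp
    obtain ⟨-, hpp, hXp, n, b, hn1, hnN, hpn, hbN, hb, h1, h2⟩ := hp
    rw [mem_biUnion]
    refine ⟨n, ?_, mem_filter.2 ⟨hp0, hpn⟩⟩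
    rw [hM, mem_filter, mem_biUnion]
    refine ⟨⟨b, ?_, ?_⟩, hn1, hnN⟩
    · rw [hB, mem_filter, mem_range]
      exact ⟨by omega, hb⟩
    · rw [mem_Icc]
      omega
  have h2 : P.card ≤ M.card * (K + 1) := by
    refine (card_le_card hsub).trans ?_
    refine card_biUnion_le_card_mul _ _ _ fun n hn => ?_
    rw [hM, mem_filter] at hn
    refine few_large_factors K X hX n hn.2.1 ?_ _ fun p hp => ?_
    · have : (n : ℝ) ≤ N := by exact_mod_cast hn.2.2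
      linarith
    · rw [mem_filter, hP, mem_filter] at hp
      exact ⟨hp.1.2.1, hp.1.2.2.1, hp.2⟩
  calc P.card ≤ M.card * (K + 1) := h2
    _ ≤ (B.card * (2 * W + 1)) * (K + 1) := Nat.mul_le_mul_right _ hMc
    _ = (K + 1) * (B.card * (2 * W + 1)) := by ring

end Pool.Agent.Q84.NX
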