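import Pool.Agent.Q84.NX.Cross
import Pool.Agent.Results.MP_7aad9f_nt.MultiplesThreeHalves

/-!
# The primes which divide a triple with a small radical
-/

set_option autoImplicit false

namespace Pool.Agent.Q84.NX

open Filter NumberField IsDedekindDomain
open Pool.Agent.Q231.SH (IsTriple rad3 trip trip_count trip_finite)
open Pool.Agent.Q290.AB (Moeb GoodAt)

/-- `l` divides a triple whose radical divides `2 r l`, where `r ≤ M` -/
def Hit (M : ℝ) (l : ℕ) : Prop :=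
  ∃ s, IsTriple s ∧ l ∣ s.1 * s.2 * (s.1 + s.2) ∧ ∃ r : ℕ, 1 ≤ r ∧ (r : ℝ) ≤ M ∧ rad3 s ∣ 2 * (r * l)

theorem Hit.mono {M M' : ℝ} (h : M ≤ M') {l : ℕ} (hl : Hit M l) : Hit M' l := by
  obtain ⟨s, h1, h2, r, h3, h4, h5⟩ := hl
  exact ⟨s, h1, h2, r, h3, h4.trans h, h5⟩

theorem le_count (L : ℝ) (hL : 0 ≤ L) (S : Set ℕ) (hS : ∀ l ∈ S, 1 ≤ l ∧ (l : ℝ) ≤ L) : S.Finite ∧ (S.ncard : ℝ) ≤ L := by
  have hsub : S ⊆ (Finset.Icc 1 ⌊L⌋₊ : Finset ℕ) := by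
    intro l hl
    rw [Finset.mem_coe, Finset.mem_Icc]
    exact ⟨(hS l hl).1, Nat.le_floor (hS l hl).2⟩
  refine ⟨(Finset.finite_toSet _).subset hsub, ?_⟩
  have h1 := Set.ncard_le_ncard hsub (Finset.finite_toSet _)
  rw [Set.ncard_coe_finset, Nat.card_Icc, Nat.add_sub_cancel] at h1
  have h2 : (S.ncard : ℝ) ≤ (⌊L⌋₊ : ℝ) := by exact_mod_cast h1
  exact h2.trans (Nat.floor_le hL)

theorem rad3_pos (s : ℕ × ℕ) : 0 < rad3 s := by
  unfold Pool.Agent.Q231.SH.rad3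
  exact Finset.prod_pos fun q hq => (Nat.prime_of_mem_primeFactors hq).pos

/-- uniform count -/
theorem hit_count : ∃ C : ℝ, 0 < C ∧ ∀ M L : ℝ, 1 ≤ M → 1 ≤ L →
    (({l : ℕ | l.Prime ∧ (l : ℝ) ≤ L ∧ Hit M l}.ncard : ℕ) : ℝ) ≤ C * (M * L) ^ ((2 : ℝ) / 3) := by
  obtain ⟨C, hC, hcount⟩ := trip_count
  refine ⟨C * 2 ^ ((2 : ℝ) / 3) + 2, by positivity, fun M L hM hL => ?_⟩
  set S : Set ℕ := {l : ℕ | l.Prime ∧ (l : ℝ) ≤ L ∧ Hit M l} with hS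
  set A : Set ℕ := {l ∈ S | 2 * M < l} with hA
  set B : Set ℕ := {l ∈ S | (l : ℝ) ≤ 2 * M} with hB
  have hSAB : S ⊆ A ∪ B := by
    intro l hl
    rcases lt_or_ge (2 * M) (l : ℝ) with h | h
    · exact Or.inl ⟨hl, h⟩
    · exact Or.inr ⟨hl, h⟩
  have hSf := (le_count L (by linarith) S (fun l hl => ⟨hl.1.one_lt.le, hl.2.1⟩)).1
  have hML : 1 ≤ M * L := by nlinarith
  have hAcard : (A.ncard : ℝ) ≤ C * 2 ^ ((2 : ℝ) / 3) * (M * L) ^ ((2 : ℝ) / 3) := by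
    choose! φ hφ1 hφ2 r hr1 hr2 hr3 using (fun (l : ℕ) (hl : l ∈ A) => hl.1.2.2)
    have hmaps : ∀ l ∈ A, φ l ∈ trip (2 * (M * L)) := by
      intro l hl
      refine ⟨hφ1 l hl, ?_⟩
      have h1 : (rad3 (φ l) : ℝ) ≤ 2 * (r l * l) := by
        exact_mod_cast Nat.le_of_dvd (Nat.mul_pos two_pos (Nat.mul_pos (hr1 l hl) hl.1.1.pos)) (hr3 l hl)
      have h2 : (r l : ℝ) * l ≤ M * L :=
        mul_le_mul (hr2 l hl) hl.1.2.1 (Nat.cast_nonneg _) (by linarith)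
      linarith
    have hinj : Set.InjOn φ A := by
      intro l hl l' hl' heq
      have h1 : l ∣ rad3 (φ l') := by
        rw [← heq]
        exact dvd_rad3 (hφ1 l hl) hl.1.1 (hφ2 l hl)
      have h2 := h1.trans (hr3 l' hl')
      rw [← mul_assoc, Nat.Prime.dvd_mul hl.1.1] at h2
      rcases h2 with h3 | h3
      · exfalso
        have h4 := Nat.le_of_dvd (Nat.mul_pos two_pos (hr1 l' hl')) h3
        have h5 : (l : ℝ) ≤ 2 * r l' := by exact_mod_cast h4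
        have h6 := hr2 l' hl'
        have h7 := hl.2
        linarith
      · exact (Nat.prime_dvd_prime_iff_eq hl.1.1 hl'.1.1).1 h3
    have h1 := Set.ncard_le_ncard_of_injOn φ hmaps hinj (trip_finite _)
    have h2 : (A.ncard : ℝ) ≤ ((trip (2 * (M * L))).ncard : ℝ) := by exact_mod_cast h1
    refine h2.trans ((hcount _ (by linarith)).trans ?_)
    rw [Real.mul_rpow (by norm_num) (by linarith), mul_assoc]
  have hBcard : (B.ncard : ℝ) ≤ 2 * (M * L) ^ ((2 : ℝ) / 3) := by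
    rw [Real.mul_rpow (by linarith) (by linarith)]
    have hM23 : M ^ ((1 : ℝ) / 3) * M ^ ((2 : ℝ) / 3) = M := by
      rw [← Real.rpow_add (by linarith)]; norm_num
    have hL23 : L ^ ((1 : ℝ) / 3) * L ^ ((2 : ℝ) / 3) = L := by
      rw [← Real.rpow_add (by linarith)]; norm_num
    have hL0 : 0 < L ^ ((2 : ℝ) / 3) := by positivity
    have hM0 : 0 < M ^ ((2 : ℝ) / 3) := by positivity
    rcases le_or_gt M (L ^ (2 : ℝ)) with h | h
    · have h1 := (le_count (2 * M) (by linarith) B (fun l hl => ⟨hl.1.1.one_lt.le, hl.2⟩)).2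
      have h2 : M ^ ((1 : ℝ) / 3) ≤ L ^ ((2 : ℝ) / 3) := by
        calc M ^ ((1 : ℝ) / 3) ≤ (L ^ (2 : ℝ)) ^ ((1 : ℝ) / 3) := Real.rpow_le_rpow (by linarith) h (by norm_num)
          _ = L ^ ((2 : ℝ) / 3) := by rw [← Real.rpow_mul (by linarith)]; norm_num
      have h3 : M ≤ M ^ ((2 : ℝ) / 3) * L ^ ((2 : ℝ) / 3) := by
        calc M = M ^ ((1 : ℝ) / 3) * M ^ ((2 : ℝ) / 3) := hM23.symm
          _ ≤ L ^ ((2 : ℝ) / 3) * M ^ ((2 : ℝ) / 3) := mul_le_mul_of_nonneg_right h2 hM0.le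
          _ = M ^ ((2 : ℝ) / 3) * L ^ ((2 : ℝ) / 3) := mul_comm _ _
      linarith
    · have h1 := (le_count L (by linarith) B (fun l hl => ⟨hl.1.1.one_lt.le, hl.1.2.1⟩)).2
      have h2 : L ^ ((1 : ℝ) / 3) ≤ M ^ ((2 : ℝ) / 3) := by
        have h4 : L ≤ M := by
          have : L ≤ L ^ (2 : ℝ) := by
            rw [Real.rpow_two]; nlinarith
          linarith
        calc L ^ ((1 : ℝ) / 3) ≤ M ^ ((1 : ℝ) / 3) := Real.rpow_le_rpow (by linarith) h4 (by norm_num)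
          _ ≤ M ^ ((2 : ℝ) / 3) := Real.rpow_le_rpow_of_exponent_le hM (by norm_num)
      have h3 : L ≤ M ^ ((2 : ℝ) / 3) * L ^ ((2 : ℝ) / 3) := by
        calc L = L ^ ((1 : ℝ) / 3) * L ^ ((2 : ℝ) / 3) := hL23.symm
          _ ≤ M ^ ((2 : ℝ) / 3) * L ^ ((2 : ℝ) / 3) := mul_le_mul_of_nonneg_right h2 hL0.le
      have h5 : 0 ≤ M ^ ((2 : ℝ) / 3) * L ^ ((2 : ℝ) / 3) := by positivity
      linarith
  have h1 := Set.ncard_le_ncard hSAB (Set.Finite.union (hSf.subset fun l hl => hl.1) (hSf.subset fun l hl => hl.1))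
  have h2 := h1.trans (Set.ncard_union_le A B)
  have h3 : (S.ncard : ℝ) ≤ A.ncard + B.ncard := by exact_mod_cast h2
  calc (S.ncard : ℝ) ≤ A.ncard + B.ncard := h3
    _ ≤ C * 2 ^ ((2 : ℝ) / 3) * (M * L) ^ ((2 : ℝ) / 3) + 2 * (M * L) ^ ((2 : ℝ) / 3) := add_le_add hAcard hBcard
    _ = (C * 2 ^ ((2 : ℝ) / 3) + 2) * (M * L) ^ ((2 : ℝ) / 3) := by ring

/-- all `r ≤ l ^ (1 - ε)` at once -/
theorem hit_count_all (ε : ℝ) (hε : 0 < ε) (hε1 : ε ≤ 1) : ∃ C : ℝ, 0 < C ∧ ∀ L : ℝ, 1 ≤ L →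
    (({l : ℕ | l.Prime ∧ (l : ℝ) ≤ L ∧ Hit ((l : ℝ) ^ (1 - ε)) l}.ncard : ℕ) : ℝ) ≤ C * L ^ (1 - ε / 10) := by
  obtain ⟨C, hC⟩ := Pool.Agent.Results.MP_7aad9f_nt.MultiplesThreeHalves.result.1 (ε / 2) (by positivity) (by linarith)
  have h1 : ∀ᶠ x : ℝ in atTop, 2 < x ^ (ε / 2) := (tendsto_rpow_atTop (by positivity)).eventually_gt_atTop _
  obtain ⟨x₀, hx₀⟩ := h1.exists_forall_of_atTop
  set x₁ : ℝ := max x₀ 1 with hx₁
  have hx11 : 1 ≤ x₁ := le_max_right _ _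
  refine ⟨|C| + x₁, by positivity, fun L hL => ?_⟩
  set S : Set ℕ := {l : ℕ | l.Prime ∧ (l : ℝ) ≤ L ∧ Hit ((l : ℝ) ^ (1 - ε)) l} with hS
  set A : Set ℕ := {n : ℕ | 1 ≤ n ∧ n ≤ ⌊L⌋₊ ∧ ¬ Pool.Agent.Results.MP_7aad9f_nt.MultiplesThreeHalves.Regular (ε / 2) n} with hA
  set B : Set ℕ := {l : ℕ | 1 ≤ l ∧ (l : ℝ) ≤ x₁} with hB
  have hBf := le_count x₁ (by linarith) B (fun l hl => hl)
  have hAf : A.Finite := (Set.finite_Icc 1 ⌊L⌋₊).subset fun n hn => ⟨hn.1, hn.2.1⟩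
  have hsub : S ⊆ A ∪ B := by
    rintro l ⟨hl, hlL, s, hs, hls, r, hr1, hr2, hrad⟩
    rcases le_or_gt (l : ℝ) x₁ with h | h
    · exact Or.inr ⟨hl.one_lt.le, h⟩
    · left
      refine ⟨hl.one_lt.le, Nat.le_floor hlL, fun hreg => ?_⟩
      have hl0 : (0 : ℝ) < l := by linarith
      have h2 := hreg.1 s.1 s.2 (s.1 + s.2) ⟨hs.1, hs.1.trans_le hs.2.1, rfl, hs.2.2⟩ hls
      have h3 : (l : ℝ) * l ≤ Pool.Agent.Results.MP_7aad9f_nt.MultiplesThreeHalves.M l := by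
        unfold Pool.Agent.Results.MP_7aad9f_nt.MultiplesThreeHalves.M
          Pool.Agent.Results.MP_7aad9f_nt.MultiplesThreeHalves.largestPrime
        rw [Nat.Prime.primeFactors hl, Finset.sup_singleton]
        exact le_max_right _ _
      have h4 : (rad3 s : ℝ) ≤ 2 * (r * l) := by
        exact_mod_cast Nat.le_of_dvd (Nat.mul_pos two_pos (Nat.mul_pos hr1 hl.pos)) hrad
      have h5 : Pool.Agent.Results.MP_7aad9f_nt.MultiplesThreeHalves.radical (s.1 * s.2 * (s.1 + s.2)) = rad3 s := rfl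
      rw [h5] at h2
      have h6 := hx₀ l ((le_max_left _ _).trans h.le)
      have h9 : (l : ℝ) * l * (l : ℝ) ^ (-(ε / 2)) ≤
          Pool.Agent.Results.MP_7aad9f_nt.MultiplesThreeHalves.M l * (l : ℝ) ^ (-(ε / 2)) :=
        mul_le_mul_of_nonneg_right h3 (by positivity)
      have h10 : 2 * ((r : ℝ) * (l : ℝ)) ≤ (l : ℝ) * l * (l : ℝ) ^ (-(ε / 2)) := by
        have h11 : (l : ℝ) * (l : ℝ) ^ (-(ε / 2)) = (l : ℝ) ^ (ε / 2) * (l : ℝ) ^ (1 - ε) := by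
          rw [← Real.rpow_add hl0]
          nth_rewrite 1 [← Real.rpow_one (l : ℝ)]
          rw [← Real.rpow_add hl0]
          congr 1; ring
        have h12 : 2 * (r : ℝ) ≤ (l : ℝ) ^ (ε / 2) * (l : ℝ) ^ (1 - ε) :=
          mul_le_mul h6.le hr2 (by positivity) (by positivity)
        calc 2 * ((r : ℝ) * (l : ℝ)) = l * (2 * r) := by ring
          _ ≤ l * ((l : ℝ) ^ (ε / 2) * (l : ℝ) ^ (1 - ε)) := mul_le_mul_of_nonneg_left h12 hl0.le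
          _ = (l : ℝ) * l * (l : ℝ) ^ (-(ε / 2)) := by rw [← h11]; ring
      linarith
  have h1 := Set.ncard_le_ncard hsub (hAf.union hBf.1)
  have h2 := h1.trans (Set.ncard_union_le A B)
  have h3 : (S.ncard : ℝ) ≤ A.ncard + B.ncard := by exact_mod_cast h2
  have hfl : 1 ≤ ⌊L⌋₊ := Nat.le_floor (by simpa using hL)
  have h4 := hC ⌊L⌋₊ hfl
  have hexp : ε / 2 / 5 = ε / 10 := by ring
  rw [hexp] at h4
  have h5 : (A.ncard : ℝ) ≤ |C| * L ^ (1 - ε / 10) := by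
    refine h4.trans ?_
    calc C * ((⌊L⌋₊ : ℕ) : ℝ) ^ (1 - ε / 10) ≤ |C| * ((⌊L⌋₊ : ℕ) : ℝ) ^ (1 - ε / 10) :=
          mul_le_mul_of_nonneg_right (le_abs_self C) (by positivity)
      _ ≤ |C| * L ^ (1 - ε / 10) := by
          apply mul_le_mul_of_nonneg_left _ (abs_nonneg C)
          exact Real.rpow_le_rpow (Nat.cast_nonneg _) (Nat.floor_le (by linarith)) (by linarith)
  have h6 : 1 ≤ L ^ (1 - ε / 10) := Real.one_le_rpow hL (by linarith)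
  have h7 : x₁ ≤ x₁ * L ^ (1 - ε / 10) := le_mul_of_one_le_right (by linarith) h6
  calc (S.ncard : ℝ) ≤ A.ncard + B.ncard := h3
    _ ≤ |C| * L ^ (1 - ε / 10) + x₁ * L ^ (1 - ε / 10) := add_le_add h5 (hBf.2.trans h7)
    _ = (|C| + x₁) * L ^ (1 - ε / 10) := by ring

/-- a place above `l` -/
theorem mem_iff_of_mem {K : Type} [Field K] [NumberField K] {l : ℕ} (hl : l.Prime) {v : HeightOneSpectrum (𝓞 K)}
    (hv : ((l : ℕ) : 𝓞 K) ∈ v.asIdeal) (x : ℕ) : ((x : ℕ) : 𝓞 K) ∈ v.asIdeal ↔ l ∣ x := by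
  constructor
  · intro hx
    by_contra hlx
    have hco : IsCoprime (l : ℤ) (x : ℤ) := by
      rw [Nat.isCoprime_iff_coprime]
      exact (Nat.Prime.coprime_iff_not_dvd hl).2 hlx
    obtain ⟨u, w, huw⟩ := hco
    apply v.isPrime.ne_top
    rw [Ideal.eq_top_iff_one]
    have e : (1 : 𝓞 K) = (u : 𝓞 K) * ((l : ℕ) : 𝓞 K) + (w : 𝓞 K) * ((x : ℕ) : 𝓞 K) := by
      have := congrArg (fun n : ℤ => (n : 𝓞 K)) huw
      push_cast at this
      exact this.symm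
    rw [e]
    exact Ideal.add_mem _ (Ideal.mul_mem_left _ _ hv) (Ideal.mul_mem_left _ _ hx)
  · rintro ⟨c, rfl⟩
    rw [Nat.cast_mul]
    exact Ideal.mul_mem_right _ _ hv

/-- a configuration with a bad place above `l` -/
theorem hit_of_bad {K : Type} [Field K] [NumberField K] {m n N l : ℕ} (h3 : 3 ≤ m) {z : Fin m → K}
    (hz : ∃ b : Fin m → ℚ, Function.Injective b ∧ Moeb z b) (hn : 0 < n) (hN : 1 ≤ N)
    (hgood : ∀ v : HeightOneSpectrum (𝓞 K), ((n * (l * N) : ℕ) : 𝓞 K) ∉ v.asIdeal → GoodAt v z)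
    (hl : l.Prime) {v : HeightOneSpectrum (𝓞 K)} (hv : ((l : ℕ) : 𝓞 K) ∈ v.asIdeal) (hbad : ¬ GoodAt v z) {M : ℝ}
    (hM : ((rd (n * N) : ℕ) : ℝ) ≤ M) : Hit M l := by
  obtain ⟨b, hb, hzb⟩ := hz
  obtain ⟨s, hs, hls, hrad⟩ := triple_of_bad h3 hb hzb hgood (mem_iff_of_mem hl hv) hl hbad
  refine ⟨s, hs, hls, rd (n * N), rd_pos _, hM, ?_⟩
  have e : 2 * (n * (l * N)) = 2 * (n * N * l) := by ring
  rw [e] at hrad
  exact rad3_rd hs (Nat.mul_pos hn hN).ne' hrad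

end Pool.Agent.Q84.NX
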