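import Pool.Agent.Q84.NX.CrossCnt

/-!
# The integers without small prime factors which divide a triple with a small radical
-/

set_option autoImplicit false

namespace Pool.Agent.Q84.NX

open Filter NumberField IsDedekindDomain
open Pool.Agent.Q231.SH (IsTriple rad3 trip trip_count trip_finite card_dvd_two_mul)
open Pool.Agent.Q290.AB (Moeb GoodAt)

/-- few integers are divisible, up to a factor two, by the radical of a triple with a large radical (with a rate) -/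
theorem few_pow {C : ℝ} (hC : 0 < C) (hfin : ∀ X : ℝ, (trip X).Finite)
    (hcount : ∀ X : ℝ, 1 ≤ X → ((trip X).ncard : ℝ) ≤ C * X ^ ((2 : ℝ) / 3)) (k0 : ℕ)
    (T : ℕ) (B : Finset ℕ) (hB : ∀ N ∈ B, N ∈ Finset.Icc 1 T ∧ ∃ t, IsTriple t ∧
      (8 : ℝ) ^ k0 < (rad3 t : ℝ) ∧ rad3 t ∣ 2 * N) : (B.card : ℝ) ≤ (16 * C / 2 ^ k0) * T := by
  classical
  have h8 : ∀ k : ℕ, (((8 : ℝ) ^ k) ^ ((2 : ℝ) / 3)) = 4 ^ k := by
    intro k
    have : (8 : ℝ) ^ ((2 : ℝ) / 3) = 4 := by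
      rw [show (8 : ℝ) = 2 ^ (3 : ℝ) by norm_num, ← Real.rpow_mul (by norm_num)]
      norm_num
    rw [← Real.rpow_natCast, ← Real.rpow_mul (by norm_num), mul_comm, Real.rpow_mul (by norm_num),
      this, Real.rpow_natCast]
  set S : ℕ → Finset (ℕ × ℕ) := fun k =>
    (hfin (8 ^ (k + 1))).toFinset.filter (fun t => (8 : ℝ) ^ k < rad3 t) with hS
  have hScard : ∀ k, ((S k).card : ℝ) ≤ C * 4 ^ (k + 1) := by
    intro k
    have h1 : (S k).card ≤ (trip (8 ^ (k + 1))).ncard := by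
      rw [Set.ncard_eq_toFinset_card _ (hfin _)]
      exact Finset.card_le_card (Finset.filter_subset _ _)
    have h2 := hcount (8 ^ (k + 1)) (one_le_pow₀ (by norm_num))
    rw [h8] at h2
    have h3 : ((S k).card : ℝ) ≤ (trip (8 ^ (k + 1))).ncard := by exact_mod_cast h1
    linarith
  have hsub : B ⊆ (Finset.Ico k0 (k0 + 2 * T)).biUnion (fun k =>
        (S k).biUnion (fun t => (Finset.Icc 1 T).filter (fun N => rad3 t ∣ 2 * N))) := by
    intro N hN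
    obtain ⟨hN, t, ht, hY, hdvd⟩ := hB N hN
    have hN' := Finset.mem_Icc.1 hN
    have hex : ∃ k : ℕ, (rad3 t : ℝ) ≤ 8 ^ (k + 1) := by
      obtain ⟨k, hk⟩ := pow_unbounded_of_one_lt (rad3 t : ℝ) (by norm_num : (1 : ℝ) < 8)
      exact ⟨k, hk.le.trans (pow_le_pow_right₀ (by norm_num) (Nat.le_succ k))⟩
    set k := Nat.find hex with hk
    have hk1 : (rad3 t : ℝ) ≤ 8 ^ (k + 1) := Nat.find_spec hex
    have hkk0 : k0 ≤ k := by
      by_contra hlt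
      have h1 : (8 : ℝ) ^ (k + 1) ≤ 8 ^ k0 := pow_le_pow_right₀ (by norm_num) (by omega)
      linarith
    have hk2 : (8 : ℝ) ^ k < rad3 t := by
      rcases Nat.eq_zero_or_pos k with h0 | h0
      · have h1 : k0 = 0 := by omega
        rw [h0]; rw [h1] at hY; exact hY
      · have h1 := Nat.find_min hex (m := k - 1) (by omega)
        rw [not_le] at h1
        rwa [Nat.sub_add_cancel h0] at h1
    have hkT : k < k0 + 2 * T := by
      have h1 : rad3 t ≤ 2 * N := Nat.le_of_dvd (by omega) hdvd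
      have h2 : (8 : ℝ) ^ k < (2 * T : ℕ) := by
        have : (rad3 t : ℝ) ≤ ((2 * T : ℕ) : ℝ) := by exact_mod_cast h1.trans (by omega)
        linarith
      have h3 : 8 ^ k < 2 * T := by exact_mod_cast h2
      have h4 : k < 8 ^ k := Nat.lt_pow_self (by norm_num)
      omega
    rw [Finset.mem_biUnion]
    refine ⟨k, Finset.mem_Ico.2 ⟨hkk0, hkT⟩, ?_⟩
    rw [Finset.mem_biUnion]
    refine ⟨t, ?_, Finset.mem_filter.2 ⟨hN, hdvd⟩⟩
    rw [hS, Finset.mem_filter]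
    exact ⟨(Set.Finite.mem_toFinset _).2 ⟨ht, hk1⟩, hk2⟩
  have h1 : (B.card : ℝ) ≤ ∑ k ∈ Finset.Ico k0 (k0 + 2 * T), ∑ t ∈ S k,
        (((Finset.Icc 1 T).filter (fun N => rad3 t ∣ 2 * N)).card : ℝ) := by
    have h2 := (Finset.card_le_card hsub).trans (Finset.card_biUnion_le.trans
      (Finset.sum_le_sum fun k _ => Finset.card_biUnion_le))
    exact_mod_cast h2
  have h2 : ∀ k, ∑ t ∈ S k, (((Finset.Icc 1 T).filter (fun N => rad3 t ∣ 2 * N)).card : ℝ) ≤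
      8 * C * T * (1 / 2) ^ k := by
    intro k
    have h3 : ∀ t ∈ S k, (((Finset.Icc 1 T).filter (fun N => rad3 t ∣ 2 * N)).card : ℝ) ≤
        2 * T / 8 ^ k := by
      intro t ht
      rw [hS, Finset.mem_filter] at ht
      have h4 : (((Finset.Icc 1 T).filter (fun N => rad3 t ∣ 2 * N)).card : ℝ) ≤
          ((2 * T / rad3 t : ℕ) : ℝ) := by exact_mod_cast card_dvd_two_mul T (rad3 t)
      refine h4.trans (Nat.cast_div_le.trans ?_)
      push_cast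
      exact div_le_div_of_nonneg_left (by positivity) (by positivity) ht.2.le
    refine (Finset.sum_le_sum h3).trans ?_
    rw [Finset.sum_const, nsmul_eq_mul]
    have h5 := mul_le_mul_of_nonneg_right (hScard k) (by positivity : (0 : ℝ) ≤ 2 * T / 8 ^ k)
    refine h5.trans (le_of_eq ?_)
    rw [show (8 : ℝ) ^ k = 4 ^ k * 2 ^ k by rw [← mul_pow]; norm_num, pow_succ, one_div, inv_pow]
    field_simp
    ring
  have h3 : ∑ k ∈ Finset.Ico k0 (k0 + 2 * T), 8 * C * T * (1 / 2 : ℝ) ^ k ≤ (16 * C / 2 ^ k0) * T := by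
    rw [← Finset.mul_sum]
    have h4 : ∑ k ∈ Finset.Ico k0 (k0 + 2 * T), (1 / 2 : ℝ) ^ k ≤ 2 * (1 / 2) ^ k0 := by
      rw [Finset.sum_Ico_eq_sum_range]
      simp only [pow_add]
      rw [← Finset.mul_sum]
      have h5 : ∑ i ∈ Finset.range (k0 + 2 * T - k0), (1 / 2 : ℝ) ^ i ≤ 2 := by
        have h6 : ∀ n : ℕ, ∑ i ∈ Finset.range n, (1 / 2 : ℝ) ^ i = 2 - 2 * (1 / 2) ^ n := by
          intro n
          induction n with
          | zero => simp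
          | succ n ih => rw [Finset.sum_range_succ, ih, pow_succ]; ring
        rw [h6]
        have : (0 : ℝ) ≤ (1 / 2) ^ (k0 + 2 * T - k0) := by positivity
        linarith
      have h7 : (0 : ℝ) ≤ (1 / 2 : ℝ) ^ k0 := by positivity
      nlinarith
    have h5 : (0 : ℝ) ≤ 8 * C * T := by positivity
    refine (mul_le_mul_of_nonneg_left h4 h5).trans (le_of_eq ?_)
    rw [one_div, inv_pow]; field_simp; ring
  exact h1.trans ((Finset.sum_le_sum fun k _ => h2 k).trans h3)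

/-- the same with a real parameter -/
theorem few_quant : ∃ C : ℝ, 0 < C ∧ ∀ (z : ℝ), 1 ≤ z → ∀ (T : ℕ) (B : Finset ℕ), (∀ N ∈ B, N ∈ Finset.Icc 1 T ∧
    ∃ t, IsTriple t ∧ z < (rad3 t : ℝ) ∧ rad3 t ∣ 2 * N) → (B.card : ℝ) ≤ C * T * z ^ (-(1 / 3) : ℝ) := by
  obtain ⟨C, hC, hcount⟩ := trip_count
  refine ⟨32 * C, by positivity, fun z hz T B hB => ?_⟩
  obtain ⟨k, hk1, hk2⟩ : ∃ k : ℕ, (8 : ℝ) ^ k ≤ z ∧ z < 8 ^ (k + 1) := by
    obtain ⟨n, hn⟩ := exists_nat_pow_near hz (show (1 : ℝ) < 8 by norm_num)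
    exact ⟨n, hn⟩
  have h1 := few_pow hC trip_finite hcount k T B (fun N hN => by
    obtain ⟨h1, t, h2, h3, h4⟩ := hB N hN
    exact ⟨h1, t, h2, hk1.trans_lt h3, h4⟩)
  have h2 : 16 * C / 2 ^ k ≤ 32 * C * z ^ (-(1 / 3) : ℝ) := by
    have h3 : z ^ (1 / 3 : ℝ) ≤ 2 ^ (k + 1) := by
      calc z ^ (1 / 3 : ℝ) ≤ ((8 : ℝ) ^ (k + 1)) ^ (1 / 3 : ℝ) := Real.rpow_le_rpow (by linarith) hk2.le (by norm_num)
        _ = 2 ^ (k + 1) := by
            rw [← Real.rpow_natCast (8 : ℝ), ← Real.rpow_mul (by norm_num), mul_comm, Real.rpow_mul (by norm_num),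
              show (8 : ℝ) ^ (1 / 3 : ℝ) = 2 by
                rw [show (8 : ℝ) = 2 ^ (3 : ℝ) by norm_num, ← Real.rpow_mul (by norm_num)]; norm_num, Real.rpow_natCast]
    rw [Real.rpow_neg (by linarith), ← div_eq_mul_inv, div_le_div_iff₀ (by positivity) (by positivity)]
    rw [pow_succ] at h3
    nlinarith
  calc (B.card : ℝ) ≤ 16 * C / 2 ^ k * T := h1
    _ ≤ 32 * C * z ^ (-(1 / 3) : ℝ) * T := mul_le_mul_of_nonneg_right h2 (Nat.cast_nonneg _)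
    _ = 32 * C * T * z ^ (-(1 / 3) : ℝ) := by ring

/-- a prime factor of `r` divides a triple whose radical divides `2 u r`, where `u ≤ M` -/
def HitR (M : ℝ) (r : ℕ) : Prop :=
  ∃ l : ℕ, l.Prime ∧ l ∣ r ∧ ∃ s, IsTriple s ∧ l ∣ s.1 * s.2 * (s.1 + s.2) ∧ ∃ u : ℕ, 1 ≤ u ∧ (u : ℝ) ≤ M ∧
    rad3 s ∣ 2 * (u * r)

/-- most integers without prime factors `≤ z` are not hit -/
theorem hitR_count : ∃ C : ℝ, 0 < C ∧ ∀ M z R : ℝ, 1 ≤ M → 1 ≤ z → 1 ≤ R →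
    (({r : ℕ | 1 ≤ r ∧ (r : ℝ) ≤ R ∧ (∀ q : ℕ, q.Prime → q ∣ r → z < q) ∧ HitR M r}.ncard : ℕ) : ℝ) ≤
      C * M ^ 2 * R * z ^ (-(1 / 3) : ℝ) := by
  classical
  obtain ⟨C, hC, hfew⟩ := few_quant
  refine ⟨C, hC, fun M z R hM hz hR => ?_⟩
  set S : Set ℕ := {r : ℕ | 1 ≤ r ∧ (r : ℝ) ≤ R ∧ (∀ q : ℕ, q.Prime → q ∣ r → z < q) ∧ HitR M r} with hS
  have hSf : S.Finite := (Set.finite_Icc 1 ⌊R⌋₊).subset fun r hr => ⟨hr.1, Nat.le_floor hr.2.1⟩
  obtain ⟨V, hV⟩ : ∃ V : ℕ → Finset ℕ, V = fun u => hSf.toFinset.filter (fun r => ∃ s, IsTriple s ∧ z < (rad3 s : ℝ) ∧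
    rad3 s ∣ 2 * (u * r)) := ⟨_, rfl⟩
  have hsub : hSf.toFinset ⊆ (Finset.Icc 1 ⌊M⌋₊).biUnion V := by
    intro r hr
    have hr' := hr
    rw [Set.Finite.mem_toFinset] at hr
    obtain ⟨hr1, hrR, hrough, l, hl, hlr, s, hs, hls, u, hu1, huM, hrad⟩ := hr
    rw [Finset.mem_biUnion]
    refine ⟨u, Finset.mem_Icc.2 ⟨hu1, Nat.le_floor huM⟩, ?_⟩
    rw [hV, Finset.mem_filter]
    refine ⟨hr', s, hs, ?_, hrad⟩
    have h1 : l ∣ rad3 s := dvd_rad3 hs hl hls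
    have h2 : (l : ℝ) ≤ rad3 s := by exact_mod_cast Nat.le_of_dvd (rad3_pos s) h1
    exact (hrough l hl hlr).trans_le h2
  have hVc : ∀ u ∈ Finset.Icc 1 ⌊M⌋₊, ((V u).card : ℝ) ≤ C * M * R * z ^ (-(1 / 3) : ℝ) := by
    intro u hu
    rw [Finset.mem_Icc] at hu
    have huM : (u : ℝ) ≤ M := (Nat.cast_le.2 hu.2).trans (Nat.floor_le (by linarith))
    have hinj : Function.Injective (fun r : ℕ => u * r) := fun a b h => Nat.eq_of_mul_eq_mul_left (by omega) h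
    have h1 := hfew z hz (u * ⌊R⌋₊) ((V u).image (fun r => u * r)) (by
      intro N hN
      rw [Finset.mem_image] at hN
      obtain ⟨r, hr, rfl⟩ := hN
      rw [hV, Finset.mem_filter, Set.Finite.mem_toFinset] at hr
      exact ⟨Finset.mem_Icc.2 ⟨Nat.mul_pos (by omega) hr.1.1, Nat.mul_le_mul_left _ (Nat.le_floor hr.1.2.1)⟩, hr.2⟩)
    rw [Finset.card_image_of_injective _ hinj] at h1
    refine h1.trans ?_
    have h2 : ((u * ⌊R⌋₊ : ℕ) : ℝ) ≤ M * R := by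
      push_cast
      exact mul_le_mul huM (Nat.floor_le (by linarith)) (Nat.cast_nonneg _) (by linarith)
    calc C * ((u * ⌊R⌋₊ : ℕ) : ℝ) * z ^ (-(1 / 3) : ℝ) ≤ C * (M * R) * z ^ (-(1 / 3) : ℝ) := by gcongr
      _ = C * M * R * z ^ (-(1 / 3) : ℝ) := by ring
  have h1 : (hSf.toFinset.card : ℝ) ≤ ∑ u ∈ Finset.Icc 1 ⌊M⌋₊, ((V u).card : ℝ) := by
    exact_mod_cast (Finset.card_le_card hsub).trans Finset.card_biUnion_le
  have h2 := h1.trans (Finset.sum_le_sum hVc)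
  rw [Finset.sum_const, Nat.card_Icc, Nat.add_sub_cancel, nsmul_eq_mul] at h2
  rw [Set.ncard_eq_toFinset_card _ hSf]
  refine h2.trans ?_
  have h3 : (⌊M⌋₊ : ℝ) ≤ M := Nat.floor_le (by linarith)
  calc (⌊M⌋₊ : ℝ) * (C * M * R * z ^ (-(1 / 3) : ℝ)) ≤ M * (C * M * R * z ^ (-(1 / 3) : ℝ)) := by gcongr
    _ = C * M ^ 2 * R * z ^ (-(1 / 3) : ℝ) := by ring

/-- a configuration with a bad place dividing `r` -/
theorem hitR_of_bad {K : Type} [Field K] [NumberField K] {m n N r : ℕ} (h3 : 3 ≤ m) {z : Fin m → K}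
    (hz : ∃ b : Fin m → ℚ, Function.Injective b ∧ Moeb z b) (hn : 0 < n) (hN : 1 ≤ N)
    (hgood : ∀ v : HeightOneSpectrum (𝓞 K), ((n * (r * N) : ℕ) : 𝓞 K) ∉ v.asIdeal → GoodAt v z)
    (hr : 1 ≤ r) {v : HeightOneSpectrum (𝓞 K)} (hv : ((r : ℕ) : 𝓞 K) ∈ v.asIdeal) (hbad : ¬ GoodAt v z) {M : ℝ}
    (hM : ((rd (n * N) : ℕ) : ℝ) ≤ M) : HitR M r := by
  obtain ⟨l, hl, hlr, hlv⟩ := exists_prime_mem hr hv
  obtain ⟨b, hb, hzb⟩ := hz
  obtain ⟨s, hs, hls, hrad⟩ := triple_of_bad h3 hb hzb hgood (mem_iff_of_mem hl hlv) hl hbad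
  refine ⟨l, hl, hlr, s, hs, hls, rd (n * N), rd_pos _, hM, ?_⟩
  have e : 2 * (n * (r * N)) = 2 * (n * N * r) := by ring
  rw [e] at hrad
  exact rad3_rd hs (Nat.mul_pos hn hN).ne' hrad

end Pool.Agent.Q84.NX
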