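import Pool.Agent.Q84.NX.Cross
import Pool.Agent.Results.MP_4ab349_nt.StringsOfPrimes

/-!
# Places of bad reduction near the multiples of a prime
-/

set_option autoImplicit false

namespace Pool.Agent.Q84.NX

open Filter NumberField IsDedekindDomain
open Pool.Agent.Q290.AB (Moeb GoodAt)
open Pool.Agent.Q231.SH (IsTriple rad3)

/-- the numbers near the multiples of a large prime are not small -/
theorem near_ge {p k l : ℕ} {x : ℝ} (hk : 1 ≤ k) (hx : x ≤ 1 / 2) (hp : (4 : ℝ) ≤ p) (h : |(l : ℝ) - k * p| ≤ (p : ℝ) ^ x) :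
    (p : ℝ) / 2 ≤ l := by
  have hp0 : (0 : ℝ) < p := by linarith
  have hpc : (p : ℝ) ^ x ≤ p / 2 := by
    have h1 : (p : ℝ) ^ x ≤ (p : ℝ) ^ (1 / 2 : ℝ) := Real.rpow_le_rpow_of_exponent_le (by linarith) hx
    rw [← Real.sqrt_eq_rpow] at h1
    refine h1.trans ?_
    rw [Real.sqrt_le_left (by positivity)]
    nlinarith
  have h2 := (abs_le.1 h).1
  have h3 : (p : ℝ) ≤ k * p := le_mul_of_one_le_left hp0.le (by exact_mod_cast hk)
  linarith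

/-- the number from which on the argument works -/
theorem large (D : ℕ) (ε : ℝ) (hε : 0 < ε) : ∃ X₁ : ℝ, 8 ≤ X₁ ∧ ∀ x : ℝ, X₁ / 2 ≤ x → (D : ℝ) < x ∧
    2 * (D.factorial : ℝ) < x ^ (ε / 2) := by
  have h1 : ∀ᶠ x : ℝ in atTop, 2 * (D.factorial : ℝ) < x ^ (ε / 2) :=
    (tendsto_rpow_atTop (by positivity)).eventually_gt_atTop _
  obtain ⟨x₀, hx₀⟩ := ((eventually_gt_atTop (D : ℝ)).and h1).exists_forall_of_atTop
  exact ⟨max 8 (2 * x₀), le_max_left _ _, fun x hx => hx₀ x (by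
    have := le_max_right 8 (2 * x₀)
    linarith)⟩

/-- **No prime near a small multiple of a fine prime is a prime of bad reduction**, if the other bad primes have a small product. -/
theorem good_of_fine {ε : ℝ} (hε1 : ε ≤ 1) {X₁ : ℝ} (hX₁ : 8 ≤ X₁)
    (hX : ∀ x : ℝ, X₁ / 2 ≤ x → ((1 : ℕ) : ℝ) < x ∧ 2 * ((Nat.factorial 1 : ℕ) : ℝ) < x ^ (ε / 2)) {p : ℕ} (hp : X₁ ≤ p)
    (hfine : Pool.Agent.Results.MP_4ab349_nt.StringsOfPrimes.Fine (ε / 2) p) {k l N n : ℕ} (hk : 1 ≤ k)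
    (hkp : (k : ℝ) ≤ (p : ℝ) ^ (ε / 80)) (hkl : |(l : ℝ) - k * p| ≤ (p : ℝ) ^ (ε / 80)) (hl : l.Prime) (hN : 1 ≤ N)
    (hn : 0 < n) (hNl : ((rd (n * N) : ℕ) : ℝ) ≤ (l : ℝ) ^ (2 - ε)) {K : Type} [Field K] [NumberField K] {m : ℕ} {z : Fin m → K}
    (h3 : 3 ≤ m) (hz : ∃ b : Fin m → ℚ, Function.Injective b ∧ Moeb z b)
    (hgood : ∀ v : HeightOneSpectrum (𝓞 K), ((n * N : ℕ) : 𝓞 K) ∉ v.asIdeal → GoodAt v z)
    (v : HeightOneSpectrum (𝓞 K)) (hv : ((l : ℕ) : 𝓞 K) ∈ v.asIdeal) : GoodAt v z := by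
  by_contra hbad
  obtain ⟨b, hb, hzb⟩ := hz
  have hv' : ∀ n : ℕ, ((n : ℕ) : 𝓞 K) ∈ v.asIdeal ↔ l ∣ n := by
    intro x
    constructor
    · intro hx
      by_contra hlx
      have hco : IsCoprime (l : ℤ) (x : ℤ) := by
        rw [Nat.isCoprime_iff_coprime]
        exact (Nat.Prime.coprime_iff_not_dvd hl).2 hlx
      obtain ⟨u, w, huw⟩ := hco
      apply v.isPrime.ne_top
      rw [Ideal.eq_top_iff_one]
      have e : (1 : 𝓞 K) = (u : 𝓞 K) * ((l : ℕ) : 𝓞 K) + (w : 𝓞 K) * ((x : ℕ) : 𝓞 K) := by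
        have := congrArg (fun n : ℤ => (n : 𝓞 K)) huw
        push_cast at this
        exact this.symm
      rw [e]
      exact Ideal.add_mem _ (Ideal.mul_mem_left _ _ hv) (Ideal.mul_mem_left _ _ hx)
    · rintro ⟨c, rfl⟩
      rw [Nat.cast_mul]
      exact Ideal.mul_mem_right _ _ hv
  obtain ⟨s, hs, hls, hrad0⟩ := triple_of_bad h3 hb hzb hgood hv' hl hbad
  have hrad : rad3 s ∣ 2 * rd (n * N) := by
    have h1 := rad3_rd hs (M := n * N) (r := 1) (Nat.mul_pos hn hN).ne' (by rwa [mul_one])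
    rwa [mul_one] at h1
  have hl2 := near_ge hk (by linarith) (by linarith) hkl
  obtain ⟨-, hlD⟩ := hX l (by linarith)
  rw [Nat.factorial_one] at hlD
  have hl0 : (0 : ℝ) < l := by linarith
  have h1 := (hfine k l hk (by rwa [show ε / 2 / 40 = ε / 80 by ring]) (by rwa [show ε / 2 / 40 = ε / 80 by ring])).1
    s.1 s.2 hs.1 (hs.1.trans_le hs.2.1) hs.2.2 hls
  have h2 : (l : ℝ) * l ≤ Pool.Agent.Results.MP_4ab349_nt.StringsOfPrimes.M l := by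
    unfold Pool.Agent.Results.MP_4ab349_nt.StringsOfPrimes.M
      Pool.Agent.Results.MP_4ab349_nt.StringsOfPrimes.largestPrime
    rw [Nat.Prime.primeFactors hl, Finset.sup_singleton]
    exact le_max_right _ _
  have h4 : (rad3 s : ℝ) ≤ 2 * ((rd (n * N) : ℕ) : ℝ) := by
    exact_mod_cast Nat.le_of_dvd (Nat.mul_pos two_pos (rd_pos _)) hrad
  have h5 : Pool.Agent.Results.MP_4ab349_nt.StringsOfPrimes.radical (s.1 * s.2 * (s.1 + s.2)) = rad3 s := rfl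
  rw [h5] at h1
  have h6 : (l : ℝ) ^ (2 - ε / 2) ≤ (l : ℝ) * l * (l : ℝ) ^ (-(ε / 2)) := by
    rw [show (2 - ε / 2 : ℝ) = 1 + 1 + -(ε / 2) by ring, Real.rpow_add hl0, Real.rpow_add hl0, Real.rpow_one]
  have h7 : (l : ℝ) ^ (2 - ε / 2) = (l : ℝ) ^ (ε / 2) * (l : ℝ) ^ (2 - ε) := by
    rw [← Real.rpow_add hl0]; congr 1; ring
  have h8 : 2 * ((rd (n * N) : ℕ) : ℝ) ≤ (l : ℝ) ^ (ε / 2) * (l : ℝ) ^ (2 - ε) := by
    refine mul_le_mul ?_ hNl (by positivity) (by positivity)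
    push_cast at hlD
    linarith
  have h9 : (l : ℝ) * l * (l : ℝ) ^ (-(ε / 2)) ≤
      Pool.Agent.Results.MP_4ab349_nt.StringsOfPrimes.M l * (l : ℝ) ^ (-(ε / 2)) :=
    mul_le_mul_of_nonneg_right h2 (by positivity)
  linarith

end Pool.Agent.Q84.NX
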