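import Pool.Agent.Q138.PS.TN

/-!
# Dyadic counts
-/

set_option autoImplicit false

namespace Pool.Agent.Q84.NX

open Finset Filter
open Pool.Agent.Q138.PS (cn)

open Classical in
theorem dyadic (X : ℕ → Prop) (κ K₀ : ℝ) (hκ : 0 < κ)
    (h : ∀ K : ℕ, K₀ ≤ K → (((Ioc K (2 * K)).filter X).card : ℝ) ≤ (K : ℝ) ^ (1 - κ)) :
    ∃ C δ : ℝ, 0 < C ∧ 0 < δ ∧ δ ≤ 1 / 2 ∧ δ ≤ κ ∧ ∀ Y : ℕ, 1 ≤ Y → cn X Y ≤ C * (Y : ℝ) ^ (1 - δ) := by
  set δ : ℝ := min κ (1 / 2) with hδ
  have hδ0 : 0 < δ := by positivity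
  have hδ2 : δ ≤ 1 / 2 := min_le_right _ _
  have hδκ : δ ≤ κ := min_le_left _ _
  set M : ℕ := ⌈K₀⌉₊ + 1 with hM
  have hMK : K₀ ≤ M := (Nat.le_ceil K₀).trans (by rw [hM]; push_cast; linarith)
  refine ⟨2 * M + 5, δ, by positivity, hδ0, hδ2, hδκ, ?_⟩
  intro Y
  induction Y using Nat.strong_induction_on with
  | _ Y ih =>
    intro hY
    have hY1 : (1 : ℝ) ≤ Y := by exact_mod_cast hY
    have hYp : (1 : ℝ) ≤ (Y : ℝ) ^ (1 - δ) := Real.one_le_rpow hY1 (by linarith)
    have hcn : cn X Y ≤ Y := by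
      unfold cn
      refine (Nat.cast_le.2 (card_filter_le _ _)).trans ?_
      rw [Nat.card_Icc]
      simp
    by_cases hb : Y ≤ 2 * M + 1
    · have h1 : (Y : ℝ) ≤ 2 * M + 1 := by exact_mod_cast hb
      have h2 : (0 : ℝ) ≤ M := Nat.cast_nonneg M
      nlinarith
    · push Not at hb
      obtain ⟨K, hK⟩ : ∃ K, K = Y / 2 := ⟨_, rfl⟩
      have hKM : M < K := by omega
      have hK1 : 1 ≤ K := by omega
      have hKY : K < Y := by omega
      have hKr : (1 : ℝ) ≤ K := by exact_mod_cast hK1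
      have h1 := ih K hKY hK1
      have h2 := h K (hMK.trans (by exact_mod_cast hKM.le))
      have h3 : (K : ℝ) ^ (1 - κ) ≤ (K : ℝ) ^ (1 - δ) :=
        Real.rpow_le_rpow_of_exponent_le hKr (by linarith)
      have h4 : cn X Y ≤ cn X K + (((Ioc K (2 * K)).filter X).card : ℝ) + 1 := by
        unfold cn
        have h5 : (Icc 1 Y).filter X ⊆ ((Icc 1 K).filter X ∪ (Ioc K (2 * K)).filter X) ∪ {Y} := by
          intro y hy
          rw [mem_filter, mem_Icc] at hy
          simp only [mem_union, mem_filter, mem_Icc, mem_Ioc, mem_singleton]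
          rcases Nat.lt_or_ge y Y with h | h
          · left
            rcases Nat.lt_or_ge K y with h' | h'
            · right
              exact ⟨⟨h', by omega⟩, hy.2⟩
            · left
              exact ⟨⟨hy.1.1, h'⟩, hy.2⟩
          · right
            omega
        have h6 := (card_le_card h5).trans ((card_union_le _ _).trans
          (Nat.add_le_add_right (card_union_le _ _) _))
        rw [card_singleton] at h6
        have h7 : (((Icc 1 Y).filter X).card : ℝ) ≤ (((Icc 1 K).filter X).card +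
          ((Ioc K (2 * K)).filter X).card + 1 : ℕ) := by exact_mod_cast h6
        rw [Nat.cast_add, Nat.cast_add, Nat.cast_one] at h7
        exact h7
      have h8 : (1 : ℝ) ≤ (K : ℝ) ^ (1 - δ) := Real.one_le_rpow hKr (by linarith)
      have h9 : (14 / 10 : ℝ) * (K : ℝ) ^ (1 - δ) ≤ (Y : ℝ) ^ (1 - δ) := by
        have h10 : ((2 : ℝ) * K) ^ (1 - δ) ≤ (Y : ℝ) ^ (1 - δ) := by
          apply Real.rpow_le_rpow (by positivity) _ (by linarith)
          have : 2 * K ≤ Y := by omega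
          exact_mod_cast this
        rw [Real.mul_rpow (by norm_num) (by positivity)] at h10
        have h11 : (14 / 10 : ℝ) ≤ (2 : ℝ) ^ (1 - δ) := by
          have h12 : (2 : ℝ) ^ (1 / 2 : ℝ) ≤ (2 : ℝ) ^ (1 - δ) :=
            Real.rpow_le_rpow_of_exponent_le (by norm_num) (by linarith)
          refine le_trans ?_ h12
          rw [← Real.sqrt_eq_rpow]
          apply Real.le_sqrt_of_sq_le
          norm_num
        exact (mul_le_mul_of_nonneg_right h11 (by positivity)).trans h10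
      have hM0 : (0 : ℝ) ≤ M := Nat.cast_nonneg M
      have h13 : cn X Y ≤ (2 * M + 5 + 2) * (K : ℝ) ^ (1 - δ) := by nlinarith
      refine h13.trans ?_
      have h14 : (2 * (M : ℝ) + 5 + 2) * (K : ℝ) ^ (1 - δ) ≤ (2 * M + 5) * ((14 / 10 : ℝ) * (K : ℝ) ^ (1 - δ)) := by
        nlinarith
      exact h14.trans (mul_le_mul_of_nonneg_left h9 (by positivity))

end Pool.Agent.Q84.NX
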