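import Mathlib

/-!
# Counts from dyadic counts, with the exponent kept
-/

set_option autoImplicit false

open scoped Classical

namespace Pool.Agent.Q84.NX

open Finset Filter

theorem dyadic' (X : ℕ → Prop) (δ : ℝ) (hδ2 : δ ≤ 1 / 2) (K₀ : ℝ)
    (h : ∀ K : ℕ, K₀ ≤ K → (((Ioc K (2 * K)).filter X).card : ℝ) ≤ (K : ℝ) ^ (1 - δ)) :
    ∃ C : ℝ, ∀ Y : ℕ, (((range (Y + 1)).filter X).card : ℝ) ≤ C * ((Y : ℝ) + 1) ^ (1 - δ) := by
  obtain ⟨M, hM⟩ : ∃ M, M = ⌈K₀⌉₊ + 1 := ⟨_, rfl⟩
  have hMK : K₀ ≤ M := (Nat.le_ceil K₀).trans (by rw [hM]; push_cast; linarith)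
  have hcn0 : ∀ Y : ℕ, (((Icc 1 Y).filter X).card : ℝ) ≤ Y := by
    intro Y
    refine (Nat.cast_le.2 (card_filter_le _ _)).trans ?_
    rw [Nat.card_Icc]
    simp
  have hmain : ∀ Y : ℕ, 1 ≤ Y → (((Icc 1 Y).filter X).card : ℝ) ≤ (2 * M + 5) * (Y : ℝ) ^ (1 - δ) := by
    intro Y
    induction Y using Nat.strong_induction_on with
    | _ Y ih =>
      intro hY
      have hY1 : (1 : ℝ) ≤ Y := by exact_mod_cast hY
      have hYp : (1 : ℝ) ≤ (Y : ℝ) ^ (1 - δ) := Real.one_le_rpow hY1 (by linarith)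
      have hcn := hcn0 Y
      by_cases hb : Y ≤ 2 * M + 1
      · have h1 : (Y : ℝ) ≤ 2 * M + 1 := by exact_mod_cast hb
        have h2 : (0 : ℝ) ≤ M := Nat.cast_nonneg M
        nlinarith
      · push Not at hb
        obtain ⟨K, hK⟩ : ∃ K, K = Y / 2 := ⟨_, rfl⟩
        have hKM : M < K := by omega
        have hK1 : 1 ≤ K := by omega
        have hKY : K < Y := by omega
        have hKr : (1 : ℝ) ≤ K := by exact_mod_cast hK1
        have h1 := ih K hKY hK1
        have h2 := h K (hMK.trans (by exact_mod_cast hKM.le))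
        have h4 : (((Icc 1 Y).filter X).card : ℝ) ≤ (((Icc 1 K).filter X).card : ℝ) +
            (((Ioc K (2 * K)).filter X).card : ℝ) + 1 := by
          have h5 : (Icc 1 Y).filter X ⊆ ((Icc 1 K).filter X ∪ (Ioc K (2 * K)).filter X) ∪ {Y} := by
            intro y hy
            rw [mem_filter, mem_Icc] at hy
            simp only [mem_union, mem_filter, mem_Icc, mem_Ioc, mem_singleton]
            rcases Nat.lt_or_ge y Y with h | h
            · left
              rcases Nat.lt_or_ge K y with h' | h'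
              · right
                exact ⟨⟨h', by omega⟩, hy.2⟩
              · left
                exact ⟨⟨hy.1.1, h'⟩, hy.2⟩
            · right
              omega
          have h6 := (card_le_card h5).trans ((card_union_le _ _).trans
            (Nat.add_le_add_right (card_union_le _ _) _))
          rw [card_singleton] at h6
          have h7 : (((Icc 1 Y).filter X).card : ℝ) ≤ (((Icc 1 K).filter X).card +
            ((Ioc K (2 * K)).filter X).card + 1 : ℕ) := by exact_mod_cast h6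
          rw [Nat.cast_add, Nat.cast_add, Nat.cast_one] at h7
          exact h7
        have h8 : (1 : ℝ) ≤ (K : ℝ) ^ (1 - δ) := Real.one_le_rpow hKr (by linarith)
        have h9 : (14 / 10 : ℝ) * (K : ℝ) ^ (1 - δ) ≤ (Y : ℝ) ^ (1 - δ) := by
          have h10 : ((2 : ℝ) * K) ^ (1 - δ) ≤ (Y : ℝ) ^ (1 - δ) := by
            apply Real.rpow_le_rpow (by positivity) _ (by linarith)
            have : 2 * K ≤ Y := by omega
            exact_mod_cast this
          rw [Real.mul_rpow (by norm_num) (by positivity)] at h10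
          have h11 : (14 / 10 : ℝ) ≤ (2 : ℝ) ^ (1 - δ) := by
            have h12 : (2 : ℝ) ^ (1 / 2 : ℝ) ≤ (2 : ℝ) ^ (1 - δ) :=
              Real.rpow_le_rpow_of_exponent_le (by norm_num) (by linarith)
            refine le_trans ?_ h12
            rw [← Real.sqrt_eq_rpow]
            apply Real.le_sqrt_of_sq_le
            norm_num
          exact (mul_le_mul_of_nonneg_right h11 (by positivity)).trans h10
        have hM0 : (0 : ℝ) ≤ M := Nat.cast_nonneg M
        have h13 : (((Icc 1 Y).filter X).card : ℝ) ≤ (2 * M + 5 + 2) * (K : ℝ) ^ (1 - δ) := by nlinarith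
        refine h13.trans ?_
        have h14 : (2 * (M : ℝ) + 5 + 2) * (K : ℝ) ^ (1 - δ) ≤ (2 * M + 5) * ((14 / 10 : ℝ) * (K : ℝ) ^ (1 - δ)) := by
          nlinarith
        exact h14.trans (mul_le_mul_of_nonneg_left h9 (by positivity))
  refine ⟨2 * M + 6, fun Y => ?_⟩
  have hM0 : (0 : ℝ) ≤ M := Nat.cast_nonneg M
  have hY0 : (0 : ℝ) ≤ Y := Nat.cast_nonneg Y
  have h1 : ((range (Y + 1)).filter X).card ≤ ((Icc 1 Y).filter X).card + 1 := by
    have h2 : (range (Y + 1)).filter X ⊆ (Icc 1 Y).filter X ∪ {0} := by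
      intro y hy
      rw [mem_filter, mem_range] at hy
      rw [mem_union, mem_filter, mem_Icc, mem_singleton]
      rcases Nat.eq_zero_or_pos y with h | h
      · exact Or.inr h
      · exact Or.inl ⟨⟨h, by omega⟩, hy.2⟩
    refine (card_le_card h2).trans ((card_union_le _ _).trans ?_)
    rw [card_singleton]
  have h2 : (((range (Y + 1)).filter X).card : ℝ) ≤ (((Icc 1 Y).filter X).card : ℝ) + 1 := by exact_mod_cast h1
  have h3 : (1 : ℝ) ≤ ((Y : ℝ) + 1) ^ (1 - δ) := Real.one_le_rpow (by linarith) (by linarith)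
  have h4 : (((Icc 1 Y).filter X).card : ℝ) ≤ (2 * M + 5) * ((Y : ℝ) + 1) ^ (1 - δ) := by
    rcases Nat.eq_zero_or_pos Y with h | h
    · refine (hcn0 Y).trans ?_
      rw [h, Nat.cast_zero]
      positivity
    · refine (hmain Y h).trans ?_
      exact mul_le_mul_of_nonneg_left (Real.rpow_le_rpow hY0 (by linarith) (by linarith)) (by positivity)
  calc (((range (Y + 1)).filter X).card : ℝ) ≤ (2 * M + 5) * ((Y : ℝ) + 1) ^ (1 - δ) + ((Y : ℝ) + 1) ^ (1 - δ) := by
        linarith
    _ = (2 * M + 6) * ((Y : ℝ) + 1) ^ (1 - δ) := by ring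

end Pool.Agent.Q84.NX
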