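import Pool.Agent.Q84.NX.Tri

/-!
# Primes near whose multiples there is a divisor of an exceptional number `u ≤ N ^ J`
-/

set_option autoImplicit false

open scoped Classical

namespace Pool.Agent.Q84.NX

open Finset Filter

/-- few primes `p` have a divisor of an exceptional product near one of their multiples -/
theorem div_badJ (J : ℕ) (hJ : 1 ≤ J) (U : ℕ → Finset ℕ) (A γ C c κ : ℝ) (hA : 0 < A) (hγ : 0 ≤ γ) (hc : 0 < c) (hc1 : c ≤ 1)
    (hlt : A * γ + c < 1 - κ)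
    (hU1 : ∀ N, ∀ u ∈ U N, 1 ≤ u ∧ u ≤ N ^ J) (hU : ∀ N : ℕ, 1 ≤ N → ((U N).card : ℝ) ≤ C * (N : ℝ) ^ γ) :
    ∀ᶠ X : ℝ in atTop, (((Icc 1 ⌊4 * X⌋₊).filter fun p : ℕ => p.Prime ∧ X < p ∧
      NearDiv (U ⌊(4 * X) ^ A⌋₊) c p).card : ℝ) ≤ X ^ (1 - κ) := by
  obtain ⟨ε, hε⟩ : ∃ ε, ε = (1 - κ - (A * γ + c)) / (2 * J * A) := ⟨_, rfl⟩
  have hJr : (1 : ℝ) ≤ J := by exact_mod_cast hJ
  have hε0 : 0 < ε := by rw [hε]; exact div_pos (by linarith) (by positivity)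
  have hAε : J * A * ε = (1 - κ - (A * γ + c)) / 2 := by
    rw [hε]
    field_simp
  obtain ⟨C₂, hC₂, hdiv⟩ := Pool.Agent.H510R2.divisor_bound ε hε0
  obtain ⟨K, hK⟩ := exists_nat_ge (J * A)
  obtain ⟨e, he⟩ : ∃ e, e = A * (γ + J * ε) + c := ⟨_, rfl⟩
  have he1 : e < 1 - κ := by
    rw [he]
    have : A * (γ + J * ε) + c = A * γ + J * A * ε + c := by ring
    rw [this, hAε]
    linarith
  filter_upwards [(tendsto_rpow_atTop (by linarith : (0 : ℝ) < 1 - κ - e)).eventually_ge_atTop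
    ((K + 1) * (|C| * C₂ * 3 * 4 ^ e)), eventually_gt_atTop ((5 : ℝ) ^ (K + 1)), eventually_ge_atTop (8 : ℝ)]
    with X hX1 hX5 hX8
  have hX0 : 0 < X := by linarith
  obtain ⟨N₀, hN₀⟩ : ∃ N₀, N₀ = ⌊(4 * X) ^ A⌋₊ := ⟨_, rfl⟩
  have h4A : 1 ≤ (4 * X) ^ A := Real.one_le_rpow (by linarith) hA.le
  have hN₀1 : 1 ≤ N₀ := by rw [hN₀]; exact Nat.le_floor (by push_cast; exact h4A)
  have hN₀le : (N₀ : ℝ) ≤ (4 * X) ^ A := by rw [hN₀]; exact Nat.floor_le (by positivity)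
  have hN₀r : (1 : ℝ) ≤ N₀ := by exact_mod_cast hN₀1
  obtain ⟨N, hN⟩ : ∃ N, N = ⌊(5 * X) ^ (K + 1)⌋₊ := ⟨_, rfl⟩
  have hNle : (N : ℝ) ≤ (5 * X) ^ (K + 1) := by rw [hN]; exact Nat.floor_le (by positivity)
  have hNX : (N : ℝ) < X ^ (K + 2) := by
    refine hNle.trans_lt ?_
    rw [mul_pow, pow_succ X (K + 1), mul_comm (X ^ (K + 1)) X]
    exact mul_lt_mul_of_pos_right hX5 (by positivity)
  obtain ⟨V, hV⟩ : ∃ V, V = ⌊(4 * X) ^ c⌋₊ := ⟨_, rfl⟩
  have hVle : (V : ℝ) ≤ (4 * X) ^ c := by rw [hV]; exact Nat.floor_le (by positivity)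
  have h4c1 : 1 ≤ (4 * X) ^ c := Real.one_le_rpow (by linarith) hc.le
  obtain ⟨R, hR⟩ : ∃ R : ℕ → Prop, R = fun b => ∃ u ∈ U N₀, b ∣ u := ⟨_, rfl⟩
  have hcore := near_core R K N V X (by linarith) hNX ⌊4 * X⌋₊
  have hRc : (((range (N + 1)).filter R).card : ℝ) ≤ |C| * C₂ * (4 * X) ^ (A * (γ + J * ε)) := by
    have hsub : (range (N + 1)).filter R ⊆ (U N₀).biUnion fun u => u.divisors := by
      intro b hb
      rw [mem_filter, hR] at hb
      obtain ⟨-, u, hu, hbu⟩ := hb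
      rw [mem_biUnion]
      exact ⟨u, hu, Nat.mem_divisors.2 ⟨hbu, by have := (hU1 N₀ u hu).1; omega⟩⟩
    calc (((range (N + 1)).filter R).card : ℝ) ≤ ∑ u ∈ U N₀, (u.divisors.card : ℝ) := by
          have := (card_le_card hsub).trans card_biUnion_le
          exact_mod_cast this
      _ ≤ ∑ _u ∈ U N₀, C₂ * (N₀ : ℝ) ^ (J * ε) := by
          refine sum_le_sum fun u hu => (hdiv u (hU1 N₀ u hu).1).trans ?_
          apply mul_le_mul_of_nonneg_left _ hC₂.le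
          rw [Real.rpow_mul (by linarith), Real.rpow_natCast]
          apply Real.rpow_le_rpow (Nat.cast_nonneg _) _ hε0.le
          exact_mod_cast (hU1 N₀ u hu).2
      _ = (U N₀).card * (C₂ * (N₀ : ℝ) ^ (J * ε)) := by rw [sum_const, nsmul_eq_mul]
      _ ≤ (|C| * (N₀ : ℝ) ^ γ) * (C₂ * (N₀ : ℝ) ^ (J * ε)) := by
          apply mul_le_mul_of_nonneg_right _ (by positivity)
          refine (hU N₀ hN₀1).trans ?_
          exact mul_le_mul_of_nonneg_right (le_abs_self _) (by positivity)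
      _ = |C| * C₂ * (N₀ : ℝ) ^ (γ + J * ε) := by
          rw [Real.rpow_add (by linarith)]
          ring
      _ ≤ |C| * C₂ * (4 * X) ^ (A * (γ + J * ε)) := by
          apply mul_le_mul_of_nonneg_left _ (by positivity)
          rw [Real.rpow_mul (by positivity)]
          exact Real.rpow_le_rpow (by linarith) hN₀le (by positivity)
  have hsub : ((Icc 1 ⌊4 * X⌋₊).filter fun p : ℕ => p.Prime ∧ X < p ∧
      NearDiv (U ⌊(4 * X) ^ A⌋₊) c p) ⊆
      (Icc 1 ⌊4 * X⌋₊).filter fun p : ℕ => p.Prime ∧ X < p ∧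
        ∃ n b : ℕ, 1 ≤ n ∧ n ≤ N ∧ p ∣ n ∧ b ≤ N ∧ R b ∧ n ≤ b + V ∧ b ≤ n + V := by
    intro p hp
    rw [mem_filter, mem_Icc] at hp ⊢
    obtain ⟨hp14, hpp, hXp, u, hu, k, r, hk1, hkr, hru⟩ := hp
    have hp4 : (p : ℝ) ≤ 4 * X := (Nat.le_floor_iff (by linarith)).1 hp14.2
    have hpr0 : (0 : ℝ) < p := by linarith
    have hpr1 : (1 : ℝ) ≤ p := by linarith
    refine ⟨hp14, hpp, hXp, ?_⟩
    rw [← hN₀] at hu
    have hpc : (p : ℝ) ^ c ≤ (4 * X) ^ c := Real.rpow_le_rpow hpr0.le hp4 hc.le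
    have hpc1 : (4 * X) ^ c ≤ 4 * X := by
      calc (4 * X) ^ c ≤ (4 * X) ^ (1 : ℝ) := Real.rpow_le_rpow_of_exponent_le (by linarith) hc1
        _ = 4 * X := Real.rpow_one _
    obtain ⟨h1, h2⟩ := near_nat r k p V ((4 * X) ^ c) (hkr.trans hpc) hV
    have hru' : (r : ℝ) ≤ (4 * X) ^ K := by
      have h3 : r ≤ u := Nat.le_of_dvd (hU1 N₀ u hu).1 hru
      have h4 : (r : ℝ) ≤ (N₀ : ℝ) ^ J := by exact_mod_cast h3.trans (hU1 N₀ u hu).2
      refine h4.trans ?_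
      calc (N₀ : ℝ) ^ J ≤ ((4 * X) ^ A) ^ J := pow_le_pow_left₀ (by linarith) hN₀le J
        _ = (4 * X) ^ (J * A) := by
            rw [← Real.rpow_natCast ((4 * X) ^ A) J, ← Real.rpow_mul (by positivity)]
            congr 1
            push_cast
            ring
        _ ≤ (4 * X) ^ (K : ℝ) := Real.rpow_le_rpow_of_exponent_le (by linarith) hK
        _ = (4 * X) ^ K := Real.rpow_natCast _ _
    have h45 : (4 * X) ^ K + 4 * X ≤ (5 * X) ^ (K + 1) := by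
      have h5 : (4 * X) ^ K ≤ (5 * X) ^ K := pow_le_pow_left₀ (by positivity) (by linarith) K
      have h6 : 1 ≤ (5 * X) ^ K := one_le_pow₀ (by linarith)
      have h7 : (5 * X) ^ (K + 1) = (5 * X) ^ K * (5 * X) := pow_succ _ _
      rw [h7]
      nlinarith
    have hrN : r ≤ N := by
      rw [hN]
      refine Nat.le_floor ?_
      linarith
    have hkN : k * p ≤ N := by
      rw [hN]
      refine Nat.le_floor ?_
      have h3 : ((k * p : ℕ) : ℝ) ≤ ((r + V : ℕ) : ℝ) := by exact_mod_cast h1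
      push_cast at h3 ⊢
      linarith
    refine ⟨k * p, r, Nat.mul_pos (by omega) hpp.pos, hkN, dvd_mul_left _ _, hrN, ?_, h1, h2⟩
    rw [hR]
    exact ⟨u, hu, hru⟩
  have h1 : (((Icc 1 ⌊4 * X⌋₊).filter fun p : ℕ => p.Prime ∧ X < p ∧
      NearDiv (U ⌊(4 * X) ^ A⌋₊) c p).card : ℝ) ≤
      (K + 1) * ((((range (N + 1)).filter R).card : ℝ) * (2 * V + 1)) := by
    have h2 := (card_le_card hsub).trans hcore
    have h3 : (((Icc 1 ⌊4 * X⌋₊).filter fun p : ℕ => p.Prime ∧ X < p ∧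
      NearDiv (U ⌊(4 * X) ^ A⌋₊) c p).card : ℝ) ≤
      (((K + 1) * (((range (N + 1)).filter R).card * (2 * V + 1)) : ℕ) : ℝ) := by exact_mod_cast h2
    refine h3.trans (le_of_eq ?_)
    push_cast
    ring
  refine h1.trans ?_
  calc (K + 1) * ((((range (N + 1)).filter R).card : ℝ) * (2 * V + 1))
      ≤ (K + 1) * ((|C| * C₂ * (4 * X) ^ (A * (γ + J * ε))) * (3 * (4 * X) ^ c)) := by
        apply mul_le_mul_of_nonneg_left _ (by positivity)
        exact mul_le_mul hRc (by linarith) (by positivity) (by positivity)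
    _ = (K + 1) * (|C| * C₂ * 3 * (4 * X) ^ e) := by
        rw [he, Real.rpow_add (by positivity)]
        ring
    _ = (K + 1) * (|C| * C₂ * 3 * 4 ^ e) * X ^ e := by
        rw [Real.mul_rpow (by norm_num) hX0.le]
        ring
    _ ≤ X ^ (1 - κ - e) * X ^ e := mul_le_mul_of_nonneg_right hX1 (by positivity)
    _ = X ^ (1 - κ) := by
        rw [← Real.rpow_add hX0]
        congr 1
        ring

end Pool.Agent.Q84.NX
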