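import Pool.Agent.Q84.NX.Str
import Pool.Agent.Q84.NX.TriJ

/-!
# Strings of primes without divisors of exceptional numbers near their multiples
-/

set_option autoImplicit false

open scoped Classical

namespace Pool.Agent.Q84.NX

open Finset Filter

/-- if there are at most `N ^ (α + ε)` exceptional numbers `u ≤ N ^ J` at the scale `N`, then there are strings of
primes such that no exceptional number at the scale `p ^ (1 / α - δ)` has a divisor near a multiple of `p` -/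
theorem fam_strings (J : ℕ) (hJ : 1 ≤ J) (U : ℕ → Finset ℕ) (α δ : ℝ) (hα : 0 < α) (hδ : 0 < δ) (hδα : δ * α < 1)
    (hU1 : ∀ N, ∀ u ∈ U N, 1 ≤ u ∧ u ≤ N ^ J)
    (hU : ∀ ε : ℝ, 0 < ε → ∃ C : ℝ, ∀ N : ℕ, 1 ≤ N → ((U N).card : ℝ) ≤ C * (N : ℝ) ^ (α + ε)) :
    ∃ c : ℝ, 0 < c ∧ c ≤ 1 / 4 ∧ ∀ G : ℕ → Prop,
    (∀ᶠ X : ℝ in atTop, ∀ p : ℕ, p.Prime → X < p → (p : ℝ) ≤ 4 * X → ¬ G p →
      NearDiv (U ⌊(4 * X) ^ (1 / α - δ)⌋₊) c p) →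
    ∀ κ : ℝ, 0 < κ → ∀ m : ℕ, ∃ c' : ℝ, 0 < c' ∧
    ∀ Z : ℕ, ∃ D : ℕ, ∃ X₀ : ℝ, ∀ X : ℝ, X₀ ≤ X →
    ∃ S : Finset ℕ, (∀ q ∈ S, q.Prime ∧ Z < q) ∧ (S.card : ℝ) ≤ (Real.log X) ^ (49 / 50 : ℝ) ∧
    ∀ f : ℕ → ℤ, (∀ q, f q = 1 ∨ f q = -1) →
      X ^ (1 - κ) ≤ (((Icc 1 ⌊3 * X⌋₊).filter fun n : ℕ => X < n ∧
        m ≤ ((Icc n (n + D)).filter Nat.Prime).card ∧
        ∀ p ∈ Icc n (n + D), p.Prime → G p ∧
          ∀ q : ℕ, q.Prime → q ≠ 2 → (q : ℝ) ≤ c' * Real.log X → q ∉ S → jacobiSym p q = f q).card : ℝ) := by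
  obtain ⟨A, hA⟩ : ∃ A, A = 1 / α - δ := ⟨_, rfl⟩
  rw [← hA]
  have hAα : A * α = 1 - δ * α := by
    rw [hA]
    field_simp
  have hA0 : 0 < A := by
    by_contra h
    push Not at h
    nlinarith
  obtain ⟨s, hs⟩ : ∃ s, s = δ * α := ⟨_, rfl⟩
  have hs0 : 0 < s := by rw [hs]; positivity
  have hs1 : s < 1 := by rw [hs]; exact hδα
  obtain ⟨ε, hε⟩ : ∃ ε, ε = s / (4 * A) := ⟨_, rfl⟩
  have hε0 : 0 < ε := by rw [hε]; positivity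
  have hAε : A * ε = s / 4 := by
    rw [hε]
    field_simp
  obtain ⟨C, hC⟩ := hU ε hε0
  refine ⟨s / 4, by positivity, by linarith, fun G hG κ hκ m => ?_⟩
  have hbad := div_badJ J hJ U A (α + ε) C (s / 4) (s / 8) hA0 (by positivity) (by positivity) (by linarith) (by
    rw [mul_add, hAα, hAε, ← hs]
    linarith) hU1 hC
  refine strings_of G (s / 8) (by positivity) ?_ κ hκ m
  filter_upwards [hbad, hG, eventually_ge_atTop (1 : ℝ)] with X hX hXG hX1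
  refine le_trans ?_ hX
  rw [Nat.cast_le]
  apply card_le_card
  intro p hp
  rw [mem_filter, mem_Icc] at hp ⊢
  obtain ⟨hp14, hpp, hXp, hg⟩ := hp
  exact ⟨hp14, hpp, hXp, hXG p hpp hXp ((Nat.le_floor_iff (by linarith)).1 hp14.2) hg⟩

end Pool.Agent.Q84.NX
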