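import Pool.Agent.Q84.NX.Fam

/-!
# Strings of primes without divisors of exceptional numbers near their multiples, for one exponent
-/

set_option autoImplicit false

open scoped Classical

namespace Pool.Agent.Q84.NX

open Finset Filter

/-- if there are at most `C N ^ γ` exceptional numbers `u ≤ N ^ J` at the scale `N` and `A γ < 1`, then there are strings
of primes such that no exceptional number at the scale `p ^ A` has a divisor near a multiple of `p` -/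
theorem fam_strings' (J : ℕ) (hJ : 1 ≤ J) (U : ℕ → Finset ℕ) (A γ C : ℝ) (hA : 0 < A) (hγ : 0 ≤ γ) (hAγ : A * γ < 1)
    (hU1 : ∀ N, ∀ u ∈ U N, 1 ≤ u ∧ u ≤ N ^ J)
    (hU : ∀ N : ℕ, 1 ≤ N → ((U N).card : ℝ) ≤ C * (N : ℝ) ^ γ) :
    ∃ c : ℝ, 0 < c ∧ c ≤ 1 / 4 ∧ ∀ G : ℕ → Prop,
    (∀ᶠ X : ℝ in atTop, ∀ p : ℕ, p.Prime → X < p → (p : ℝ) ≤ 4 * X → ¬ G p →
      NearDiv (U ⌊(4 * X) ^ A⌋₊) c p) →
    ∀ κ : ℝ, 0 < κ → ∀ m : ℕ, ∃ c' : ℝ, 0 < c' ∧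
    ∀ Z : ℕ, ∃ D : ℕ, ∃ X₀ : ℝ, ∀ X : ℝ, X₀ ≤ X →
    ∃ S : Finset ℕ, (∀ q ∈ S, q.Prime ∧ Z < q) ∧ (S.card : ℝ) ≤ (Real.log X) ^ (49 / 50 : ℝ) ∧
    ∀ f : ℕ → ℤ, (∀ q, f q = 1 ∨ f q = -1) →
      X ^ (1 - κ) ≤ (((Icc 1 ⌊3 * X⌋₊).filter fun n : ℕ => X < n ∧
        m ≤ ((Icc n (n + D)).filter Nat.Prime).card ∧
        ∀ p ∈ Icc n (n + D), p.Prime → G p ∧
          ∀ q : ℕ, q.Prime → q ≠ 2 → (q : ℝ) ≤ c' * Real.log X → q ∉ S → jacobiSym p q = f q).card : ℝ) := by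
  have hAγ0 : 0 ≤ A * γ := mul_nonneg hA.le hγ
  obtain ⟨s, hs⟩ : ∃ s, s = 1 - A * γ := ⟨_, rfl⟩
  have hs0 : 0 < s := by rw [hs]; linarith
  have hs1 : s ≤ 1 := by rw [hs]; linarith
  refine ⟨s / 4, by positivity, by linarith, fun G hG κ hκ m => ?_⟩
  have hbad := div_badJ J hJ U A γ C (s / 4) (s / 4) hA hγ (by positivity) (by linarith) (by linarith) hU1 hU
  refine strings_of G (s / 4) (by positivity) ?_ κ hκ m
  filter_upwards [hbad, hG, eventually_ge_atTop (1 : ℝ)] with X hX hXG hX1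
  refine le_trans ?_ hX
  rw [Nat.cast_le]
  apply card_le_card
  intro p hp
  rw [mem_filter, mem_Icc] at hp ⊢
  obtain ⟨hp14, hpp, hXp, hg⟩ := hp
  exact ⟨hp14, hpp, hXp, hXG p hpp hXp ((Nat.le_floor_iff (by linarith)).1 hp14.2) hg⟩

end Pool.Agent.Q84.NX
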