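import Pool.Agent.Q84.NX.Fam2

/-!
# Strings of primes without divisors of exceptional objects near their multiples
-/

set_option autoImplicit false

open scoped Classical

namespace Pool.Agent.Q84.NX

open Finset Filter

/-- no object `t` of the family at the scale `p ^ A` has a divisor of `u t` within `p ^ c` of a positive multiple of `p` -/
def NoDiv {T : Type*} (E : ℝ → Set T) (u : T → ℕ) (A c : ℝ) (p : ℕ) : Prop :=
  ∀ t ∈ E ((p : ℝ) ^ A), ∀ k r : ℕ, 1 ≤ k → |(r : ℝ) - k * p| ≤ (p : ℝ) ^ c → ¬ r ∣ u t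

/-- if there are at most `C B ^ γ` objects at the scale `B` and `A γ < 1`, then there are strings of primes such that no
object at the scale `p ^ A` has a divisor near a multiple of `p` -/
theorem obj_strings {T : Type*} (E : ℝ → Set T) (hE : ∀ B B' : ℝ, B ≤ B' → E B ⊆ E B') (u : T → ℕ) (J : ℕ)
    (hJ : 1 ≤ J) (B₀ : ℝ) (hu : ∀ B : ℝ, B₀ ≤ B → ∀ t ∈ E B, 1 ≤ u t ∧ (u t : ℝ) ≤ B ^ J)
    (A γ C : ℝ) (hA : 0 < A) (hγ : 0 ≤ γ) (hAγ : A * γ < 1)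
    (hcount : ∀ B : ℝ, 1 ≤ B → (E B).Finite ∧ ((E B).ncard : ℝ) ≤ C * B ^ γ) :
    ∃ c : ℝ, 0 < c ∧ c ≤ 1 / 4 ∧
    ∀ κ : ℝ, 0 < κ → ∀ m : ℕ, ∃ c' : ℝ, 0 < c' ∧
    ∀ Z : ℕ, ∃ D : ℕ, ∃ X₀ : ℝ, ∀ X : ℝ, X₀ ≤ X →
    ∃ S : Finset ℕ, (∀ q ∈ S, q.Prime ∧ Z < q) ∧ (S.card : ℝ) ≤ (Real.log X) ^ (49 / 50 : ℝ) ∧
    ∀ f : ℕ → ℤ, (∀ q, f q = 1 ∨ f q = -1) →
      X ^ (1 - κ) ≤ (((Icc 1 ⌊3 * X⌋₊).filter fun n : ℕ => X < n ∧
        m ≤ ((Icc n (n + D)).filter Nat.Prime).card ∧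
        ∀ p ∈ Icc n (n + D), p.Prime → NoDiv E u A c p ∧
          ∀ q : ℕ, q.Prime → q ≠ 2 → (q : ℝ) ≤ c' * Real.log X → q ∉ S → jacobiSym p q = f q).card : ℝ) := by
  have hC0 : 0 ≤ C := by
    have h1 := (hcount 1 le_rfl).2
    rw [Real.one_rpow, mul_one] at h1
    exact le_trans (Nat.cast_nonneg _) h1
  obtain ⟨U, hU⟩ : ∃ U : ℕ → Finset ℕ, U = fun N : ℕ => if h : (E ((N : ℝ) + 1)).Finite then
      (h.toFinset.image u).filter (fun v => 1 ≤ v ∧ v ≤ N ^ (2 * J)) else ∅ := ⟨_, rfl⟩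
  obtain ⟨c, hc, hc4, hmain⟩ := fam_strings' (2 * J) (by omega) U A γ (C * 2 ^ γ) hA hγ hAγ (by
    intro N v hv
    rw [hU] at hv
    simp only at hv
    split_ifs at hv with h
    · rw [mem_filter] at hv
      exact hv.2
    · simp at hv) (by
    intro N hN
    have hN1 : (1 : ℝ) ≤ N := by exact_mod_cast hN
    obtain ⟨h1, h2⟩ := hcount ((N : ℝ) + 1) (by linarith)
    have h3 : ((U N).card : ℝ) ≤ ((E ((N : ℝ) + 1)).ncard : ℝ) := by
      rw [hU]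
      simp only [dif_pos h1]
      rw [Nat.cast_le]
      refine (card_filter_le _ _).trans (card_image_le.trans ?_)
      rw [Set.ncard_eq_toFinset_card _ h1]
    refine h3.trans (h2.trans ?_)
    rw [mul_assoc]
    apply mul_le_mul_of_nonneg_left _ hC0
    rw [← Real.mul_rpow (by norm_num) (by positivity)]
    exact Real.rpow_le_rpow (by positivity) (by linarith) hγ)
  refine ⟨c, hc, hc4, hmain (NoDiv E u A c) ?_⟩
  filter_upwards [(tendsto_rpow_atTop hA).eventually_ge_atTop (max B₀ 3 + 1), eventually_ge_atTop (1 : ℝ)] with X hX hX1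
  intro p hpp hXp hp4 hg
  obtain ⟨N, hN⟩ : ∃ N, N = ⌊(4 * X) ^ A⌋₊ := ⟨_, rfl⟩
  rw [← hN]
  have h4X : X ^ A ≤ (4 * X) ^ A := Real.rpow_le_rpow (by linarith) (by linarith) hA.le
  have hN1 := Nat.lt_floor_add_one ((4 * X) ^ A)
  rw [← hN] at hN1
  have hNB : B₀ ≤ N := by linarith [le_max_left B₀ 3]
  have hN3 : (3 : ℝ) ≤ N := by linarith [le_max_right B₀ 3]
  unfold NoDiv at hg
  push Not at hg
  obtain ⟨t, ht, k, r, hk, hkr, hr⟩ := hg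
  have htN : t ∈ E ((N : ℝ) + 1) := by
    refine hE _ _ ?_ ht
    have h1 : (p : ℝ) ^ A ≤ (4 * X) ^ A := Real.rpow_le_rpow (Nat.cast_nonneg _) hp4 hA.le
    linarith
  obtain ⟨h1, h2⟩ := hu ((N : ℝ) + 1) (by linarith) t htN
  refine ⟨u t, ?_, k, r, hk, hkr, hr⟩
  rw [hU]
  simp only [dif_pos (hcount ((N : ℝ) + 1) (by linarith)).1]
  rw [mem_filter, mem_image]
  refine ⟨⟨t, (Set.Finite.mem_toFinset _).2 htN, rfl⟩, h1, ?_⟩
  have h3 : (u t : ℝ) ≤ ((N ^ (2 * J) : ℕ) : ℝ) := by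
    refine h2.trans ?_
    push_cast
    rw [pow_mul]
    exact pow_le_pow_left₀ (by linarith) (by nlinarith) J
  exact_mod_cast h3

end Pool.Agent.Q84.NX
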