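import Pool.Agent.Q84.NX.Str
import Pool.Agent.Q84.NX.StrU
import Pool.Agent.Q84.NX.Tri

/-!
# Strings of primes with few exceptional objects divisible by the numbers near their multiples
-/

set_option autoImplicit false

open scoped Classical

namespace Pool.Agent.Q84.NX

open Finset Filter

/-- for every `r` within `p ^ c` of a positive multiple of `p`, at most `p ^ ω` of the objects `t` of the family at the
scale `p ^ A` have `r ∣ u t` -/
def FewDiv {T : Type*} (E : ℝ → Set T) (u : T → ℕ) (A ω c : ℝ) (p : ℕ) : Prop :=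
  ∀ k r : ℕ, 1 ≤ k → |(r : ℝ) - k * p| ≤ (p : ℝ) ^ c →
    ({t | t ∈ E ((p : ℝ) ^ A) ∧ r ∣ u t}.ncard : ℝ) ≤ (p : ℝ) ^ ω

/-- few primes have a number near one of their multiples which divides many objects -/
theorem few_bad {T : Type*} (E : ℝ → Set T) (hE : ∀ B B' : ℝ, B ≤ B' → E B ⊆ E B') (u : T → ℕ) (J : ℕ)
    (hJ : 1 ≤ J) (B₀ : ℝ) (hu : ∀ B : ℝ, B₀ ≤ B → ∀ t ∈ E B, 1 ≤ u t ∧ (u t : ℝ) ≤ B ^ J)
    (A γ C ω c κ : ℝ) (hA : 0 < A) (hγ : 0 ≤ γ) (hω : 0 ≤ ω) (hc : 0 < c) (hc1 : c ≤ 1)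
    (hlt : A * γ + c < 1 + ω - κ)
    (hcount : ∀ B : ℝ, 1 ≤ B → (E B).Finite ∧ ((E B).ncard : ℝ) ≤ C * B ^ γ) :
    ∀ᶠ X : ℝ in atTop, (((Icc 1 ⌊4 * X⌋₊).filter fun p : ℕ => p.Prime ∧ X < p ∧
      ¬ FewDiv E u A ω c p).card : ℝ) ≤ X ^ (1 - κ) := by
  have hC0 : 0 ≤ C := by
    have h1 := (hcount 1 le_rfl).2
    rw [Real.one_rpow, mul_one] at h1
    exact le_trans (Nat.cast_nonneg _) h1
  obtain ⟨ε, hε⟩ : ∃ ε, ε = (1 + ω - κ - (A * γ + c)) / (2 * J * A) := ⟨_, rfl⟩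
  have hJr : (1 : ℝ) ≤ J := by exact_mod_cast hJ
  have hε0 : 0 < ε := by rw [hε]; exact div_pos (by linarith) (by positivity)
  have hAε : J * A * ε = (1 + ω - κ - (A * γ + c)) / 2 := by
    rw [hε]
    field_simp
  obtain ⟨C₂, hC₂, hdiv⟩ := Pool.Agent.H510R2.divisor_bound ε hε0
  obtain ⟨K, hK⟩ := exists_nat_ge (J * A)
  obtain ⟨e, he⟩ : ∃ e, e = A * (γ + J * ε) + c := ⟨_, rfl⟩
  have he1 : e - ω < 1 - κ := by
    rw [he]
    have : A * (γ + J * ε) + c = A * γ + J * A * ε + c := by ring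
    rw [this, hAε]
    linarith
  filter_upwards [(tendsto_rpow_atTop (by linarith : (0 : ℝ) < 1 - κ - (e - ω))).eventually_ge_atTop
    ((K + 1) * (C * C₂ * 3 * 4 ^ e)), eventually_gt_atTop ((5 : ℝ) ^ (K + 1)), eventually_ge_atTop (8 : ℝ),
    (tendsto_rpow_atTop hA).eventually_ge_atTop (max B₀ 1)]
    with X hX1 hX5 hX8 hXA
  have hX0 : 0 < X := by linarith
  obtain ⟨B, hB⟩ : ∃ B, B = (4 * X) ^ A := ⟨_, rfl⟩
  have hBX : X ^ A ≤ B := by rw [hB]; exact Real.rpow_le_rpow hX0.le (by linarith) hA.le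
  have hB1 : 1 ≤ B := (le_max_right _ _).trans (hXA.trans hBX)
  have hBB₀ : B₀ ≤ B := (le_max_left _ _).trans (hXA.trans hBX)
  obtain ⟨hfin, hcard⟩ := hcount B hB1
  obtain ⟨W, hW⟩ : ∃ W, W = hfin.toFinset := ⟨_, rfl⟩
  have hWc : (W.card : ℝ) ≤ C * B ^ γ := by
    rw [hW, ← Set.ncard_eq_toFinset_card _ hfin]
    exact hcard
  have hWu : ∀ t ∈ W, 1 ≤ u t ∧ (u t : ℝ) ≤ B ^ J := by
    intro t ht
    rw [hW, Set.Finite.mem_toFinset] at ht
    exact hu B hBB₀ t ht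
  obtain ⟨N, hN⟩ : ∃ N, N = ⌊(5 * X) ^ (K + 1)⌋₊ := ⟨_, rfl⟩
  have hNle : (N : ℝ) ≤ (5 * X) ^ (K + 1) := by rw [hN]; exact Nat.floor_le (by positivity)
  have hNX : (N : ℝ) < X ^ (K + 2) := by
    refine hNle.trans_lt ?_
    rw [mul_pow, pow_succ X (K + 1), mul_comm (X ^ (K + 1)) X]
    exact mul_lt_mul_of_pos_right hX5 (by positivity)
  obtain ⟨V, hV⟩ : ∃ V, V = ⌊(4 * X) ^ c⌋₊ := ⟨_, rfl⟩
  have hVle : (V : ℝ) ≤ (4 * X) ^ c := by rw [hV]; exact Nat.floor_le (by positivity)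
  have h4c1 : 1 ≤ (4 * X) ^ c := Real.one_le_rpow (by linarith) hc.le
  have hXω : 1 ≤ X ^ ω := Real.one_le_rpow (by linarith) hω
  obtain ⟨R, hR⟩ : ∃ R : ℕ → Prop, R = fun b => X ^ ω < ((W.filter fun t => b ∣ u t).card : ℝ) := ⟨_, rfl⟩
  have hcore := near_core R K N V X (by linarith) hNX ⌊4 * X⌋₊
  have hRc : (((range (N + 1)).filter R).card : ℝ) * X ^ ω ≤ C * C₂ * (4 * X) ^ (A * (γ + J * ε)) := by
    have h1 : (((range (N + 1)).filter R).card : ℝ) * X ^ ω ≤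
        ∑ b ∈ (range (N + 1)).filter R, ((W.filter fun t => b ∣ u t).card : ℝ) := by
      rw [← nsmul_eq_mul]
      refine card_nsmul_le_sum _ _ _ fun b hb => ?_
      rw [mem_filter, hR] at hb
      exact le_of_lt hb.2
    have h2 : ∑ b ∈ (range (N + 1)).filter R, (W.filter fun t => b ∣ u t).card =
        ∑ t ∈ W, (((range (N + 1)).filter R).filter fun b => b ∣ u t).card := by
      have := sum_card_bipartiteAbove_eq_sum_card_bipartiteBelow (s := (range (N + 1)).filter R) (t := W)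
        (fun b t => b ∣ u t)
      unfold bipartiteAbove bipartiteBelow at this
      exact this
    have h3 : ∀ t ∈ W, ((((range (N + 1)).filter R).filter fun b => b ∣ u t).card : ℝ) ≤ C₂ * B ^ (J * ε) := by
      intro t ht
      obtain ⟨h4, h5⟩ := hWu t ht
      have h6 : (((range (N + 1)).filter R).filter fun b => b ∣ u t) ⊆ (u t).divisors := by
        intro b hb
        rw [mem_filter] at hb
        exact Nat.mem_divisors.2 ⟨hb.2, by omega⟩
      calc ((((range (N + 1)).filter R).filter fun b => b ∣ u t).card : ℝ) ≤ ((u t).divisors.card : ℝ) := by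
            exact_mod_cast card_le_card h6
        _ ≤ C₂ * (u t : ℝ) ^ ε := hdiv (u t) h4
        _ ≤ C₂ * B ^ (J * ε) := by
            apply mul_le_mul_of_nonneg_left _ hC₂.le
            rw [Real.rpow_mul (by linarith), Real.rpow_natCast]
            exact Real.rpow_le_rpow (Nat.cast_nonneg _) h5 hε0.le
    refine h1.trans ?_
    rw [← Nat.cast_sum, h2, Nat.cast_sum]
    calc ∑ t ∈ W, ((((range (N + 1)).filter R).filter fun b => b ∣ u t).card : ℝ)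
        ≤ ∑ _t ∈ W, C₂ * B ^ (J * ε) := sum_le_sum h3
      _ = W.card * (C₂ * B ^ (J * ε)) := by rw [sum_const, nsmul_eq_mul]
      _ ≤ (C * B ^ γ) * (C₂ * B ^ (J * ε)) := mul_le_mul_of_nonneg_right hWc (by positivity)
      _ = C * C₂ * B ^ (γ + J * ε) := by
          rw [Real.rpow_add (by linarith)]
          ring
      _ = C * C₂ * (4 * X) ^ (A * (γ + J * ε)) := by rw [hB, ← Real.rpow_mul (by positivity)]
  have hsub : ((Icc 1 ⌊4 * X⌋₊).filter fun p : ℕ => p.Prime ∧ X < p ∧ ¬ FewDiv E u A ω c p) ⊆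
      (Icc 1 ⌊4 * X⌋₊).filter fun p : ℕ => p.Prime ∧ X < p ∧
        ∃ n b : ℕ, 1 ≤ n ∧ n ≤ N ∧ p ∣ n ∧ b ≤ N ∧ R b ∧ n ≤ b + V ∧ b ≤ n + V := by
    intro p hp
    rw [mem_filter, mem_Icc] at hp ⊢
    obtain ⟨hp14, hpp, hXp, hg⟩ := hp
    unfold FewDiv at hg
    push Not at hg
    obtain ⟨k, r, hk1, hkr, hlarge⟩ := hg
    have hp4 : (p : ℝ) ≤ 4 * X := (Nat.le_floor_iff (by linarith)).1 hp14.2
    have hpr0 : (0 : ℝ) < p := by linarith
    have hpr1 : (1 : ℝ) ≤ p := by linarith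
    refine ⟨hp14, hpp, hXp, ?_⟩
    have hpc : (p : ℝ) ^ c ≤ (4 * X) ^ c := Real.rpow_le_rpow hpr0.le hp4 hc.le
    have hpc1 : (4 * X) ^ c ≤ 4 * X := by
      calc (4 * X) ^ c ≤ (4 * X) ^ (1 : ℝ) := Real.rpow_le_rpow_of_exponent_le (by linarith) hc1
        _ = 4 * X := Real.rpow_one _
    obtain ⟨h1, h2⟩ := near_nat r k p V ((4 * X) ^ c) (hkr.trans hpc) hV
    have hpAB : (p : ℝ) ^ A ≤ B := by rw [hB]; exact Real.rpow_le_rpow hpr0.le hp4 hA.le
    have hsubW : {t | t ∈ E ((p : ℝ) ^ A) ∧ r ∣ u t} ⊆ ((W.filter fun t => r ∣ u t : Finset T) : Set T) := by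
      intro t ht
      rw [mem_coe, mem_filter, hW, Set.Finite.mem_toFinset]
      exact ⟨hE _ _ hpAB ht.1, ht.2⟩
    have hle : ({t | t ∈ E ((p : ℝ) ^ A) ∧ r ∣ u t}.ncard : ℝ) ≤ ((W.filter fun t => r ∣ u t).card : ℝ) := by
      rw [Nat.cast_le, ← Set.ncard_coe_finset]
      exact Set.ncard_le_ncard hsubW (finite_toSet _)
    have hRr : R r := by
      rw [hR]
      have h3 : X ^ ω ≤ (p : ℝ) ^ ω := Real.rpow_le_rpow hX0.le hXp.le hω
      exact lt_of_le_of_lt h3 (lt_of_lt_of_le hlarge hle)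
    have hne : (W.filter fun t => r ∣ u t).Nonempty := by
      rw [← card_pos]
      have h3 : (1 : ℝ) < ((W.filter fun t => r ∣ u t).card : ℝ) := by
        have h4 : 1 ≤ (p : ℝ) ^ ω := Real.one_le_rpow hpr1 hω
        linarith
      have h4 : 1 < (W.filter fun t => r ∣ u t).card := by exact_mod_cast h3
      omega
    obtain ⟨t, ht⟩ := hne
    rw [mem_filter] at ht
    obtain ⟨hu1, hu2⟩ := hWu t ht.1
    have hru' : (r : ℝ) ≤ (4 * X) ^ K := by
      have h3 : r ≤ u t := Nat.le_of_dvd hu1 ht.2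
      have h4 : (r : ℝ) ≤ B ^ J := le_trans (by exact_mod_cast h3) hu2
      refine h4.trans ?_
      calc B ^ J = (4 * X) ^ (J * A) := by
            rw [hB, ← Real.rpow_natCast ((4 * X) ^ A) J, ← Real.rpow_mul (by positivity)]
            congr 1
            ring
        _ ≤ (4 * X) ^ (K : ℝ) := Real.rpow_le_rpow_of_exponent_le (by linarith) hK
        _ = (4 * X) ^ K := Real.rpow_natCast _ _
    have h45 : (4 * X) ^ K + 4 * X ≤ (5 * X) ^ (K + 1) := by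
      have h5 : (4 * X) ^ K ≤ (5 * X) ^ K := pow_le_pow_left₀ (by positivity) (by linarith) K
      have h6 : 1 ≤ (5 * X) ^ K := one_le_pow₀ (by linarith)
      have h7 : (5 * X) ^ (K + 1) = (5 * X) ^ K * (5 * X) := pow_succ _ _
      rw [h7]
      nlinarith
    have hrN : r ≤ N := by
      rw [hN]
      refine Nat.le_floor ?_
      linarith
    have hkN : k * p ≤ N := by
      rw [hN]
      refine Nat.le_floor ?_
      have h3 : ((k * p : ℕ) : ℝ) ≤ ((r + V : ℕ) : ℝ) := by exact_mod_cast h1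
      push_cast at h3 ⊢
      linarith
    exact ⟨k * p, r, Nat.mul_pos (by omega) hpp.pos, hkN, dvd_mul_left _ _, hrN, hRr, h1, h2⟩
  have h1 : (((Icc 1 ⌊4 * X⌋₊).filter fun p : ℕ => p.Prime ∧ X < p ∧ ¬ FewDiv E u A ω c p).card : ℝ) ≤
      (K + 1) * ((((range (N + 1)).filter R).card : ℝ) * (2 * V + 1)) := by
    have h2 := (card_le_card hsub).trans hcore
    have h3 : (((Icc 1 ⌊4 * X⌋₊).filter fun p : ℕ => p.Prime ∧ X < p ∧ ¬ FewDiv E u A ω c p).card : ℝ) ≤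
      (((K + 1) * (((range (N + 1)).filter R).card * (2 * V + 1)) : ℕ) : ℝ) := by exact_mod_cast h2
    refine h3.trans (le_of_eq ?_)
    push_cast
    ring
  refine h1.trans ?_
  have hXω0 : 0 < X ^ ω := by linarith
  have hRc' : (((range (N + 1)).filter R).card : ℝ) ≤ C * C₂ * (4 * X) ^ (A * (γ + J * ε)) * X ^ (-ω) := by
    rw [Real.rpow_neg hX0.le, ← div_eq_mul_inv, le_div_iff₀ hXω0]
    exact hRc
  calc (K + 1) * ((((range (N + 1)).filter R).card : ℝ) * (2 * V + 1))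
      ≤ (K + 1) * ((C * C₂ * (4 * X) ^ (A * (γ + J * ε)) * X ^ (-ω)) * (3 * (4 * X) ^ c)) := by
        apply mul_le_mul_of_nonneg_left _ (by positivity)
        exact mul_le_mul hRc' (by linarith) (by positivity) (by positivity)
    _ = (K + 1) * (C * C₂ * 3 * (4 * X) ^ e) * X ^ (-ω) := by
        rw [he, Real.rpow_add (by positivity)]
        ring
    _ = (K + 1) * (C * C₂ * 3 * 4 ^ e) * (X ^ e * X ^ (-ω)) := by
        rw [Real.mul_rpow (by norm_num) hX0.le]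
        ring
    _ = (K + 1) * (C * C₂ * 3 * 4 ^ e) * X ^ (e - ω) := by
        rw [← Real.rpow_add hX0, sub_eq_add_neg]
    _ ≤ X ^ (1 - κ - (e - ω)) * X ^ (e - ω) := mul_le_mul_of_nonneg_right hX1 (by positivity)
    _ = X ^ (1 - κ) := by
        rw [← Real.rpow_add hX0]
        congr 1
        ring

/-- strings of primes with few exceptional objects divisible by the numbers near their multiples -/
theorem few_strings {T : Type*} (E : ℝ → Set T) (hE : ∀ B B' : ℝ, B ≤ B' → E B ⊆ E B') (u : T → ℕ) (J : ℕ)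
    (hJ : 1 ≤ J) (B₀ : ℝ) (hu : ∀ B : ℝ, B₀ ≤ B → ∀ t ∈ E B, 1 ≤ u t ∧ (u t : ℝ) ≤ B ^ J)
    (A γ C ω : ℝ) (hA : 0 < A) (hγ : 0 ≤ γ) (hω : 0 ≤ ω) (hlt : A * γ < 1 + ω)
    (hcount : ∀ B : ℝ, 1 ≤ B → (E B).Finite ∧ ((E B).ncard : ℝ) ≤ C * B ^ γ) :
    ∃ c : ℝ, 0 < c ∧ c ≤ 1 / 4 ∧
    ∀ κ : ℝ, 0 < κ → ∀ m : ℕ, ∃ c' : ℝ, 0 < c' ∧
    ∀ Z : ℕ, ∃ D : ℕ, ∃ X₀ : ℝ, ∀ X : ℝ, X₀ ≤ X →
    ∃ S : Finset ℕ, (∀ q ∈ S, q.Prime ∧ Z < q) ∧ (S.card : ℝ) ≤ (Real.log X) ^ (49 / 50 : ℝ) ∧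
    ∀ f : ℕ → ℤ, (∀ q, f q = 1 ∨ f q = -1) →
      X ^ (1 - κ) ≤ (((Icc 1 ⌊3 * X⌋₊).filter fun n : ℕ => X < n ∧
        m ≤ ((Icc n (n + D)).filter Nat.Prime).card ∧
        ∀ p ∈ Icc n (n + D), p.Prime → FewDiv E u A ω c p ∧
          ∀ q : ℕ, q.Prime → q ≠ 2 → (q : ℝ) ≤ c' * Real.log X → q ∉ S → jacobiSym p q = f q).card : ℝ) := by
  obtain ⟨s, hs⟩ : ∃ s, s = min 1 (1 + ω - A * γ) := ⟨_, rfl⟩
  have hs0 : 0 < s := by rw [hs]; exact lt_min one_pos (by linarith)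
  have hs1 : s ≤ 1 := by rw [hs]; exact min_le_left _ _
  have hs2 : s ≤ 1 + ω - A * γ := by rw [hs]; exact min_le_right _ _
  refine ⟨s / 4, by positivity, by linarith, fun κ hκ m => ?_⟩
  exact strings_of (FewDiv E u A ω (s / 4)) (s / 4) (by positivity)
    (few_bad E hE u J hJ B₀ hu A γ C ω (s / 4) (s / 4) hA hγ hω (by positivity) (by linarith) (by linarith) hcount) κ hκ m

end Pool.Agent.Q84.NX
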