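import Pool.Agent.Q84.NX.Dy

/-!
# Primes which divide an exceptional number
-/

set_option autoImplicit false

namespace Pool.Agent.Q84.NX

open Finset Filter
open Pool.Agent.Q138.PS (cn)

open Classical in
/-- few primes divide an exceptional number of size at most `p ^ (1 + δ)` -/
theorem mult_bad (R : ℕ → Prop) (C δ₀ δ η : ℝ) (hδ : 0 < δ) (hδ1 : δ < 1) (hδ₀ : δ₀ ≤ 1)
    (hη : (1 + δ) * (1 - δ₀) < 1 - η) (hR : ∀ k, R k → 1 ≤ k)
    (hC : ∀ Y : ℕ, 1 ≤ Y → cn R Y ≤ C * (Y : ℝ) ^ (1 - δ₀)) :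
    ∀ᶠ X : ℝ in atTop, (((Icc 1 ⌊4 * X⌋₊).filter fun p : ℕ => p.Prime ∧ X < p ∧
      ∃ k : ℕ, R k ∧ p ∣ k ∧ (k : ℝ) ≤ (p : ℝ) ^ (1 + δ)).card : ℝ) ≤ X ^ (1 - η) := by
  have h1 : (0 : ℝ) < 1 - η - (1 + δ) * (1 - δ₀) := by linarith
  filter_upwards [(tendsto_rpow_atTop h1).eventually_ge_atTop (|C| * 4 ^ ((1 + δ) * (1 - δ₀))),
    (tendsto_rpow_atTop (by linarith : (0 : ℝ) < 1 - δ)).eventually_gt_atTop ((4 : ℝ) ^ (1 + δ)),
    eventually_ge_atTop (8 : ℝ)] with X hX1 hX2 hX8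
  have hX0 : 0 < X := by linarith
  obtain ⟨N, hN⟩ : ∃ N, N = ⌊(4 * X) ^ (1 + δ)⌋₊ := ⟨_, rfl⟩
  have h4s : 1 ≤ (4 * X) ^ (1 + δ) := Real.one_le_rpow (by linarith) (by linarith)
  have hN1 : 1 ≤ N := by rw [hN]; exact Nat.le_floor (by push_cast; exact h4s)
  have hNle : (N : ℝ) ≤ (4 * X) ^ (1 + δ) := by rw [hN]; exact Nat.floor_le (by positivity)
  have hNX : (N : ℝ) < X * X := by
    refine hNle.trans_lt ?_
    rw [Real.mul_rpow (by norm_num) hX0.le]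
    have e : X * X = X ^ (1 - δ) * X ^ (1 + δ) := by
      rw [← Real.rpow_add hX0, show (1 - δ) + (1 + δ) = (2 : ℕ) by push_cast; ring, Real.rpow_natCast]
      ring
    rw [e]
    exact mul_lt_mul_of_pos_right hX2 (by positivity)
  obtain ⟨P, hP⟩ : ∃ P, P = (Icc 1 ⌊4 * X⌋₊).filter fun p : ℕ => p.Prime ∧ X < p ∧
      ∃ k : ℕ, R k ∧ p ∣ k ∧ (k : ℝ) ≤ (p : ℝ) ^ (1 + δ) := ⟨_, rfl⟩
  rw [← hP]
  have hPm : ∀ p ∈ P, p.Prime ∧ X < p ∧ ∃ k : ℕ, R k ∧ p ∣ k ∧ k ≤ N := by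
    intro p hp
    rw [hP, mem_filter, mem_Icc] at hp
    obtain ⟨⟨_, hp4⟩, hpp, hXp, k, hk1, hk2, hk3⟩ := hp
    refine ⟨hpp, hXp, k, hk1, hk2, ?_⟩
    rw [hN]
    refine Nat.le_floor (hk3.trans ?_)
    exact Real.rpow_le_rpow (Nat.cast_nonneg _) ((Nat.le_floor_iff (by linarith)).1 hp4) (by linarith)
  choose! g hg using fun p (hp : p ∈ P) => (hPm p hp).2.2
  have hinj : Set.InjOn g P := by
    intro p hp p' hp' he
    by_contra hne
    obtain ⟨h5, h6, _⟩ := hPm p hp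
    obtain ⟨h5', h6', _⟩ := hPm p' hp'
    have hco : Nat.Coprime p p' := (Nat.coprime_primes h5 h5').2 hne
    have hd : p * p' ∣ g p := hco.mul_dvd_of_dvd_of_dvd (hg p hp).2.1 (he ▸ (hg p' hp').2.1)
    have h7 : p * p' ≤ g p := Nat.le_of_dvd (hR _ (hg p hp).1) hd
    have h8 : ((p * p' : ℕ) : ℝ) ≤ N := by exact_mod_cast h7.trans (hg p hp).2.2
    push_cast at h8
    have h9 : X * X < (p : ℝ) * p' := by
      exact mul_lt_mul'' h6 h6' hX0.le hX0.le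
    linarith
  have hcard : (P.card : ℝ) ≤ cn R N := by
    unfold cn
    rw [Nat.cast_le, ← card_image_of_injOn hinj]
    apply card_le_card
    intro k hk
    obtain ⟨p, hp, rfl⟩ := mem_image.1 hk
    rw [mem_filter, mem_Icc]
    exact ⟨⟨hR _ (hg p hp).1, (hg p hp).2.2⟩, (hg p hp).1⟩
  refine hcard.trans ((hC N hN1).trans ?_)
  have h10 : C * (N : ℝ) ^ (1 - δ₀) ≤ |C| * ((4 * X) ^ (1 + δ)) ^ (1 - δ₀) := by
    apply mul_le_mul (le_abs_self C) _ (by positivity) (abs_nonneg C)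
    exact Real.rpow_le_rpow (Nat.cast_nonneg _) hNle (by linarith)
  refine h10.trans ?_
  rw [← Real.rpow_mul (by positivity), Real.mul_rpow (by norm_num) hX0.le]
  have e : X ^ (1 - η) = X ^ (1 - η - (1 + δ) * (1 - δ₀)) * X ^ ((1 + δ) * (1 - δ₀)) := by
    rw [← Real.rpow_add hX0]
    congr 1
    ring
  rw [e, ← mul_assoc]
  exact mul_le_mul_of_nonneg_right hX1 (by positivity)

end Pool.Agent.Q84.NX
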