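import Mathlib

/-!
# Primes with an exceptional number near one of their multiples
-/

set_option autoImplicit false

namespace Pool.Agent.Q84.NX

open Finset Filter

/-- a number below `X ^ (K + 2)` has at most `K + 1` prime factors larger than `X` -/
theorem few_large_factors (K : ℕ) (X : ℝ) (hX : 1 ≤ X) (n : ℕ) (hn : 1 ≤ n) (hnX : (n : ℝ) < X ^ (K + 2))
    (P : Finset ℕ) (hP : ∀ p ∈ P, p.Prime ∧ X < p ∧ p ∣ n) : P.card ≤ K + 1 := by
  by_contra hc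
  push Not at hc
  have h1 : ∏ p ∈ P, p ∣ n := by
    apply Finset.prod_primes_dvd
    · exact fun p hp => (hP p hp).1.prime
    · exact fun p hp => (hP p hp).2.2
  have h2 : ∏ p ∈ P, p ≤ n := Nat.le_of_dvd (by omega) h1
  have h3 : X ^ P.card ≤ ((∏ p ∈ P, p : ℕ) : ℝ) := by
    push_cast
    calc X ^ P.card = ∏ _p ∈ P, X := by rw [prod_const]
      _ ≤ ∏ p ∈ P, (p : ℝ) := prod_le_prod (fun _ _ => by linarith) fun p hp => (hP p hp).2.1.le
  have h4 : X ^ (K + 2) ≤ X ^ P.card := pow_le_pow_right₀ hX (by omega)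
  have h5 : ((∏ p ∈ P, p : ℕ) : ℝ) ≤ n := by exact_mod_cast h2
  linarith

open Classical in
/-- few primes `p` have an exceptional number at distance at most `p ^ θ` from one of the multiples
`k p`, `1 ≤ k ≤ p ^ K` -/
theorem near_bad (R : ℕ → Prop) (K : ℕ) (ε θ η : ℝ) (hε : 0 ≤ ε) (hθ : 0 ≤ θ) (hθ1 : θ ≤ 1)
    (h : (K + 1) * ε + θ < 1 - η)
    (hC : ∃ x₀ : ℕ, ∀ x : ℕ, x₀ ≤ x → (((range (x + 1)).filter R).card : ℝ) ≤ (x : ℝ) ^ ε) :
    ∀ᶠ X : ℝ in atTop, (((Icc 1 ⌊4 * X⌋₊).filter fun p : ℕ => p.Prime ∧ X < p ∧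
      ∃ k b : ℕ, 1 ≤ k ∧ k ≤ p ^ K ∧ R b ∧ |(b : ℝ) - k * p| ≤ (p : ℝ) ^ θ).card : ℝ) ≤ X ^ (1 - η) := by
  obtain ⟨x₀, hx₀⟩ := hC
  have h1 : (0 : ℝ) < 1 - η - ((K + 1) * ε + θ) := by linarith
  filter_upwards [(tendsto_rpow_atTop h1).eventually_ge_atTop ((K + 1) * (8 ^ ((K + 1) * ε) * (3 * 4))),
    eventually_gt_atTop ((8 : ℝ) ^ (K + 1)), eventually_ge_atTop (8 : ℝ), eventually_ge_atTop (x₀ : ℝ)] with X hX1 hX2 hX8 hXx
  have hX0 : 0 < X := by linarith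
  obtain ⟨N, hN⟩ : ∃ N, N = ⌊(8 * X) ^ (K + 1)⌋₊ := ⟨_, rfl⟩
  have hNle : (N : ℝ) ≤ (8 * X) ^ (K + 1) := by rw [hN]; exact Nat.floor_le (by positivity)
  have hNX : (N : ℝ) < X ^ (K + 2) := by
    refine hNle.trans_lt ?_
    rw [mul_pow, pow_succ X (K + 1), mul_comm (X ^ (K + 1)) X]
    exact mul_lt_mul_of_pos_right hX2 (by positivity)
  have hNx : x₀ ≤ N := by
    rw [hN]
    refine Nat.le_floor ?_
    refine hXx.trans ?_
    calc X ≤ 8 * X := by linarith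
      _ = (8 * X) ^ 1 := (pow_one _).symm
      _ ≤ (8 * X) ^ (K + 1) := pow_le_pow_right₀ (by linarith) (by omega)
  -- the exceptional numbers and their neighbours
  obtain ⟨W, hW⟩ : ∃ W, W = ⌊(4 * X) ^ θ⌋₊ := ⟨_, rfl⟩
  have hWle : (W : ℝ) ≤ (4 * X) ^ θ := by rw [hW]; exact Nat.floor_le (by positivity)
  obtain ⟨B, hB⟩ : ∃ B, B = (range (N + 1)).filter R := ⟨_, rfl⟩
  obtain ⟨M, hM⟩ : ∃ M, M = (B.biUnion fun b => (Icc (b - W) (b + W))).filter fun n => 1 ≤ n ∧ n ≤ N := ⟨_, rfl⟩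
  have hBc : (B.card : ℝ) ≤ (8 * X) ^ ((K + 1) * ε) := by
    rw [hB]
    refine (hx₀ N hNx).trans ?_
    calc (N : ℝ) ^ ε ≤ ((8 * X) ^ (K + 1)) ^ ε := Real.rpow_le_rpow (Nat.cast_nonneg _) hNle hε
      _ = (8 * X) ^ ((K + 1) * ε) := by
          rw [← Real.rpow_natCast, ← Real.rpow_mul (by positivity)]
          push_cast
          rfl
  have hMc : (M.card : ℝ) ≤ (8 * X) ^ ((K + 1) * ε) * (3 * (4 * X) ^ θ) := by
    have h2 : M.card ≤ B.card * (2 * W + 1) := by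
      rw [hM]
      refine (card_filter_le _ _).trans ?_
      refine card_biUnion_le_card_mul _ _ _ fun b _ => ?_
      rw [Nat.card_Icc]
      omega
    have h3 : (1 : ℝ) ≤ (4 * X) ^ θ := Real.one_le_rpow (by linarith) hθ
    calc (M.card : ℝ) ≤ B.card * (2 * W + 1) := by exact_mod_cast h2
      _ ≤ (8 * X) ^ ((K + 1) * ε) * (3 * (4 * X) ^ θ) := by
          apply mul_le_mul hBc _ (by positivity) (by positivity)
          linarith
  obtain ⟨P, hP⟩ : ∃ P, P = (Icc 1 ⌊4 * X⌋₊).filter fun p : ℕ => p.Prime ∧ X < p ∧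
      ∃ k b : ℕ, 1 ≤ k ∧ k ≤ p ^ K ∧ R b ∧ |(b : ℝ) - k * p| ≤ (p : ℝ) ^ θ := ⟨_, rfl⟩
  rw [← hP]
  -- each prime divides an element of `M`
  have hsub : P ⊆ M.biUnion fun n => P.filter fun p => p ∣ n := by
    intro p hp
    have hp0 := hp
    rw [hP, mem_filter, mem_Icc] at hp
    obtain ⟨⟨_, hp4⟩, hpp, hXp, k, b, hk1, hk2, hb, hkb⟩ := hp
    have hp4' : (p : ℝ) ≤ 4 * X := (Nat.le_floor_iff (by linarith)).1 hp4
    have hp1 : (1 : ℝ) ≤ p := by exact_mod_cast hpp.one_lt.le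
    have hpθ : (p : ℝ) ^ θ ≤ p := by
      calc (p : ℝ) ^ θ ≤ (p : ℝ) ^ (1 : ℝ) := Real.rpow_le_rpow_of_exponent_le hp1 hθ1
        _ = p := Real.rpow_one _
    have hkp : (k : ℝ) * p ≤ (p : ℝ) ^ (K + 1) := by
      have : ((k * p : ℕ) : ℝ) ≤ ((p ^ K * p : ℕ) : ℝ) := by
        exact_mod_cast Nat.mul_le_mul_right _ hk2
      push_cast at this
      rw [pow_succ]
      exact this
    have hK4 : (p : ℝ) ^ (K + 1) ≤ (4 * X) ^ (K + 1) := pow_le_pow_left₀ (by linarith) hp4' _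
    have hp5 : (4 * X) ^ (K + 1) + 4 * X ≤ 2 * (4 * X) ^ (K + 1) := by
      have : 4 * X ≤ (4 * X) ^ (K + 1) := by
        calc 4 * X = (4 * X) ^ 1 := (pow_one _).symm
          _ ≤ (4 * X) ^ (K + 1) := pow_le_pow_right₀ (by linarith) (by omega)
      linarith
    have hp8 : 2 * (4 * X) ^ (K + 1) ≤ (8 * X) ^ (K + 1) := by
      have e : (8 * X) ^ (K + 1) = 2 ^ (K + 1) * (4 * X) ^ (K + 1) := by
        rw [← mul_pow]
        congr 1
        ring
      rw [e]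
      apply mul_le_mul_of_nonneg_right _ (by positivity)
      calc (2 : ℝ) = 2 ^ 1 := (pow_one _).symm
        _ ≤ 2 ^ (K + 1) := pow_le_pow_right₀ (by norm_num) (by omega)
    have hkpN : k * p ≤ N := by
      rw [hN]
      refine Nat.le_floor ?_
      push_cast
      have : 0 ≤ 4 * X := by positivity
      linarith
    have hbN : b ≤ N := by
      rw [hN]
      refine Nat.le_floor ?_
      have := (abs_le.1 hkb).2
      linarith
    have hWp : |(b : ℝ) - ((k * p : ℕ) : ℝ)| ≤ W := by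
      have h6 : (p : ℝ) ^ θ ≤ (4 * X) ^ θ := Real.rpow_le_rpow (by linarith) hp4' hθ
      have h7 : |(b : ℝ) - ((k * p : ℕ) : ℝ)| ≤ (4 * X) ^ θ := by
        push_cast
        exact hkb.trans h6
      have h8 : |(b : ℝ) - ((k * p : ℕ) : ℝ)| = ((|(b : ℤ) - ((k * p : ℕ) : ℤ)|.toNat : ℕ) : ℝ) := by
        have h9 : ((|(b : ℤ) - ((k * p : ℕ) : ℤ)|.toNat : ℕ) : ℤ) = |(b : ℤ) - ((k * p : ℕ) : ℤ)| :=
          Int.toNat_of_nonneg (abs_nonneg _)
        have h10 : (((|(b : ℤ) - ((k * p : ℕ) : ℤ)|.toNat : ℕ) : ℤ) : ℝ) =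
            ((|(b : ℤ) - ((k * p : ℕ) : ℤ)| : ℤ) : ℝ) := by rw [h9]
        rw [Int.cast_natCast] at h10
        rw [h10]
        push_cast
        rfl
      rw [h8] at h7 ⊢
      rw [hW]
      exact_mod_cast Nat.le_floor h7
    rw [mem_biUnion]
    refine ⟨k * p, ?_, mem_filter.2 ⟨hp0, dvd_mul_left _ _⟩⟩
    rw [hM, mem_filter, mem_biUnion]
    refine ⟨⟨b, ?_, ?_⟩, Nat.mul_pos (by omega) hpp.pos, hkpN⟩
    · rw [hB, mem_filter, mem_range]
      exact ⟨by omega, hb⟩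
    · have h11 := abs_le.1 hWp
      have h12 : (b : ℝ) ≤ ((k * p + W : ℕ) : ℝ) := by push_cast at h11 ⊢; linarith
      have h13 : ((k * p : ℕ) : ℝ) ≤ ((b + W : ℕ) : ℝ) := by push_cast at h11 ⊢; linarith
      have h14 : b ≤ k * p + W := by exact_mod_cast h12
      have h15 : k * p ≤ b + W := by exact_mod_cast h13
      rw [mem_Icc]
      omega
  have hPc : (P.card : ℝ) ≤ (K + 1) * M.card := by
    have h2 : P.card ≤ M.card * (K + 1) := by
      refine (card_le_card hsub).trans ?_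
      refine card_biUnion_le_card_mul _ _ _ fun n hn => ?_
      rw [hM, mem_filter] at hn
      refine few_large_factors K X (by linarith) n hn.2.1 ?_ _ fun p hp => ?_
      · have : (n : ℝ) ≤ N := by exact_mod_cast hn.2.2
        linarith
      · rw [mem_filter, hP, mem_filter] at hp
        exact ⟨hp.1.2.1, hp.1.2.2.1, hp.2⟩
    have : (P.card : ℝ) ≤ ((M.card * (K + 1) : ℕ) : ℝ) := by exact_mod_cast h2
    push_cast at this
    linarith
  have h16 : (8 * X) ^ ((K + 1) * ε) = 8 ^ ((K + 1) * ε) * X ^ ((K + 1) * ε) :=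
    Real.mul_rpow (by norm_num) hX0.le
  have h17 : (4 * X) ^ θ ≤ 4 * X ^ θ := by
    rw [Real.mul_rpow (by norm_num) hX0.le]
    apply mul_le_mul_of_nonneg_right _ (by positivity)
    calc (4 : ℝ) ^ θ ≤ 4 ^ (1 : ℝ) := Real.rpow_le_rpow_of_exponent_le (by norm_num) hθ1
      _ = 4 := Real.rpow_one _
  calc (P.card : ℝ) ≤ (K + 1) * M.card := hPc
    _ ≤ (K + 1) * ((8 * X) ^ ((K + 1) * ε) * (3 * (4 * X) ^ θ)) :=
        mul_le_mul_of_nonneg_left hMc (by positivity)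
    _ ≤ (K + 1) * ((8 ^ ((K + 1) * ε) * X ^ ((K + 1) * ε)) * (3 * (4 * X ^ θ))) := by
        rw [h16]
        gcongr
    _ = ((K + 1) * (8 ^ ((K + 1) * ε) * (3 * 4))) * X ^ ((K + 1) * ε + θ) := by
        rw [Real.rpow_add hX0]
        ring
    _ ≤ X ^ (1 - η - ((K + 1) * ε + θ)) * X ^ ((K + 1) * ε + θ) :=
        mul_le_mul_of_nonneg_right hX1 (by positivity)
    _ = X ^ (1 - η) := by
        rw [← Real.rpow_add hX0]
        congr 1
        ring

end Pool.Agent.Q84.NX
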