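import Pool.Agent.H57R3.VJ.B

/-!
# The product of the norms of the primes dividing an element of a number field
-/

set_option autoImplicit false

open scoped Classical

namespace Pool.Agent.Q84.NX

open NumberField Height Finset

variable {K : Type} [Field K] [NumberField K]

/-- the product of the norms of the primes `v` of `K` with `|x|_v < 1` -/
noncomputable def rad (x : K) : ℕ :=
  ∏ᶠ v : FinitePlace K, if v x < 1 then Ideal.absNorm v.maximalIdeal.asIdeal else 1

theorem finite_lt (x : K) (hx : x ≠ 0) : {v : FinitePlace K | v x < 1}.Finite := by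
  have h1 := FinitePlace.hasFiniteMulSupport hx
  have h2 : (Function.mulSupport fun w : FinitePlace K => w x).Finite := h1
  refine h2.subset ?_
  intro v hv
  rw [Function.mem_mulSupport]
  exact ne_of_lt hv

/-- the radical is at most the height -/
theorem rad_le (x : K) (hx : x ≠ 0) : 1 ≤ rad x ∧ (rad x : ℝ) ≤ mulHeight₁ x := by
  obtain ⟨T, hT⟩ : ∃ T, T = (finite_lt x hx).toFinset := ⟨_, rfl⟩
  have hTm : ∀ v, v ∈ T ↔ v x < 1 := by
    intro v
    rw [hT, Set.Finite.mem_toFinset]
    rfl
  have h1 : rad x = ∏ v ∈ T, Ideal.absNorm v.maximalIdeal.asIdeal := by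
    unfold rad
    rw [finprod_eq_prod_of_mulSupport_subset (s := T)]
    · apply prod_congr rfl
      intro v hv
      rw [if_pos ((hTm v).1 hv)]
    · intro v hv
      rw [Function.mem_mulSupport] at hv
      rw [mem_coe, hTm]
      by_contra h
      exact hv (if_neg h)
  have hNN : ∀ v : FinitePlace K, (Ideal.absNorm v.maximalIdeal.asIdeal : ℝ) = Pool.Agent.H57R3.VJ.NN v := fun v => rfl
  constructor
  · rw [h1]
    refine Nat.one_le_iff_ne_zero.2 (prod_ne_zero_iff.2 fun v _ => ?_)
    intro h
    have h2 := Pool.Agent.H57R3.VJ.NN_pos v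
    rw [← hNN, h, Nat.cast_zero] at h2
    exact lt_irrefl _ h2
  · rw [h1, Nat.cast_prod, ← mulHeight₁_inv]
    refine le_trans ?_ (Pool.Agent.H57R3.VJ.prod_le_height (inv_ne_zero hx) T)
    apply prod_le_prod
    · intro v _
      exact Nat.cast_nonneg _
    · intro v hv
      rw [hNN]
      have hv1 := (hTm v).1 hv
      have hv0 : 0 < v x := FinitePlace.pos_iff.2 hx
      have h2 : v (1 : K) < v x⁻¹ := by
        rw [map_one, map_inv₀]
        exact (one_lt_inv₀ hv0).2 hv1
      have h3 := Pool.Agent.H57R3.VJ.gain v one_ne_zero (inv_ne_zero hx) h2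
      rw [map_one, mul_one] at h3
      exact h3.trans (le_max_left _ _)

end Pool.Agent.Q84.NX
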