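import Pool.Agent.Q84.NX.Win

/-!
# Strings of primes without exceptional real numbers near their small multiples
-/

set_option autoImplicit false

open scoped Classical

namespace Pool.Agent.Q84.NX

open Finset Filter

/-- no exceptional real number is within `p ^ c` of a multiple `k p`, `1 ≤ k ≤ p ^ c` -/
def RealFine (B : ℝ → Prop) (c : ℝ) (p : ℕ) : Prop :=
  ∀ (k : ℕ) (x : ℝ), 1 ≤ k → (k : ℝ) ≤ (p : ℝ) ^ c → |x - k * p| ≤ (p : ℝ) ^ c → ¬ B x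

/-- strings of primes without exceptional real numbers near their small multiples -/
theorem real_strings (B : ℝ → Prop) (C μ : ℝ) (hμ : 0 < μ)
    (hB : ∀ H : ℕ, 1 ≤ H → (((Ico 1 (1 + H)).filter fun n : ℕ => ∃ y : ℝ, (n : ℝ) ≤ y ∧ y < n + 1 ∧ B y).card : ℝ) ≤
      C * (H : ℝ) ^ (1 - μ)) :
    ∀ κ : ℝ, 0 < κ → ∀ m : ℕ, ∃ c' : ℝ, 0 < c' ∧
    ∀ Z : ℕ, ∃ D : ℕ, ∃ X₀ : ℝ, ∀ X : ℝ, X₀ ≤ X →
    ∃ S : Finset ℕ, (∀ q ∈ S, q.Prime ∧ Z < q) ∧ (S.card : ℝ) ≤ (Real.log X) ^ (49 / 50 : ℝ) ∧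
    ∀ f : ℕ → ℤ, (∀ q, f q = 1 ∨ f q = -1) →
      X ^ (1 - κ) ≤ (((Icc 1 ⌊3 * X⌋₊).filter fun n : ℕ => X < n ∧
        m ≤ ((Icc n (n + D)).filter Nat.Prime).card ∧
        ∀ p ∈ Icc n (n + D), p.Prime → RealFine B (min μ 1 / 16) p ∧
          ∀ q : ℕ, q.Prime → q ≠ 2 → (q : ℝ) ≤ c' * Real.log X → q ∉ S → jacobiSym p q = f q).card : ℝ) := by
  obtain ⟨δ, hδ⟩ : ∃ δ, δ = min μ 1 := ⟨_, rfl⟩
  have hδ0 : 0 < δ := by rw [hδ]; exact lt_min hμ one_pos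
  have hδ1 : δ ≤ 1 := by rw [hδ]; exact min_le_right _ _
  have hδμ : δ ≤ μ := by rw [hδ]; exact min_le_left _ _
  obtain ⟨R, hR⟩ : ∃ R : ℕ → Prop, R = fun b : ℕ => 1 ≤ b ∧ ∃ y : ℝ, (b : ℝ) ≤ y ∧ y < b + 1 ∧ B y := ⟨_, rfl⟩
  have hcount : ∀ Y : ℕ, (((range (Y + 1)).filter R).card : ℝ) ≤ |C| * ((Y : ℝ) + 1) ^ (1 - δ) := by
    intro Y
    have hYr : (0 : ℝ) ≤ Y := Nat.cast_nonneg _
    have h1 : (((Ico 1 (1 + (Y + 1))).filter fun n : ℕ => ∃ y : ℝ, (n : ℝ) ≤ y ∧ y < n + 1 ∧ B y).card : ℝ) ≤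
        C * ((Y + 1 : ℕ) : ℝ) ^ (1 - μ) := hB (Y + 1) (by omega)
    have h2 : (((range (Y + 1)).filter R).card : ℝ) ≤
        (((Ico 1 (1 + (Y + 1))).filter fun n : ℕ => ∃ y : ℝ, (n : ℝ) ≤ y ∧ y < n + 1 ∧ B y).card : ℝ) := by
      rw [Nat.cast_le]
      apply card_le_card
      intro b hb
      rw [mem_filter, hR, mem_range] at hb
      rw [mem_filter, mem_Ico]
      exact ⟨⟨hb.2.1, by omega⟩, hb.2.2⟩
    refine h2.trans (h1.trans ?_)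
    push_cast
    apply mul_le_mul (le_abs_self C) _ (by positivity) (abs_nonneg _)
    exact Real.rpow_le_rpow_of_exponent_le (by linarith) (by linarith)
  have hbad := win_bad R |C| δ hδ0 hδ1 hcount (δ / 8) (by positivity) le_rfl
  rw [← hδ]
  refine fun κ hκ m => strings_of (RealFine B (δ / 16)) (δ / 2) (by positivity) ?_ κ hκ m
  filter_upwards [hbad, (tendsto_rpow_atTop (by positivity : (0 : ℝ) < δ / 16)).eventually_ge_atTop 2,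
    eventually_ge_atTop (16 : ℝ)] with X hX hX2 hX16
  refine le_trans ?_ hX
  rw [Nat.cast_le]
  apply card_le_card
  intro p hp
  rw [mem_filter, mem_Icc] at hp ⊢
  obtain ⟨hp14, hpp, hXp, hg⟩ := hp
  refine ⟨hp14, hpp, hXp, fun hW => hg ?_⟩
  intro k x hk1 hk2 hkx hBx
  have hpr1 : (1 : ℝ) ≤ p := by linarith
  have hpr0 : (0 : ℝ) < p := by linarith
  have hp2 : 2 ≤ (p : ℝ) ^ (δ / 16) := hX2.trans (Real.rpow_le_rpow (by linarith) hXp.le (by positivity))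
  have hp8 : (p : ℝ) ^ (δ / 8) = (p : ℝ) ^ (δ / 16) * (p : ℝ) ^ (δ / 16) := by
    rw [← Real.rpow_add hpr0]
    congr 1
    ring
  have hpp8 : (p : ℝ) ^ (δ / 16) + 1 ≤ (p : ℝ) ^ (δ / 8) := by
    rw [hp8]
    nlinarith
  have hps : (p : ℝ) ^ (δ / 16) ≤ p / 2 := by
    have h1 : (p : ℝ) ^ (δ / 16) ≤ (p : ℝ) ^ (1 / 2 : ℝ) := Real.rpow_le_rpow_of_exponent_le hpr1 (by linarith)
    rw [← Real.sqrt_eq_rpow] at h1
    refine h1.trans ?_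
    rw [Real.sqrt_le_left (by positivity)]
    nlinarith
  have habs := abs_le.1 hkx
  have hkp : (p : ℝ) ≤ k * p := le_mul_of_one_le_left hpr0.le (by exact_mod_cast hk1)
  have hx8 : 8 ≤ x := by linarith
  have hx0 : 0 ≤ x := by linarith
  have hb1 := Nat.floor_le hx0
  have hb2 := Nat.lt_floor_add_one x
  refine hW k ⌊x⌋₊ hk1 (hk2.trans (by linarith)) ?_ ?_
  · rw [abs_le]
    constructor <;> linarith
  · rw [hR]
    refine ⟨?_, x, hb1, hb2, hBx⟩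
    exact Nat.le_floor (by push_cast; linarith)

end Pool.Agent.Q84.NX
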