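import Pool.Agent.H735CB.LSFinal

/-!
# Short sums of the primitive characters, for almost all moduli

For all moduli `q ∈ (K, 2K]` but at most `K ^ (9/10)`: every primitive character modulo `q` has a sum of absolute value at most
`N ^ (99/100) / 2` over each interval `(u, v]`, `v - u ≤ N`, `u ≤ N ^ (6/5)`, for all `N` with `q ^ η ≤ N ≤ q` (large sieve for the powers
of the sums over the intervals with end points in a lattice).
-/

set_option autoImplicit false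

namespace Pool.Agent.Q84.NX

open Finset

/-- some primitive character modulo `q` has a sum of absolute value at least `V` over the set `E` -/
def Lg (E : Finset ℕ) (V : ℝ) (q : ℕ) : Prop :=
  ∃ χ : DirichletCharacter ℂ q, χ.IsPrimitive ∧ V ≤ ‖∑ m ∈ E, χ (m : ZMod q)‖

open Classical in
/-- the large sieve for a power of the sum -/
theorem lg_count (E : Finset ℕ) (V B : ℝ) (hV : 0 ≤ V) (F Y k : ℕ) (hE : E ⊆ Icc 1 Y)
    (hB : ∀ n ∈ Icc 1 (Y ^ k), (((Fintype.piFinset (fun _ : Fin k => Icc 1 Y)).filter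
      (fun d => ∏ i, d i = n)).card : ℝ) ≤ B) :
    (((Icc 2 F).filter (Lg E V)).card : ℝ) * V ^ (2 * k) ≤
      6 * (((Y ^ k : ℕ) : ℝ) + (F : ℝ) ^ 2) * (B * (E.card : ℝ) ^ k) := by
  obtain ⟨c, hc⟩ : ∃ c : ℕ → ℝ, c = fun m => if m ∈ E then 1 else 0 := ⟨_, rfl⟩
  have hc2 : ∑ m ∈ Icc 1 Y, (c m) ^ 2 = E.card := by
    have h0 : ∀ m ∈ Icc 1 Y, (c m) ^ 2 = if m ∈ E then (1 : ℝ) else 0 := by
      intro m _
      rw [hc]
      by_cases h : m ∈ E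
      · simp [h]
      · simp [h]
    rw [sum_congr rfl h0, Finset.sum_ite_mem, Finset.inter_eq_right.2 hE]
    simp
  have hsum : ∀ (q : ℕ) (χ : DirichletCharacter ℂ q),
      ∑ m ∈ Icc 1 Y, (c m : ℂ) * χ (m : ZMod q) = ∑ m ∈ E, χ (m : ZMod q) := by
    intro q χ
    have h0 : ∀ m ∈ Icc 1 Y, (c m : ℂ) * χ (m : ZMod q) = if m ∈ E then χ (m : ZMod q) else 0 := by
      intro m _
      rw [hc]
      by_cases h : m ∈ E
      · simp [h]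
      · simp [h]
    rw [sum_congr rfl h0, Finset.sum_ite_mem, Finset.inter_eq_right.2 hE]
  have hLS := Pool.Agent.Helper112.mult_large_sieve (Y ^ k) F
    (fun n => (Pool.Agent.H735CB.LSv.al Y k c n : ℂ))
  have h1 : ∑ n ∈ Icc 1 (Y ^ k), ‖((Pool.Agent.H735CB.LSv.al Y k c n : ℝ) : ℂ)‖ ^ 2 ≤ B * (E.card : ℝ) ^ k := by
    rw [← hc2]
    refine le_trans (le_of_eq ?_) (Pool.Agent.H735CB.LSv.sum_al_sq Y k c B hB)
    refine Finset.sum_congr rfl (fun n _ => ?_)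
    rw [Complex.norm_real, Real.norm_eq_abs, sq_abs]
  refine le_trans ?_ (hLS.trans (mul_le_mul_of_nonneg_left h1 (by positivity)))
  obtain ⟨S, hS⟩ : ∃ S, S = (Icc 2 F).filter (Lg E V) := ⟨_, rfl⟩
  rw [← hS]
  calc (S.card : ℝ) * V ^ (2 * k) = ∑ _r ∈ S, V ^ (2 * k) := by
        rw [sum_const, nsmul_eq_mul]
    _ ≤ ∑ f ∈ S, ((f : ℝ) / (Nat.totient f : ℝ)) *
        ∑ χ ∈ (univ : Finset (DirichletCharacter ℂ f)).filter (fun χ => χ.IsPrimitive),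
          ‖∑ n ∈ Icc 1 (Y ^ k), ((Pool.Agent.H735CB.LSv.al Y k c n : ℝ) : ℂ) * χ (n : ZMod f)‖ ^ 2 := by
        apply sum_le_sum
        intro r hr
        rw [hS, mem_filter, mem_Icc] at hr
        obtain ⟨⟨hr2, _⟩, χ, hχ, hχV⟩ := hr
        have hr0 : 0 < r := by omega
        have h4 : (1 : ℝ) ≤ (r : ℝ) / (Nat.totient r : ℝ) := by
          rw [one_le_div (by exact_mod_cast Nat.totient_pos.2 hr0)]
          exact_mod_cast Nat.totient_le r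
        have h5 : V ^ (2 * k) ≤
            ‖∑ n ∈ Icc 1 (Y ^ k), ((Pool.Agent.H735CB.LSv.al Y k c n : ℝ) : ℂ) * χ (n : ZMod r)‖ ^ 2 := by
          rw [← Pool.Agent.H735CB.LSv.pow_expand, hsum, norm_pow, ← pow_mul, mul_comm k 2]
          exact pow_le_pow_left₀ hV hχV _
        have h6 : ‖∑ n ∈ Icc 1 (Y ^ k), ((Pool.Agent.H735CB.LSv.al Y k c n : ℝ) : ℂ) * χ (n : ZMod r)‖ ^ 2 ≤
            ∑ χ ∈ (univ : Finset (DirichletCharacter ℂ r)).filter (fun χ => χ.IsPrimitive),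
              ‖∑ n ∈ Icc 1 (Y ^ k), ((Pool.Agent.H735CB.LSv.al Y k c n : ℝ) : ℂ) * χ (n : ZMod r)‖ ^ 2 :=
          single_le_sum (f := fun χ : DirichletCharacter ℂ r =>
            ‖∑ n ∈ Icc 1 (Y ^ k), ((Pool.Agent.H735CB.LSv.al Y k c n : ℝ) : ℂ) * χ (n : ZMod r)‖ ^ 2)
            (fun _ _ => by positivity) (mem_filter.2 ⟨mem_univ _, hχ⟩)
        refine (h5.trans h6).trans ?_
        exact le_mul_of_one_le_left (sum_nonneg fun _ _ => by positivity) h4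
    _ ≤ _ := by
        apply sum_le_sum_of_subset_of_nonneg
        · intro r hr
          rw [hS, mem_filter, mem_Icc] at hr
          rw [mem_Icc]
          omega
        · intro r _ _
          apply mul_nonneg (by positivity)
          exact sum_nonneg fun _ _ => by positivity

open Classical in
/-- few moduli have a large sum over a given set of at most `3 R` numbers up to `6 R ^ (6/5)` -/
theorem lg_few (η : ℝ) (hη : 0 < η) : ∃ F₀ : ℝ, ∀ F R : ℕ, F₀ ≤ F → (F : ℝ) ^ η ≤ R → R ≤ F →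
    ∀ E : Finset ℕ, E ⊆ Icc 1 ⌊6 * (R : ℝ) ^ (6 / 5 : ℝ)⌋₊ → (E.card : ℝ) ≤ 3 * R →
      (((Icc 2 F).filter (Lg E ((R : ℝ) ^ (99 / 100 : ℝ) / 4))).card : ℝ) ≤ (F : ℝ) ^ (3 / 5 : ℝ) := by
  obtain ⟨K0, hK0⟩ := exists_nat_ge (2 / η)
  obtain ⟨K, hK⟩ : ∃ K, K = K0 + 1 := ⟨_, rfl⟩
  have hK1 : 1 ≤ K := by omega
  have hKη : 2 ≤ η * K := by
    have h1 : 2 / η ≤ K := hK0.trans (by rw [hK]; push_cast; linarith)
    rw [div_le_iff₀ hη] at h1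
    linarith
  obtain ⟨C0, hC00, hdiv⟩ := Pool.Agent.H510R2.divisor_bound ((1 / 1000 : ℝ) / K) (by positivity)
  obtain ⟨C1, hC1⟩ : ∃ C1, C1 = max C0 1 := ⟨_, rfl⟩
  have hC11 : 1 ≤ C1 := hC1 ▸ le_max_right _ _
  have hC01 : C0 ≤ C1 := hC1 ▸ le_max_left _ _
  obtain ⟨C, hC⟩ : ∃ C : ℝ, C = 12 * C1 ^ K * 1728 ^ K := ⟨_, rfl⟩
  have hCpos : 0 < C := by rw [hC]; positivity
  refine ⟨max 2 (C ^ (100 : ℝ)), fun F R hF hR hRF E hE hEc => ?_⟩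
  have hF2 : (2 : ℝ) ≤ F := (le_max_left _ _).trans hF
  have hFC : C ^ (100 : ℝ) ≤ F := (le_max_right _ _).trans hF
  have hF2n : 2 ≤ F := by exact_mod_cast hF2
  have hF0 : (0 : ℝ) < F := by linarith
  have hF1 : (1 : ℝ) ≤ F := by linarith
  have hR1 : (1 : ℝ) ≤ R := (Real.one_le_rpow hF1 hη.le).trans hR
  have hR0 : (0 : ℝ) < R := by linarith
  have hRF' : (R : ℝ) ≤ F := by exact_mod_cast hRF
  obtain ⟨Y, hY⟩ : ∃ Y, Y = ⌊6 * (R : ℝ) ^ (6 / 5 : ℝ)⌋₊ := ⟨_, rfl⟩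
  rw [← hY] at hE
  have hR65 : 1 ≤ (R : ℝ) ^ (6 / 5 : ℝ) := Real.one_le_rpow hR1 (by norm_num)
  have hYle : (Y : ℝ) ≤ 6 * (R : ℝ) ^ (6 / 5 : ℝ) := by rw [hY]; exact Nat.floor_le (by positivity)
  have hYge : (R : ℝ) ^ (6 / 5 : ℝ) ≤ Y := by
    have := Nat.lt_floor_add_one (6 * (R : ℝ) ^ (6 / 5 : ℝ))
    rw [← hY] at this
    linarith
  have hYR : (R : ℝ) ≤ Y := by
    refine le_trans ?_ hYge
    nth_rewrite 1 [← Real.rpow_one (R : ℝ)]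
    exact Real.rpow_le_rpow_of_exponent_le hR1 (by norm_num)
  -- the choice of k
  have hYK : F ^ 2 ≤ Y ^ K := by
    have h1 : (F : ℝ) ^ 2 ≤ (Y : ℝ) ^ K := by
      calc (F : ℝ) ^ 2 = (F : ℝ) ^ (2 : ℝ) := by norm_cast
        _ ≤ (F : ℝ) ^ (η * K) := Real.rpow_le_rpow_of_exponent_le hF1 hKη
        _ = ((F : ℝ) ^ η) ^ K := by rw [Real.rpow_mul hF0.le, Real.rpow_natCast]
        _ ≤ (Y : ℝ) ^ K := pow_le_pow_left₀ (by positivity) (hR.trans hYR) K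
    exact_mod_cast h1
  have hex : ∃ k : ℕ, F ^ 2 ≤ Y ^ k := ⟨K, hYK⟩
  obtain ⟨k, hk⟩ : ∃ k, k = Nat.find hex := ⟨_, rfl⟩
  have hk1 : F ^ 2 ≤ Y ^ k := by rw [hk]; exact Nat.find_spec hex
  have hkK : k ≤ K := by rw [hk]; exact Nat.find_min' hex hYK
  have hk0 : k ≠ 0 := by
    intro h
    rw [h, pow_zero] at hk1
    have : 2 ^ 2 ≤ F ^ 2 := Nat.pow_le_pow_left hF2n 2
    omega
  obtain ⟨j, hj⟩ := Nat.exists_eq_succ_of_ne_zero hk0
  have hj2 : ¬ F ^ 2 ≤ Y ^ j := by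
    have : j < Nat.find hex := by omega
    exact Nat.find_min hex this
  have hj3 : (Y : ℝ) ^ j ≤ (F : ℝ) ^ 2 := by
    exact_mod_cast (not_le.1 hj2).le
  obtain ⟨x, hx⟩ : ∃ x : ℝ, x = (R : ℝ) ^ k := ⟨_, rfl⟩
  have hx1 : 1 ≤ x := by rw [hx]; exact one_le_pow₀ hR1
  have hx0 : 0 < x := by linarith
  -- `R ^ k ≤ F ^ (8/3)`
  have hxF : x ≤ (F : ℝ) ^ (8 / 3 : ℝ) := by
    have h1 : (R : ℝ) ^ j ≤ (F : ℝ) ^ (5 / 3 : ℝ) := by
      have h2 : ((R : ℝ) ^ j) ^ (6 / 5 : ℝ) ≤ (F : ℝ) ^ 2 := by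
        have h3 : ((R : ℝ) ^ j) ^ (6 / 5 : ℝ) = ((R : ℝ) ^ (6 / 5 : ℝ)) ^ j := by
          rw [← Real.rpow_natCast (R : ℝ) j, ← Real.rpow_natCast ((R : ℝ) ^ (6 / 5 : ℝ)) j,
            ← Real.rpow_mul hR0.le, ← Real.rpow_mul hR0.le, mul_comm]
        rw [h3]
        exact (pow_le_pow_left₀ (by positivity) hYge j).trans hj3
      have h4 : (((R : ℝ) ^ j) ^ (6 / 5 : ℝ)) ^ (5 / 6 : ℝ) ≤ ((F : ℝ) ^ 2) ^ (5 / 6 : ℝ) :=
        Real.rpow_le_rpow (by positivity) h2 (by norm_num)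
      rw [← Real.rpow_mul (by positivity)] at h4
      rw [show (6 / 5 : ℝ) * (5 / 6) = 1 by norm_num, Real.rpow_one] at h4
      have h5 : ((F : ℝ) ^ 2) ^ (5 / 6 : ℝ) = (F : ℝ) ^ (5 / 3 : ℝ) := by
        rw [← Real.rpow_natCast (F : ℝ) 2, ← Real.rpow_mul hF0.le]
        congr 1; norm_num
      rw [h5] at h4
      exact h4
    calc x = (R : ℝ) ^ j * R := by rw [hx, hj, pow_succ]
      _ ≤ (F : ℝ) ^ (5 / 3 : ℝ) * F := mul_le_mul h1 hRF' hR0.le (by positivity)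
      _ = (F : ℝ) ^ (8 / 3 : ℝ) := by
          nth_rewrite 2 [← Real.rpow_one (F : ℝ)]
          rw [← Real.rpow_add hF0]
          congr 1; norm_num
  -- the powers
  have hYk : ((Y ^ k : ℕ) : ℝ) ≤ 6 ^ k * x ^ (6 / 5 : ℝ) := by
    have h3 : x ^ (6 / 5 : ℝ) = ((R : ℝ) ^ (6 / 5 : ℝ)) ^ k := by
      rw [hx, ← Real.rpow_natCast (R : ℝ) k, ← Real.rpow_natCast ((R : ℝ) ^ (6 / 5 : ℝ)) k,
        ← Real.rpow_mul hR0.le, ← Real.rpow_mul hR0.le, mul_comm]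
    rw [h3, ← mul_pow]
    push_cast
    exact pow_le_pow_left₀ (Nat.cast_nonneg _) hYle k
  have hYk1 : (1 : ℝ) ≤ ((Y ^ k : ℕ) : ℝ) := by
    have h1 : F ^ 2 ≠ 0 := pow_ne_zero _ (by omega)
    have h2 : 1 ≤ Y ^ k := by omega
    exact_mod_cast h2
  have hB := Pool.Agent.H735CB.LSv.fact_count Y k K (1 / 1000) C0 C1 (by norm_num) hK1 hkK hC01 hC00 hC11 hdiv
  have hmain := lg_count E ((R : ℝ) ^ (99 / 100 : ℝ) / 4) (C1 ^ K * ((Y ^ k : ℕ) : ℝ) ^ (1 / 1000 : ℝ))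
    (by positivity) F Y k hE hB
  obtain ⟨c, hc⟩ : ∃ c : ℝ, c = (((Icc 2 F).filter (Lg E ((R : ℝ) ^ (99 / 100 : ℝ) / 4))).card : ℝ) := ⟨_, rfl⟩
  rw [← hc] at hmain ⊢
  have hc0 : 0 ≤ c := by rw [hc]; exact Nat.cast_nonneg _
  have hV : ((R : ℝ) ^ (99 / 100 : ℝ) / 4) ^ (2 * k) = x ^ (99 / 50 : ℝ) / 16 ^ k := by
    rw [div_pow]
    have h1 : ((R : ℝ) ^ (99 / 100 : ℝ)) ^ (2 * k) = x ^ (99 / 50 : ℝ) := by
      rw [hx, ← Real.rpow_natCast (R : ℝ) k, ← Real.rpow_natCast ((R : ℝ) ^ (99 / 100 : ℝ)) (2 * k),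
        ← Real.rpow_mul hR0.le, ← Real.rpow_mul hR0.le]
      congr 1; push_cast; ring
    have h2 : (4 : ℝ) ^ (2 * k) = 16 ^ k := by
      rw [pow_mul]; norm_num
    rw [h1, h2]
  rw [hV] at hmain
  -- the right side
  have hrhs : 6 * (((Y ^ k : ℕ) : ℝ) + (F : ℝ) ^ 2) * (C1 ^ K * ((Y ^ k : ℕ) : ℝ) ^ (1 / 1000 : ℝ) * (E.card : ℝ) ^ k) ≤
      12 * C1 ^ K * 108 ^ k * x ^ (11006 / 5000 : ℝ) := by
    have hFY : (F : ℝ) ^ 2 ≤ ((Y ^ k : ℕ) : ℝ) := by exact_mod_cast hk1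
    have h1 : 6 * (((Y ^ k : ℕ) : ℝ) + (F : ℝ) ^ 2) ≤ 12 * (6 ^ k * x ^ (6 / 5 : ℝ)) := by linarith
    have h2 : ((Y ^ k : ℕ) : ℝ) ^ (1 / 1000 : ℝ) ≤ 6 ^ k * x ^ (6 / 5000 : ℝ) := by
      calc ((Y ^ k : ℕ) : ℝ) ^ (1 / 1000 : ℝ) ≤ (6 ^ k * x ^ (6 / 5 : ℝ)) ^ (1 / 1000 : ℝ) :=
            Real.rpow_le_rpow (by positivity) hYk (by norm_num)
        _ = (6 ^ k) ^ (1 / 1000 : ℝ) * x ^ (6 / 5000 : ℝ) := by
            rw [Real.mul_rpow (by positivity) (by positivity), ← Real.rpow_mul hx0.le]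
            congr 2; norm_num
        _ ≤ 6 ^ k * x ^ (6 / 5000 : ℝ) := by
            refine mul_le_mul_of_nonneg_right ?_ (by positivity)
            calc ((6 : ℝ) ^ k) ^ (1 / 1000 : ℝ) ≤ (6 ^ k) ^ (1 : ℝ) :=
                  Real.rpow_le_rpow_of_exponent_le (one_le_pow₀ (by norm_num)) (by norm_num)
              _ = 6 ^ k := Real.rpow_one _
    have h3 : (E.card : ℝ) ^ k ≤ 3 ^ k * x := by
      rw [hx, ← mul_pow]
      exact pow_le_pow_left₀ (Nat.cast_nonneg _) hEc k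
    calc 6 * (((Y ^ k : ℕ) : ℝ) + (F : ℝ) ^ 2) * (C1 ^ K * ((Y ^ k : ℕ) : ℝ) ^ (1 / 1000 : ℝ) * (E.card : ℝ) ^ k)
        ≤ 12 * (6 ^ k * x ^ (6 / 5 : ℝ)) * (C1 ^ K * (6 ^ k * x ^ (6 / 5000 : ℝ)) * (3 ^ k * x)) := by
          refine mul_le_mul h1 ?_ (by positivity) (by positivity)
          refine mul_le_mul ?_ h3 (by positivity) (by positivity)
          exact mul_le_mul_of_nonneg_left h2 (by positivity)
      _ = 12 * C1 ^ K * 108 ^ k * (x ^ (6 / 5 : ℝ) * x ^ (6 / 5000 : ℝ) * x) := by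
          rw [show (108 : ℝ) = 6 * 6 * 3 by norm_num, mul_pow, mul_pow]
          ring
      _ = 12 * C1 ^ K * 108 ^ k * x ^ (11006 / 5000 : ℝ) := by
          congr 1
          nth_rewrite 3 [← Real.rpow_one x]
          rw [← Real.rpow_add hx0, ← Real.rpow_add hx0]
          congr 1; norm_num
  have hfin : c ≤ 12 * C1 ^ K * 1728 ^ k * x ^ (1106 / 5000 : ℝ) := by
    have h1 := hmain.trans hrhs
    have h2 : c * x ^ (99 / 50 : ℝ) ≤ 12 * C1 ^ K * 1728 ^ k * x ^ (11006 / 5000 : ℝ) := by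
      have h3 : c * x ^ (99 / 50 : ℝ) = c * (x ^ (99 / 50 : ℝ) / 16 ^ k) * 16 ^ k := by
        field_simp
      rw [h3]
      calc c * (x ^ (99 / 50 : ℝ) / 16 ^ k) * 16 ^ k ≤ 12 * C1 ^ K * 108 ^ k * x ^ (11006 / 5000 : ℝ) * 16 ^ k :=
            mul_le_mul_of_nonneg_right h1 (by positivity)
        _ = 12 * C1 ^ K * 1728 ^ k * x ^ (11006 / 5000 : ℝ) := by
            rw [show (1728 : ℝ) = 108 * 16 by norm_num, mul_pow]
            ring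
    have h4 : x ^ (11006 / 5000 : ℝ) = x ^ (1106 / 5000 : ℝ) * x ^ (99 / 50 : ℝ) := by
      rw [← Real.rpow_add hx0]
      congr 1; norm_num
    rw [h4, ← mul_assoc] at h2
    exact le_of_mul_le_mul_right h2 (by positivity)
  have hCF : C ≤ (F : ℝ) ^ (1 / 100 : ℝ) := by
    have h1 : (C ^ (100 : ℝ)) ^ (1 / 100 : ℝ) ≤ (F : ℝ) ^ (1 / 100 : ℝ) :=
      Real.rpow_le_rpow (by positivity) hFC (by norm_num)
    rw [← Real.rpow_mul hCpos.le] at h1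
    rw [show (100 : ℝ) * (1 / 100) = 1 by norm_num, Real.rpow_one] at h1
    exact h1
  calc c ≤ 12 * C1 ^ K * 1728 ^ k * x ^ (1106 / 5000 : ℝ) := hfin
    _ ≤ C * ((F : ℝ) ^ (8 / 3 : ℝ)) ^ (1106 / 5000 : ℝ) := by
        rw [hC]
        refine mul_le_mul ?_ (Real.rpow_le_rpow hx0.le hxF (by norm_num)) (by positivity) (by positivity)
        refine mul_le_mul_of_nonneg_left ?_ (by positivity)
        exact pow_le_pow_right₀ (by norm_num) hkK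
    _ ≤ (F : ℝ) ^ (1 / 100 : ℝ) * ((F : ℝ) ^ (8 / 3 : ℝ)) ^ (1106 / 5000 : ℝ) :=
        mul_le_mul_of_nonneg_right hCF (by positivity)
    _ = (F : ℝ) ^ (1 / 100 + 8 / 3 * (1106 / 5000) : ℝ) := by
        rw [← Real.rpow_mul hF0.le, ← Real.rpow_add hF0]
    _ ≤ (F : ℝ) ^ (3 / 5 : ℝ) := Real.rpow_le_rpow_of_exponent_le hF1 (by norm_num)

end Pool.Agent.Q84.NX
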