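import Pool.Agent.Q84.NX.Shrt
import Pool.Agent.Q84.NX.Dy2

/-!
# Short sums of the primitive characters, for almost all moduli: all the intervals
-/

set_option autoImplicit false

namespace Pool.Agent.Q84.NX

open Finset

/-- for all `N` with `q ^ η ≤ N ≤ q` and all intervals `(u, v]` with `v ≤ u + N` and `u ≤ N ^ (6/5)`, the sums of all primitive characters
modulo `q` over the interval are at most `N ^ (99/100) / 2` -/
def Shrt (η : ℝ) (q : ℕ) : Prop :=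
  ∀ χ : DirichletCharacter ℂ q, χ.IsPrimitive → ∀ N u v : ℕ, (q : ℝ) ^ η ≤ N → N ≤ q → u ≤ v → v ≤ u + N →
    (u : ℝ) ≤ (N : ℝ) ^ (6 / 5 : ℝ) → ‖∑ a ∈ Ioc u v, χ (a : ZMod q)‖ ≤ (N : ℝ) ^ (99 / 100 : ℝ) / 2

/-- rounding the end points -/
theorem round_le (q : ℕ) (χ : DirichletCharacter ℂ q) (D u v : ℕ) (hD : 0 < D) (huv : u ≤ v) :
    ‖∑ a ∈ Ioc u v, χ (a : ZMod q)‖ ≤ ‖∑ a ∈ Ioc (D * (u / D)) (D * (v / D)), χ (a : ZMod q)‖ + 2 * D := by
  have hu1 : D * (u / D) ≤ u := Nat.mul_div_le u D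
  have hv1 : D * (v / D) ≤ v := Nat.mul_div_le v D
  have huv' : D * (u / D) ≤ D * (v / D) := Nat.mul_le_mul_left D (Nat.div_le_div_right huv)
  have hu2 : u - D * (u / D) ≤ D := by
    have h1 := Nat.div_add_mod u D
    have h2 := Nat.mod_lt u hD
    omega
  have hv2 : v - D * (v / D) ≤ D := by
    have h1 := Nat.div_add_mod v D
    have h2 := Nat.mod_lt v hD
    omega
  have e1 := Finset.sum_Ioc_consecutive (fun a : ℕ => χ (a : ZMod q)) hu1 huv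
  have e2 := Finset.sum_Ioc_consecutive (fun a : ℕ => χ (a : ZMod q)) huv' hv1
  have e3 : ∑ a ∈ Ioc u v, χ (a : ZMod q) = ∑ a ∈ Ioc (D * (u / D)) (D * (v / D)), χ (a : ZMod q) +
      ∑ a ∈ Ioc (D * (v / D)) v, χ (a : ZMod q) - ∑ a ∈ Ioc (D * (u / D)) u, χ (a : ZMod q) := by
    rw [e2, ← e1]
    ring
  have htriv : ∀ s t : ℕ, t - s ≤ D → ‖∑ a ∈ Ioc s t, χ (a : ZMod q)‖ ≤ D := by
    intro s t hst
    refine (norm_sum_le _ _).trans ?_
    refine (sum_le_sum fun a _ => DirichletCharacter.norm_le_one χ _).trans ?_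
    rw [sum_const, Nat.card_Ioc, nsmul_eq_mul, mul_one]
    exact_mod_cast hst
  rw [e3]
  refine (norm_sub_le _ _).trans ?_
  have h1 := norm_add_le (∑ a ∈ Ioc (D * (u / D)) (D * (v / D)), χ (a : ZMod q)) (∑ a ∈ Ioc (D * (v / D)) v, χ (a : ZMod q))
  have h2 := htriv _ _ hu2
  have h3 := htriv _ _ hv2
  linarith

open Classical in
/-- few moduli are exceptional -/
theorem shrt_few (η : ℝ) (hη : 0 < η) (hη1 : η ≤ 1) : ∃ K₀ : ℝ, ∀ K : ℕ, K₀ ≤ K →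
    (((Ioc K (2 * K)).filter fun q => ¬ Shrt η q).card : ℝ) ≤ (K : ℝ) ^ (1 - 1 / 10 : ℝ) := by
  obtain ⟨F₀, hF₀⟩ := lg_few (η / 2) (by positivity)
  refine ⟨max (max F₀ (8 ^ (200 / η : ℝ))) (max ((100000 : ℝ) ^ (100 : ℝ)) ((2 : ℝ) ^ (25 : ℝ))), fun K hK => ?_⟩
  have hK1 : F₀ ≤ K := (le_max_left _ _).trans ((le_max_left _ _).trans hK)
  have hK2 : (8 : ℝ) ^ (200 / η : ℝ) ≤ K := (le_max_right _ _).trans ((le_max_left _ _).trans hK)
  have hK3 : (100000 : ℝ) ^ (100 : ℝ) ≤ K := (le_max_left _ _).trans ((le_max_right _ _).trans hK)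
  have hK4 : (2 : ℝ) ^ (25 : ℝ) ≤ K := (le_max_right _ _).trans ((le_max_right _ _).trans hK)
  have hKge : (1 : ℝ) ≤ K := (Real.one_le_rpow (by norm_num) (by norm_num)).trans hK4
  have hK0 : (0 : ℝ) < K := by linarith
  have hKn : 1 ≤ K := by exact_mod_cast hKge
  obtain ⟨F, hF⟩ : ∃ F, F = 2 * K := ⟨_, rfl⟩
  have hFr : (F : ℝ) = 2 * K := by rw [hF]; push_cast; rfl
  have hF1 : (1 : ℝ) ≤ F := by linarith
  have hF0 : (0 : ℝ) < F := by linarith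
  have hFK : (K : ℝ) ≤ F := by linarith
  -- powers of `F` are large
  have hF8 : (8 : ℝ) ≤ (F : ℝ) ^ (η / 200) := by
    have h1 : ((8 : ℝ) ^ (200 / η : ℝ)) ^ (η / 200) ≤ (F : ℝ) ^ (η / 200) :=
      Real.rpow_le_rpow (by positivity) (hK2.trans hFK) (by positivity)
    rw [← Real.rpow_mul (by norm_num)] at h1
    rw [show 200 / η * (η / 200) = 1 by field_simp, Real.rpow_one] at h1
    exact h1
  have hF5 : (100000 : ℝ) ≤ (F : ℝ) ^ (1 / 100 : ℝ) := by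
    have h1 : ((100000 : ℝ) ^ (100 : ℝ)) ^ (1 / 100 : ℝ) ≤ (F : ℝ) ^ (1 / 100 : ℝ) :=
      Real.rpow_le_rpow (by positivity) (hK3.trans hFK) (by norm_num)
    rw [← Real.rpow_mul (by norm_num)] at h1
    rw [show (100 : ℝ) * (1 / 100) = 1 by norm_num, Real.rpow_one] at h1
    exact h1
  have hFη : (8 : ℝ) ≤ (F : ℝ) ^ (η / 2) := by
    refine hF8.trans (Real.rpow_le_rpow_of_exponent_le hF1 (by linarith))
  -- the lattice
  obtain ⟨D, hD⟩ : ∃ D : ℕ → ℕ, D = fun i => ⌊((2 ^ i : ℕ) : ℝ) ^ (49 / 50 : ℝ)⌋₊ := ⟨_, rfl⟩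
  obtain ⟨T, hT⟩ : ∃ T : ℕ × ℕ × ℕ → Finset ℕ, T = fun t => (Icc 2 F).filter fun q =>
      (F : ℝ) ^ (η / 2) ≤ ((2 ^ t.1 : ℕ) : ℝ) ∧ 2 ^ t.1 ≤ F ∧
      Ioc (D t.1 * t.2.1) (D t.1 * (t.2.1 + t.2.2)) ⊆ Icc 1 ⌊6 * ((2 ^ t.1 : ℕ) : ℝ) ^ (6 / 5 : ℝ)⌋₊ ∧
      ((Ioc (D t.1 * t.2.1) (D t.1 * (t.2.1 + t.2.2))).card : ℝ) ≤ 3 * ((2 ^ t.1 : ℕ) : ℝ) ∧
      Lg (Ioc (D t.1 * t.2.1) (D t.1 * (t.2.1 + t.2.2))) (((2 ^ t.1 : ℕ) : ℝ) ^ (99 / 100 : ℝ) / 4) q := ⟨_, rfl⟩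
  have hTc : ∀ t, ((T t).card : ℝ) ≤ (F : ℝ) ^ (3 / 5 : ℝ) := by
    intro t
    by_cases hc : (F : ℝ) ^ (η / 2) ≤ ((2 ^ t.1 : ℕ) : ℝ) ∧ 2 ^ t.1 ≤ F ∧
      Ioc (D t.1 * t.2.1) (D t.1 * (t.2.1 + t.2.2)) ⊆ Icc 1 ⌊6 * ((2 ^ t.1 : ℕ) : ℝ) ^ (6 / 5 : ℝ)⌋₊ ∧
      ((Ioc (D t.1 * t.2.1) (D t.1 * (t.2.1 + t.2.2))).card : ℝ) ≤ 3 * ((2 ^ t.1 : ℕ) : ℝ)
    · obtain ⟨h1, h2, h3, h4⟩ := hc
      refine le_trans ?_ (hF₀ F (2 ^ t.1) (hK1.trans hFK) h1 h2 _ h3 h4)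
      rw [Nat.cast_le, hT]
      refine card_le_card fun q hq => ?_
      rw [mem_filter] at hq ⊢
      exact ⟨hq.1, hq.2.2.2.2.2⟩
    · have h0 : T t = ∅ := by
        rw [hT]
        refine Finset.filter_eq_empty_iff.2 fun q _ hq => hc ⟨hq.1, hq.2.1, hq.2.2.1, hq.2.2.2.1⟩
      rw [h0, card_empty, Nat.cast_zero]
      positivity
  obtain ⟨I, hI⟩ : ∃ I, I = Nat.log 2 F + 1 := ⟨_, rfl⟩
  obtain ⟨A, hA⟩ : ∃ A, A = ⌊8 * (F : ℝ) ^ (11 / 50 : ℝ)⌋₊ + 1 := ⟨_, rfl⟩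
  obtain ⟨B, hB⟩ : ∃ B, B = ⌊6 * (F : ℝ) ^ (1 / 50 : ℝ)⌋₊ + 1 := ⟨_, rfl⟩
  have hcover : ((Ioc K (2 * K)).filter fun q => ¬ Shrt η q) ⊆
      (range I ×ˢ range A ×ˢ range B).biUnion T := by
    intro q hq
    rw [mem_filter, mem_Ioc] at hq
    obtain ⟨⟨hq1, hq2⟩, hq3⟩ := hq
    unfold Shrt at hq3
    push Not at hq3
    obtain ⟨χ, hχ, N, u, v, hN1, hN2, huv, hvN, huN, hbig⟩ := hq3
    have hqF : q ≤ F := by omega
    have hqK : (K : ℝ) ≤ q := by exact_mod_cast hq1.le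
    have hq0 : (0 : ℝ) < q := by linarith
    -- the dyadic size of `N`
    have hN0 : N ≠ 0 := by
      rintro rfl
      have : (0 : ℝ) < (q : ℝ) ^ η := Real.rpow_pos_of_pos hq0 _
      simp only [Nat.cast_zero] at hN1
      linarith
    obtain ⟨i, hi⟩ : ∃ i, i = Nat.log 2 N := ⟨_, rfl⟩
    have hi1 : 2 ^ i ≤ N := by rw [hi]; exact Nat.pow_log_le_self 2 hN0
    have hi2 : N < 2 ^ (i + 1) := by rw [hi]; exact Nat.lt_pow_succ_log_self (by norm_num) N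
    obtain ⟨R, hR⟩ : ∃ R, R = 2 ^ i := ⟨_, rfl⟩
    rw [pow_succ, ← hR] at hi2
    rw [← hR] at hi1
    have hRN : (R : ℝ) ≤ N := by exact_mod_cast hi1
    have hNR : (N : ℝ) ≤ 2 * R := by
      have : N ≤ 2 * R := by omega
      exact_mod_cast this
    have hR1n : 1 ≤ R := by rw [hR]; exact Nat.one_le_two_pow
    have hR1 : (1 : ℝ) ≤ R := by exact_mod_cast hR1n
    have hR0 : (0 : ℝ) < R := by linarith
    have hRF : R ≤ F := hi1.trans (hN2.trans hqF)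
    have hRF' : (R : ℝ) ≤ F := by exact_mod_cast hRF
    have hRη : (F : ℝ) ^ (η / 2) ≤ R := by
      have h1 : (F : ℝ) ^ η ≤ 2 * (q : ℝ) ^ η := by
        calc (F : ℝ) ^ η ≤ (2 * (q : ℝ)) ^ η := Real.rpow_le_rpow hF0.le (by rw [hFr]; linarith) hη.le
          _ = 2 ^ η * (q : ℝ) ^ η := Real.mul_rpow (by norm_num) hq0.le
          _ ≤ 2 * (q : ℝ) ^ η := by
              refine mul_le_mul_of_nonneg_right ?_ (by positivity)
              calc (2 : ℝ) ^ η ≤ 2 ^ (1 : ℝ) := Real.rpow_le_rpow_of_exponent_le (by norm_num) hη1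
                _ = 2 := Real.rpow_one _
      have h2 : (F : ℝ) ^ η = (F : ℝ) ^ (η / 2) * (F : ℝ) ^ (η / 2) := by
        rw [← Real.rpow_add hF0]
        congr 1; ring
      have h3 : 0 < (F : ℝ) ^ (η / 2) := by positivity
      nlinarith
    have hDdef : D i = ⌊(R : ℝ) ^ (49 / 50 : ℝ)⌋₊ := by rw [hD, hR]
    obtain ⟨d, hd⟩ : ∃ d, d = D i := ⟨_, rfl⟩
    have hR49 : 1 ≤ (R : ℝ) ^ (49 / 50 : ℝ) := Real.one_le_rpow hR1 (by norm_num)
    have hdle : (d : ℝ) ≤ (R : ℝ) ^ (49 / 50 : ℝ) := by rw [hd, hDdef]; exact Nat.floor_le (by positivity)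
    have hdge : (R : ℝ) ^ (49 / 50 : ℝ) / 2 ≤ d := by
      have h1 := Nat.lt_floor_add_one ((R : ℝ) ^ (49 / 50 : ℝ))
      rw [← hDdef, ← hd] at h1
      have h2 : 1 ≤ d := by rw [hd, hDdef]; exact Nat.le_floor (by exact_mod_cast hR49)
      have h3 : (1 : ℝ) ≤ d := by exact_mod_cast h2
      linarith
    have hd0 : 0 < d := by
      have : (0 : ℝ) < d := by linarith
      exact_mod_cast this
    have hd0' : (0 : ℝ) < d := by exact_mod_cast hd0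
    have hdR : (d : ℝ) ≤ R := by
      refine hdle.trans ?_
      calc (R : ℝ) ^ (49 / 50 : ℝ) ≤ (R : ℝ) ^ (1 : ℝ) := Real.rpow_le_rpow_of_exponent_le hR1 (by norm_num)
        _ = R := Real.rpow_one _
    -- the end points
    have hu65 : (u : ℝ) ≤ 4 * (R : ℝ) ^ (6 / 5 : ℝ) := by
      calc (u : ℝ) ≤ (N : ℝ) ^ (6 / 5 : ℝ) := huN
        _ ≤ (2 * (R : ℝ)) ^ (6 / 5 : ℝ) := Real.rpow_le_rpow (Nat.cast_nonneg _) hNR (by norm_num)
        _ = 2 ^ (6 / 5 : ℝ) * (R : ℝ) ^ (6 / 5 : ℝ) := Real.mul_rpow (by norm_num) hR0.le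
        _ ≤ 4 * (R : ℝ) ^ (6 / 5 : ℝ) := by
            refine mul_le_mul_of_nonneg_right ?_ (by positivity)
            calc (2 : ℝ) ^ (6 / 5 : ℝ) ≤ 2 ^ (2 : ℝ) := Real.rpow_le_rpow_of_exponent_le (by norm_num) (by norm_num)
              _ = 4 := by norm_num
    have hRR65 : (R : ℝ) ≤ (R : ℝ) ^ (6 / 5 : ℝ) := by
      nth_rewrite 1 [← Real.rpow_one (R : ℝ)]
      exact Real.rpow_le_rpow_of_exponent_le hR1 (by norm_num)
    have hvr : (v : ℝ) ≤ u + N := by exact_mod_cast hvN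
    have hv6 : (v : ℝ) ≤ 6 * (R : ℝ) ^ (6 / 5 : ℝ) := by linarith
    obtain ⟨a, ha⟩ : ∃ a, a = u / d := ⟨_, rfl⟩
    obtain ⟨w, hw⟩ : ∃ w, w = v / d - u / d := ⟨_, rfl⟩
    have hab : a + w = v / d := by
      have := Nat.div_le_div_right (c := d) huv
      omega
    have hdu : d * a ≤ u := by rw [ha]; exact Nat.mul_div_le u d
    have hdv : d * (a + w) ≤ v := by rw [hab]; exact Nat.mul_div_le v d
    have hda : u < d * a + d := by
      rw [ha]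
      have h1 := Nat.div_add_mod u d
      have h2 := Nat.mod_lt u hd0
      omega
    have hdw : d * w ≤ N + d := by
      have e : d * (a + w) = d * a + d * w := by ring
      omega
    have hdwR : (d : ℝ) * w ≤ 3 * R := by
      have h1 : (d : ℝ) * w ≤ N + d := by exact_mod_cast hdw
      linarith
    rw [mem_biUnion]
    refine ⟨(i, a, w), ?_, ?_⟩
    · rw [mem_product, mem_product, mem_range, mem_range, mem_range]
      refine ⟨?_, ?_, ?_⟩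
      · rw [hI, hi]
        have := Nat.log_mono_right (b := 2) (hN2.trans hqF)
        simp only
        omega
      · simp only
        rw [hA, Nat.lt_succ_iff]
        refine Nat.le_floor ?_
        have h1 : (d : ℝ) * a ≤ 4 * (R : ℝ) ^ (6 / 5 : ℝ) := by
          have : ((d * a : ℕ) : ℝ) ≤ u := by exact_mod_cast hdu
          push_cast at this
          linarith
        have h2 : (R : ℝ) ^ (49 / 50 : ℝ) * a ≤ 8 * (R : ℝ) ^ (6 / 5 : ℝ) := by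
          have h3 : (0 : ℝ) ≤ a := Nat.cast_nonneg a
          nlinarith
        have h4 : (R : ℝ) ^ (6 / 5 : ℝ) = (R : ℝ) ^ (49 / 50 : ℝ) * (R : ℝ) ^ (11 / 50 : ℝ) := by
          rw [← Real.rpow_add hR0]
          congr 1; norm_num
        rw [h4] at h2
        have h5 : (a : ℝ) ≤ 8 * (R : ℝ) ^ (11 / 50 : ℝ) := by
          have h6 : 0 < (R : ℝ) ^ (49 / 50 : ℝ) := by positivity
          have h7 : (R : ℝ) ^ (49 / 50 : ℝ) * a ≤ (R : ℝ) ^ (49 / 50 : ℝ) * (8 * (R : ℝ) ^ (11 / 50 : ℝ)) := by linarith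
          exact le_of_mul_le_mul_left h7 h6
        exact h5.trans (mul_le_mul_of_nonneg_left (Real.rpow_le_rpow hR0.le hRF' (by norm_num)) (by norm_num))
      · simp only
        rw [hB, Nat.lt_succ_iff]
        refine Nat.le_floor ?_
        have h2 : (R : ℝ) ^ (49 / 50 : ℝ) * w ≤ 6 * (R : ℝ) ^ (1 : ℝ) := by
          rw [Real.rpow_one]
          have h3 : (0 : ℝ) ≤ w := Nat.cast_nonneg w
          nlinarith
        have h4 : (R : ℝ) ^ (1 : ℝ) = (R : ℝ) ^ (49 / 50 : ℝ) * (R : ℝ) ^ (1 / 50 : ℝ) := by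
          rw [← Real.rpow_add hR0]
          congr 1; norm_num
        rw [h4] at h2
        have h5 : (w : ℝ) ≤ 6 * (R : ℝ) ^ (1 / 50 : ℝ) := by
          have h6 : 0 < (R : ℝ) ^ (49 / 50 : ℝ) := by positivity
          have h7 : (R : ℝ) ^ (49 / 50 : ℝ) * w ≤ (R : ℝ) ^ (49 / 50 : ℝ) * (6 * (R : ℝ) ^ (1 / 50 : ℝ)) := by linarith
          exact le_of_mul_le_mul_left h7 h6
        exact h5.trans (mul_le_mul_of_nonneg_left (Real.rpow_le_rpow hR0.le hRF' (by norm_num)) (by norm_num))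
    · rw [hT, mem_filter, mem_Icc]
      simp only
      rw [← hR, ← hd]
      refine ⟨⟨by omega, hqF⟩, hRη, hRF, ?_, ?_, χ, hχ, ?_⟩
      · intro b hb
        rw [mem_Ioc] at hb
        rw [mem_Icc]
        refine ⟨by omega, ?_⟩
        refine Nat.le_floor ?_
        have : (b : ℝ) ≤ v := by exact_mod_cast hb.2.trans hdv
        linarith
      · rw [Nat.card_Ioc]
        have e : d * (a + w) - d * a = d * w := by
          rw [Nat.mul_add]
          omega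
        rw [e]
        push_cast
        exact hdwR
      · have h1 := round_le q χ d u v hd0 huv
        rw [← ha, ← hab] at h1
        have h2 : (N : ℝ) ^ (99 / 100 : ℝ) / 2 < ‖∑ a ∈ Ioc u v, χ (a : ZMod q)‖ := hbig
        have h3 : (R : ℝ) ^ (99 / 100 : ℝ) ≤ (N : ℝ) ^ (99 / 100 : ℝ) := Real.rpow_le_rpow hR0.le hRN (by norm_num)
        have h4 : 8 * (d : ℝ) ≤ (R : ℝ) ^ (99 / 100 : ℝ) := by
          have h5 : (8 : ℝ) ≤ (R : ℝ) ^ (1 / 100 : ℝ) := by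
            refine hF8.trans ?_
            have h6 : (F : ℝ) ^ (η / 200) = ((F : ℝ) ^ (η / 2)) ^ (1 / 100 : ℝ) := by
              rw [← Real.rpow_mul hF0.le]
              congr 1; ring
            rw [h6]
            exact Real.rpow_le_rpow (by positivity) hRη (by norm_num)
          have h7 : (R : ℝ) ^ (99 / 100 : ℝ) = (R : ℝ) ^ (1 / 100 : ℝ) * (R : ℝ) ^ (49 / 50 : ℝ) := by
            rw [← Real.rpow_add hR0]
            congr 1; norm_num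
          rw [h7]
          exact mul_le_mul h5 hdle hd0'.le (by positivity)
        linarith
  -- the count
  have hsum : (((Ioc K (2 * K)).filter fun q => ¬ Shrt η q).card : ℝ) ≤ I * (A * B) * (F : ℝ) ^ (3 / 5 : ℝ) := by
    have h1 : (((Ioc K (2 * K)).filter fun q => ¬ Shrt η q).card : ℝ) ≤
        (((range I ×ˢ range A ×ˢ range B).biUnion T).card : ℝ) := by exact_mod_cast card_le_card hcover
    have h2 : (((range I ×ˢ range A ×ˢ range B).biUnion T).card : ℝ) ≤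
        ∑ t ∈ range I ×ˢ range A ×ˢ range B, ((T t).card : ℝ) := by exact_mod_cast card_biUnion_le
    have h3 : ∑ t ∈ range I ×ˢ range A ×ˢ range B, ((T t).card : ℝ) ≤
        ∑ _t ∈ range I ×ˢ range A ×ˢ range B, (F : ℝ) ^ (3 / 5 : ℝ) := sum_le_sum fun t _ => hTc t
    have h4 : ∑ _t ∈ range I ×ˢ range A ×ˢ range B, (F : ℝ) ^ (3 / 5 : ℝ) = I * (A * B) * (F : ℝ) ^ (3 / 5 : ℝ) := by
      rw [sum_const, card_product, card_product, card_range, card_range, card_range, nsmul_eq_mul]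
      push_cast
      ring
    linarith
  have hF11 : 1 ≤ (F : ℝ) ^ (11 / 50 : ℝ) := Real.one_le_rpow hF1 (by norm_num)
  have hF150 : 1 ≤ (F : ℝ) ^ (1 / 50 : ℝ) := Real.one_le_rpow hF1 (by norm_num)
  have hA9 : (A : ℝ) ≤ 9 * (F : ℝ) ^ (11 / 50 : ℝ) := by
    have h1 := Nat.floor_le (a := 8 * (F : ℝ) ^ (11 / 50 : ℝ)) (by positivity)
    rw [hA]
    push_cast
    linarith
  have hB7 : (B : ℝ) ≤ 7 * (F : ℝ) ^ (1 / 50 : ℝ) := by
    have h1 := Nat.floor_le (a := 6 * (F : ℝ) ^ (1 / 50 : ℝ)) (by positivity)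
    rw [hB]
    push_cast
    linarith
  have hI' : (I : ℝ) ≤ 201 * (F : ℝ) ^ (1 / 100 : ℝ) := by
    have h1 : ((Nat.log 2 F : ℕ) : ℝ) ≤ Real.log F / Real.log 2 := by
      have h2 : ((2 ^ Nat.log 2 F : ℕ) : ℝ) ≤ F := by
        exact_mod_cast Nat.pow_log_le_self 2 (by omega : F ≠ 0)
      have h3 := Real.log_le_log (by positivity) h2
      push_cast at h3
      rw [Real.log_pow] at h3
      rw [le_div_iff₀ (Real.log_pos (by norm_num))]
      exact h3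
    have h2 : Real.log F ≤ 100 * (F : ℝ) ^ (1 / 100 : ℝ) := by
      have := Real.log_le_rpow_div hF0.le (show (0 : ℝ) < 1 / 100 by norm_num)
      linarith
    have h3 : (1 / 2 : ℝ) ≤ Real.log 2 := by
      have := Real.log_two_gt_d9
      linarith
    have h4 : Real.log F / Real.log 2 ≤ 200 * (F : ℝ) ^ (1 / 100 : ℝ) := by
      rw [div_le_iff₀ (by linarith)]
      have h5 : 0 < (F : ℝ) ^ (1 / 100 : ℝ) := by positivity
      nlinarith
    have h5 : 1 ≤ (F : ℝ) ^ (1 / 100 : ℝ) := by linarith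
    rw [hI]
    push_cast
    linarith
  have hconst : (201 * 63 : ℝ) ≤ (F : ℝ) ^ (1 / 100 : ℝ) := by linarith
  calc (((Ioc K (2 * K)).filter fun q => ¬ Shrt η q).card : ℝ) ≤ I * (A * B) * (F : ℝ) ^ (3 / 5 : ℝ) := hsum
    _ ≤ (201 * (F : ℝ) ^ (1 / 100 : ℝ)) * ((9 * (F : ℝ) ^ (11 / 50 : ℝ)) * (7 * (F : ℝ) ^ (1 / 50 : ℝ))) *
        (F : ℝ) ^ (3 / 5 : ℝ) := by
        refine mul_le_mul_of_nonneg_right ?_ (by positivity)
        refine mul_le_mul hI' ?_ (by positivity) (by positivity)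
        exact mul_le_mul hA9 hB7 (Nat.cast_nonneg _) (by positivity)
    _ = (201 * 63) * ((F : ℝ) ^ (1 / 100 : ℝ) * ((F : ℝ) ^ (11 / 50 : ℝ) * (F : ℝ) ^ (1 / 50 : ℝ)) *
        (F : ℝ) ^ (3 / 5 : ℝ)) := by ring
    _ ≤ (F : ℝ) ^ (1 / 100 : ℝ) * ((F : ℝ) ^ (1 / 100 : ℝ) * ((F : ℝ) ^ (11 / 50 : ℝ) * (F : ℝ) ^ (1 / 50 : ℝ)) *
        (F : ℝ) ^ (3 / 5 : ℝ)) := mul_le_mul_of_nonneg_right hconst (by positivity)
    _ = (F : ℝ) ^ (43 / 50 : ℝ) := by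
        rw [← Real.rpow_add hF0, ← Real.rpow_add hF0, ← Real.rpow_add hF0, ← Real.rpow_add hF0]
        congr 1; norm_num
    _ = 2 ^ (43 / 50 : ℝ) * (K : ℝ) ^ (43 / 50 : ℝ) := by
        rw [hFr, Real.mul_rpow (by norm_num) hK0.le]
    _ ≤ (K : ℝ) ^ (1 / 25 : ℝ) * (K : ℝ) ^ (43 / 50 : ℝ) := by
        refine mul_le_mul_of_nonneg_right ?_ (by positivity)
        calc (2 : ℝ) ^ (43 / 50 : ℝ) ≤ 2 ^ (1 : ℝ) := Real.rpow_le_rpow_of_exponent_le (by norm_num) (by norm_num)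
          _ = ((2 : ℝ) ^ (25 : ℝ)) ^ (1 / 25 : ℝ) := by
              rw [← Real.rpow_mul (by norm_num)]
              norm_num
          _ ≤ (K : ℝ) ^ (1 / 25 : ℝ) := Real.rpow_le_rpow (by positivity) hK4 (by norm_num)
    _ = (K : ℝ) ^ (1 - 1 / 10 : ℝ) := by
        rw [← Real.rpow_add hK0]
        congr 1; norm_num

end Pool.Agent.Q84.NX
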