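import Pool.Agent.Q84.MB.F4

/-!
# Strings of consecutive primes with a property which has few exceptions
-/

set_option autoImplicit false

open scoped Classical

namespace Pool.Agent.Q84.NX

open Finset Filter

/-- if a property `G` of the primes has at most `X ^ (1 - κ₀)` exceptions in `(X, 4X]`, then there are strings of `m`
consecutive primes with bounded gaps in prescribed classes with the property `G` -/
theorem strings_of (G : ℕ → Prop) (κ₀ : ℝ) (hκ₀ : 0 < κ₀)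
    (hG : ∀ᶠ X : ℝ in atTop, (((Icc 1 ⌊4 * X⌋₊).filter fun p : ℕ => p.Prime ∧ X < p ∧ ¬ G p).card : ℝ) ≤ X ^ (1 - κ₀))
    (κ : ℝ) (hκ : 0 < κ) (m : ℕ) : ∃ c' : ℝ, 0 < c' ∧
    ∀ Z : ℕ, ∃ D : ℕ, ∃ X₀ : ℝ, ∀ X : ℝ, X₀ ≤ X →
    ∃ S : Finset ℕ, (∀ q ∈ S, q.Prime ∧ Z < q) ∧ (S.card : ℝ) ≤ (Real.log X) ^ (49 / 50 : ℝ) ∧
    ∀ f : ℕ → ℤ, (∀ q, f q = 1 ∨ f q = -1) →
      X ^ (1 - κ) ≤ (((Icc 1 ⌊3 * X⌋₊).filter fun n : ℕ => X < n ∧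
        m ≤ ((Icc n (n + D)).filter Nat.Prime).card ∧
        ∀ p ∈ Icc n (n + D), p.Prime → G p ∧
          ∀ q : ℕ, q.Prime → q ≠ 2 → (q : ℝ) ≤ c' * Real.log X → q ∉ S → jacobiSym p q = f q).card : ℝ) := by
  obtain ⟨η, hη⟩ : ∃ η, η = min κ κ₀ := ⟨_, rfl⟩
  have hη0 : 0 < η := by rw [hη]; exact lt_min hκ hκ₀
  have hη1 : η ≤ κ := by rw [hη]; exact min_le_left _ _
  have hη2 : η ≤ κ₀ := by rw [hη]; exact min_le_right _ _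
  obtain ⟨c', hc', hmain⟩ := Pool.Agent.Q84.MB.sym_strings m η hη0
  refine ⟨c', hc', fun Z => ?_⟩
  obtain ⟨D, hD⟩ := hmain Z
  obtain ⟨X₀, hX₀⟩ := eventually_atTop.1 ((hD.and hG).and (eventually_ge_atTop (1 : ℝ)))
  refine ⟨D, X₀, fun X hX => ?_⟩
  obtain ⟨⟨⟨S, hS1, hS2, hS3⟩, hXG⟩, hX1⟩ := hX₀ X hX
  refine ⟨S, hS1, hS2, fun f hf => ?_⟩
  have h1 := hS3 f hf G (hXG.trans (Real.rpow_le_rpow_of_exponent_le hX1 (by linarith)))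
  have h2 : X ^ (1 - κ) ≤ X ^ (1 - η) := Real.rpow_le_rpow_of_exponent_le hX1 (by linarith)
  refine h2.trans (h1.trans ?_)
  rw [Nat.cast_le]
  apply card_le_card
  intro n hn
  rw [mem_filter] at hn ⊢
  obtain ⟨h3, h4, h5⟩ := hn
  exact ⟨h3, h4, h5.1, h5.2⟩

end Pool.Agent.Q84.NX
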