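import Pool.Agent.Q84.NX.Str
import Pool.Agent.Q84.NX.Core
import Pool.Agent.Q84.NX.Tri

/-!
# Strings of primes without exceptional numbers near their small multiples
-/

set_option autoImplicit false

open scoped Classical

namespace Pool.Agent.Q84.NX

open Finset Filter

/-- no exceptional number is within `p ^ c` of a multiple `k p`, `1 ≤ k ≤ p ^ c` -/
def WinFine (R : ℕ → Prop) (c : ℝ) (p : ℕ) : Prop :=
  ∀ k b : ℕ, 1 ≤ k → (k : ℝ) ≤ (p : ℝ) ^ c → |(b : ℝ) - k * p| ≤ (p : ℝ) ^ c → ¬ R b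

/-- the primes with an exceptional number near a small multiple -/
theorem win_bad (R : ℕ → Prop) (C δ : ℝ) (hδ : 0 < δ) (hδ1 : δ ≤ 1)
    (hR : ∀ Y : ℕ, (((range (Y + 1)).filter R).card : ℝ) ≤ C * ((Y : ℝ) + 1) ^ (1 - δ)) (c : ℝ) (hc0 : 0 < c)
    (hc : c ≤ δ / 8) :
    ∀ᶠ X : ℝ in atTop, (((Icc 1 ⌊4 * X⌋₊).filter fun p : ℕ => p.Prime ∧ X < p ∧ ¬ WinFine R c p).card : ℝ) ≤
      X ^ (1 - δ / 2) := by
  have hc1 : c < 1 := by linarith
  have hC : 0 ≤ C := by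
    have h := hR 0
    have h1 : (0 : ℝ) ≤ (((range (0 + 1)).filter R).card : ℝ) := Nat.cast_nonneg _
    have h2 : ((0 : ℕ) : ℝ) + 1 = 1 := by norm_num
    rw [h2, Real.one_rpow, mul_one] at h
    linarith
  filter_upwards [(tendsto_rpow_atTop (by linarith : (0 : ℝ) < 1 - c)).eventually_gt_atTop (8 ^ (1 + c)),
    (tendsto_rpow_atTop (by positivity : (0 : ℝ) < δ / 4)).eventually_ge_atTop (C * 384),
    eventually_ge_atTop (32 : ℝ)] with X hX8 hXC hX32
  have hX0 : 0 < X := by linarith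
  have hX1 : 1 ≤ X := by linarith
  obtain ⟨N, hN⟩ : ∃ N, N = ⌊(8 * X) ^ (1 + c)⌋₊ := ⟨_, rfl⟩
  have hNle : (N : ℝ) ≤ (8 * X) ^ (1 + c) := by rw [hN]; exact Nat.floor_le (by positivity)
  have hNX2 : (N : ℝ) < X ^ (0 + 2) := by
    refine hNle.trans_lt ?_
    rw [Real.mul_rpow (by norm_num) hX0.le]
    have e : X ^ (0 + 2) = X ^ (1 - c) * X ^ (1 + c) := by
      rw [← Real.rpow_add hX0, show (1 - c) + (1 + c) = (2 : ℕ) by push_cast; ring, Real.rpow_natCast]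
    rw [e]
    exact mul_lt_mul_of_pos_right hX8 (by positivity)
  obtain ⟨V, hV⟩ : ∃ V, V = ⌊(4 * X) ^ c⌋₊ := ⟨_, rfl⟩
  have hVle : (V : ℝ) ≤ (4 * X) ^ c := by rw [hV]; exact Nat.floor_le (by positivity)
  have h4c1 : 1 ≤ (4 * X) ^ c := Real.one_le_rpow (by linarith) hc0.le
  have hcore := near_core R 0 N V X hX1 hNX2 ⌊4 * X⌋₊
  have hsub : ((Icc 1 ⌊4 * X⌋₊).filter fun p : ℕ => p.Prime ∧ X < p ∧ ¬ WinFine R c p) ⊆
      (Icc 1 ⌊4 * X⌋₊).filter fun p : ℕ => p.Prime ∧ X < p ∧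
        ∃ n b : ℕ, 1 ≤ n ∧ n ≤ N ∧ p ∣ n ∧ b ≤ N ∧ R b ∧ n ≤ b + V ∧ b ≤ n + V := by
    intro p hp
    rw [mem_filter, mem_Icc] at hp ⊢
    obtain ⟨hp14, hpp, hXp, hg⟩ := hp
    have hp4 : (p : ℝ) ≤ 4 * X := (Nat.le_floor_iff (by linarith)).1 hp14.2
    have hpr0 : (0 : ℝ) < p := by linarith
    have hpr1 : (1 : ℝ) ≤ p := by linarith
    refine ⟨hp14, hpp, hXp, ?_⟩
    unfold WinFine at hg
    push Not at hg
    obtain ⟨k, b, hk1, hk2, hkb, hb⟩ := hg
    have hpc : (p : ℝ) ^ c ≤ (4 * X) ^ c := Real.rpow_le_rpow hpr0.le hp4 hc0.le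
    have hpc1 : (4 * X) ^ c ≤ 4 * X := by
      calc (4 * X) ^ c ≤ (4 * X) ^ (1 : ℝ) := Real.rpow_le_rpow_of_exponent_le (by linarith) hc1.le
        _ = 4 * X := Real.rpow_one _
    have hkp : (k : ℝ) * p ≤ (4 * X) ^ (1 + c) := by
      rw [add_comm, Real.rpow_add (by positivity), Real.rpow_one]
      exact mul_le_mul (hk2.trans hpc) hp4 hpr0.le (by positivity)
    have h48 : 2 * (4 * X) ^ (1 + c) ≤ (8 * X) ^ (1 + c) := by
      have e : (8 * X) ^ (1 + c) = 2 ^ (1 + c) * (4 * X) ^ (1 + c) := by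
        rw [← Real.mul_rpow (by norm_num) (by positivity)]
        congr 1
        ring
      rw [e]
      apply mul_le_mul_of_nonneg_right _ (by positivity)
      calc (2 : ℝ) = 2 ^ (1 : ℝ) := (Real.rpow_one _).symm
        _ ≤ 2 ^ (1 + c) := Real.rpow_le_rpow_of_exponent_le (by norm_num) (by linarith)
    have h44 : 4 * X ≤ (4 * X) ^ (1 + c) := by
      calc 4 * X = (4 * X) ^ (1 : ℝ) := (Real.rpow_one _).symm
        _ ≤ (4 * X) ^ (1 + c) := Real.rpow_le_rpow_of_exponent_le (by linarith) (by linarith)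
    have hnN : k * p ≤ N := by
      rw [hN]
      refine Nat.le_floor ?_
      push_cast
      have : (0 : ℝ) ≤ (4 * X) ^ (1 + c) := by positivity
      linarith
    have hbN : b ≤ N := by
      rw [hN]
      refine Nat.le_floor ?_
      have := (abs_le.1 hkb).2
      linarith
    obtain ⟨h1, h2⟩ := near_nat b k p V ((4 * X) ^ c) (hkb.trans hpc) hV
    exact ⟨k * p, b, Nat.mul_pos (by omega) hpp.pos, hnN, dvd_mul_left _ _, hbN, hb, h1, h2⟩
  have h1 : (((Icc 1 ⌊4 * X⌋₊).filter fun p : ℕ => p.Prime ∧ X < p ∧ ¬ WinFine R c p).card : ℝ) ≤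
      (((range (N + 1)).filter R).card : ℝ) * (2 * V + 1) := by
    have h2 := (card_le_card hsub).trans hcore
    have h3 : (((Icc 1 ⌊4 * X⌋₊).filter fun p : ℕ => p.Prime ∧ X < p ∧ ¬ WinFine R c p).card : ℝ) ≤
      (((0 + 1) * (((range (N + 1)).filter R).card * (2 * V + 1)) : ℕ) : ℝ) := by exact_mod_cast h2
    refine h3.trans (le_of_eq ?_)
    push_cast
    ring
  refine h1.trans ?_
  have h8 : 1 ≤ (8 * X) ^ (1 + c) := Real.one_le_rpow (by linarith) (by linarith)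
  have hN2 : ((N : ℝ) + 1) ^ (1 - δ) ≤ 2 * (8 * X) ^ ((1 + c) * (1 - δ)) := by
    calc ((N : ℝ) + 1) ^ (1 - δ) ≤ (2 * (8 * X) ^ (1 + c)) ^ (1 - δ) :=
          Real.rpow_le_rpow (by positivity) (by linarith) (by linarith)
      _ = 2 ^ (1 - δ) * (8 * X) ^ ((1 + c) * (1 - δ)) := by
          rw [Real.mul_rpow (by norm_num) (by positivity), ← Real.rpow_mul (by positivity)]
      _ ≤ 2 * (8 * X) ^ ((1 + c) * (1 - δ)) := by
          apply mul_le_mul_of_nonneg_right _ (by positivity)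
          calc (2 : ℝ) ^ (1 - δ) ≤ 2 ^ (1 : ℝ) := Real.rpow_le_rpow_of_exponent_le (by norm_num) (by linarith)
            _ = 2 := Real.rpow_one _
  have h4c8 : (4 * X) ^ c ≤ (8 * X) ^ c := Real.rpow_le_rpow (by positivity) (by linarith) hc0.le
  obtain ⟨e, he⟩ : ∃ e, e = (1 + c) * (1 - δ) + c := ⟨_, rfl⟩
  have he1 : e ≤ 1 - 3 * δ / 4 := by
    rw [he]
    have : 0 ≤ c * δ := by positivity
    have h2 : (1 + c) * (1 - δ) + c = 1 - δ + 2 * c - c * δ := by ring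
    rw [h2]
    linarith
  have he0 : e ≤ 2 := by linarith
  calc (((range (N + 1)).filter R).card : ℝ) * (2 * V + 1)
      ≤ (C * (2 * (8 * X) ^ ((1 + c) * (1 - δ)))) * (3 * (8 * X) ^ c) := by
        apply mul_le_mul _ (by linarith) (by positivity) (by positivity)
        exact (hR N).trans (mul_le_mul_of_nonneg_left hN2 hC)
    _ = C * 6 * (8 * X) ^ e := by
        rw [he, Real.rpow_add (by positivity)]
        ring
    _ = C * 6 * (8 ^ e * X ^ e) := by rw [Real.mul_rpow (by norm_num) hX0.le]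
    _ ≤ C * 6 * (64 * X ^ (1 - 3 * δ / 4)) := by
        apply mul_le_mul_of_nonneg_left _ (by positivity)
        apply mul_le_mul _ (Real.rpow_le_rpow_of_exponent_le hX1 he1) (by positivity) (by norm_num)
        calc (8 : ℝ) ^ e ≤ 8 ^ (2 : ℝ) := Real.rpow_le_rpow_of_exponent_le (by norm_num) he0
          _ = 64 := by norm_num
    _ = (C * 384) * X ^ (1 - 3 * δ / 4) := by ring
    _ ≤ X ^ (δ / 4) * X ^ (1 - 3 * δ / 4) := mul_le_mul_of_nonneg_right hXC (by positivity)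
    _ = X ^ (1 - δ / 2) := by
        rw [← Real.rpow_add hX0]
        congr 1
        ring

end Pool.Agent.Q84.NX
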